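import Pool.Agent.H9.DP.Bdm
import Pool.Agent.H9.DP.Pul
import Pool.Agent.H9.DP.PBas

/-!
# Module BREC: one step of the measure recursion

PROOF. `K0` large (`stg_na`, `bd_meas`), fix `K`; `J, c1, C1` (`sn_spec`), `C'` (`pul2`). Let `n = sn c j`, `t = (1/2)^j`, `d = DD c n`, `y = f^[n] (vv c)`, `c' = nc c j`, `Kb = Kn K n`, `μ = M c'`. `An c j ⊆ ball (vv c) (2 t)`, where `‖deriv (f^[n]) w - deriv (f^[n]) (vv c)‖ ≤ d / 8` and `‖f^[n] w - y‖ ≤ 3 t d` (`stg_na`), so `‖f^[n] w - c'‖ ≤ ee c n + 3 t d ≤ 4 Kb t d` (`Stg.hit`, `nr_eq`, `Kb ≥ 1`).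
`Bd (l+1) c ∩ An c j` is contained in (the `j` in the definition of `Bd` is unique: the annuli are disjoint) `{w ∈ ball (vv c) (2t) | f^[n] w ∈ S1 ∪ S2}`, `S1 = ball c' (lam t d)`, `S2 = {u | lam t d ≤ ‖u - c'‖ < z, ‖u - c'‖ ≤ 4 Kb t d, f^[τ c'] u ∈ Bd l c'}`. `pul1` (`a = deriv (f^[n]) (vv c)`): measure at most `(2 / d^2) (volume S1 + volume S2)`; `volume S1 = π (lam t d)^2`.
`S2 ⊆ ⋃_i A_i ∩ (f^[τ c'])⁻¹' (Bd l c' ∩ V)` over the `i` with `R_i = 2^(-i)`, `A_i = {R_i/2 < ‖u - c'‖ ≤ R_i}`, `R_i < r0`, `R_i ≤ 8 Kb t d`; `V = {v | (1/2)^(j+1) < ‖v - vv c'‖}`: indeed for `u ∈ S2`: `‖f^[τ c'] u - vv c'‖ ≥ (lam t d)^μ / C ≥ lam^μ (Kb t d)^μ / (C Kb^μ) ≥ lam ^ μ t q^n / (C^2 Kb ^ μ) > (1/2)^(j+1)` by `stg_hit` and the hypothesis `hlam`.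
`pul2`: `volume (A_i ∩ ..) ≤ (C' / R_i^(2 (μ - 1))) * volume (Bd l c' ∩ V ∩ {R_i^μ / C' ≤ ‖v - vv c'‖ ≤ C' R_i ^ μ})`, and the last set is contained in the union of `Bd l c' ∩ An c' j'` over `j' ≤ j` (because of `V`) with `(1/2)^j' ≤ 2 C' R_i^μ`, `(1/2)^(j'+1) .. ≥ R_i^μ / (2C')` (`z` small: `C' z ^ μ ≤ 1/2`; if a point of the set is at distance `≤ 1` it is in a unique annulus), which have measure `≤ β 4^(-j')` by the hypothesis for `J0 < j' ≤ j` and `0` for `j' ≤ J0` (the definition of `Bd`; for `l = 0` the set is empty):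
sum of a geometric series `≤ β * C'' R_i^(2 μ)`. So `volume S2 ≤ ∑_i C''' β R_i^2 ≤ C'''' β (Kb t d)^2`. Total: `≤ A (lam^2 + Kb^2 β) t^2`.
-/

set_option autoImplicit false

open Filter Topology Metric Set

namespace Pool.Agent.H44.DP

/-- a finite part of a geometric series -/
theorem brec_geo (T : Finset ℕ) {X : ℝ} (h : ∀ k ∈ T, (1 / 2 : ℝ) ^ k ≤ X) :
    ∑ k ∈ T, (1 / 4 : ℝ) ^ k ≤ 4 / 3 * X ^ 2 := by
  classical
  rcases T.eq_empty_or_nonempty with h0 | h0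
  · rw [h0, Finset.sum_empty]
    positivity
  · obtain ⟨m, hm⟩ : ∃ m, m = T.min' h0 := ⟨_, rfl⟩
    have hmT : m ∈ T := by
      rw [hm]
      exact T.min'_mem h0
    obtain ⟨N, hN⟩ : ∃ N, N = T.sup id := ⟨_, rfl⟩
    have hsub : T ⊆ (Finset.range (N + 1)).image (fun i => m + i) := by
      intro k hk
      have h1 : m ≤ k := by
        rw [hm]
        exact T.min'_le k hk
      have h2 : k ≤ N := by
        rw [hN]
        exact Finset.le_sup (f := id) hk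
      rw [Finset.mem_image]
      exact ⟨k - m, Finset.mem_range.2 (by omega), by omega⟩
    have hgeo : ∀ n : ℕ, ∑ i ∈ Finset.range n, (1 / 4 : ℝ) ^ i ≤ 4 / 3 := by
      intro n
      have h1 : ∑ k ∈ Finset.range n, (1 / 4 : ℝ) ^ k = 4 / 3 * (1 - (1 / 4) ^ n) := by
        induction n with
        | zero => simp
        | succ n ih =>
          rw [Finset.sum_range_succ, ih]
          ring
      rw [h1]
      have : (0 : ℝ) ≤ (1 / 4) ^ n := by positivity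
      linarith
    calc ∑ k ∈ T, (1 / 4 : ℝ) ^ k ≤ ∑ k ∈ (Finset.range (N + 1)).image (fun i => m + i),
          (1 / 4 : ℝ) ^ k :=
          Finset.sum_le_sum_of_subset_of_nonneg hsub fun _ _ _ => by positivity
      _ = ∑ i ∈ Finset.range (N + 1), (1 / 4 : ℝ) ^ (m + i) :=
          Finset.sum_image fun a _ b _ hab => by
            have hab' : m + a = m + b := hab
            omega
      _ = (1 / 4 : ℝ) ^ m * ∑ i ∈ Finset.range (N + 1), (1 / 4 : ℝ) ^ i := by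
          rw [Finset.mul_sum]
          exact Finset.sum_congr rfl fun i _ => pow_add _ _ _
      _ ≤ (1 / 4 : ℝ) ^ m * (4 / 3) := mul_le_mul_of_nonneg_left (hgeo _) (by positivity)
      _ = 4 / 3 * ((1 / 2 : ℝ) ^ m) ^ 2 := by
          rw [← pow_mul, mul_comm m 2, pow_mul]
          norm_num
          ring
      _ ≤ 4 / 3 * X ^ 2 := by
          have := pow_le_pow_left₀ (by positivity) (h m hmT) 2
          linarith

/-- the annuli are disjoint -/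
theorem an_uniq (D : Ps) {c w : ℂ} {i j : ℕ} (h1 : w ∈ An D c i) (h2 : w ∈ An D c j) : i = j := by
  have e : ∀ {a b : ℕ}, w ∈ An D c a → w ∈ An D c b → a ≤ b := by
    intro a b ha hb
    have h3 : (1 / 2 : ℝ) ^ (b + 1) < (1 / 2) ^ a := lt_of_lt_of_le hb.1 ha.2
    have h4 := (pow_lt_pow_iff_right_of_lt_one₀ (by norm_num : (0 : ℝ) < 1 / 2)
      (by norm_num : (1 / 2 : ℝ) < 1)).1 h3
    omega
  exact le_antisymm (e h1 h2) (e h2 h1)

open MeasureTheory in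
/-- the points which pass at distance about `R` from the critical point -/
private theorem brec_ring (D : Ps) {C' : ℝ} (hC' : 1 ≤ C') {c' : ℂ} (hc' : c' ∈ D.Ce)
    {R : ℝ} (hR : 0 < R) {lam z K β : ℝ} {J0 l j : ℕ} (hβ : 0 ≤ β)
    (hBm : MeasurableSet (Bd D K lam z J0 l c'))
    (hpul : ∀ S : Set ℂ, MeasurableSet S →
      volume ({u : ℂ | R / 2 < ‖u - c'‖ ∧ ‖u - c'‖ ≤ R} ∩ (D.f^[D.τ c']) ⁻¹' S) ≤
        ENNReal.ofReal (C' / R ^ (2 * (D.M c' - 1))) *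
          volume (S ∩ {v : ℂ | R ^ D.M c' / C' ≤ ‖v - D.vv c'‖ ∧
            ‖v - D.vv c'‖ ≤ C' * R ^ D.M c'}))
    (hB : ∀ j', J0 < j' → j' ≤ j →
        volume (Bd D K lam z J0 l c' ∩ An D c' j') ≤ ENNReal.ofReal (β * (1 / 4) ^ j')) :
    volume ({u : ℂ | R / 2 < ‖u - c'‖ ∧ ‖u - c'‖ ≤ R} ∩
      (D.f^[D.τ c']) ⁻¹' (Bd D K lam z J0 l c' ∩ {v | (1 / 2 : ℝ) ^ (j + 1) < ‖v - D.vv c'‖})) ≤
      ENNReal.ofReal (16 / 3 * C' ^ 3 * β * R ^ 2) := by
  classical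
  have hC0 : 0 < C' := by linarith
  have hM : 2 ≤ D.M c' := M_two D (ce_Cr D hc')
  have hVm : MeasurableSet {v : ℂ | (1 / 2 : ℝ) ^ (j + 1) < ‖v - D.vv c'‖} := by
    have hcn : Continuous fun v : ℂ => ‖v - D.vv c'‖ := by fun_prop
    exact (isOpen_lt continuous_const hcn).measurableSet
  refine (hpul _ (hBm.inter hVm)).trans ?_
  obtain ⟨X, hX⟩ : ∃ X : ℝ, X = 2 * (C' * R ^ D.M c') := ⟨_, rfl⟩
  obtain ⟨T, hT⟩ : ∃ T : Finset ℕ, T = (Finset.Ioc J0 j).filter (fun k => (1 / 2 : ℝ) ^ k ≤ X) :=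
    ⟨_, rfl⟩
  have hsub : Bd D K lam z J0 l c' ∩ {v | (1 / 2 : ℝ) ^ (j + 1) < ‖v - D.vv c'‖} ∩
      {v : ℂ | R ^ D.M c' / C' ≤ ‖v - D.vv c'‖ ∧ ‖v - D.vv c'‖ ≤ C' * R ^ D.M c'} ⊆
      ⋃ k ∈ T, (Bd D K lam z J0 l c' ∩ An D c' k) := by
    rintro v ⟨⟨hv1, hv2⟩, hv3, hv4⟩
    cases l with
    | zero => exact absurd hv1 (Set.notMem_empty v)
    | succ l =>
      have hv1' := hv1
      simp only [Bd, mem_ofPred_eq] at hv1'
      obtain ⟨k, hk1, hk2, -, -⟩ := hv1'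
      simp only [mem_iUnion, exists_prop]
      refine ⟨k, ?_, hv1, hk2⟩
      rw [hT, Finset.mem_filter, Finset.mem_Ioc]
      have h3 : (1 / 2 : ℝ) ^ (j + 1) < (1 / 2) ^ k := lt_of_lt_of_le hv2 hk2.2
      have h4 := (pow_lt_pow_iff_right_of_lt_one₀ (by norm_num : (0 : ℝ) < 1 / 2)
        (by norm_num : (1 / 2 : ℝ) < 1)).1 h3
      have h5 : (1 / 2 : ℝ) ^ (k + 1) < C' * R ^ D.M c' := lt_of_lt_of_le hk2.1 hv4
      refine ⟨⟨hk1, by omega⟩, ?_⟩
      rw [hX]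
      rw [pow_succ] at h5
      linarith
  have hvol : volume (Bd D K lam z J0 l c' ∩ {v | (1 / 2 : ℝ) ^ (j + 1) < ‖v - D.vv c'‖} ∩
      {v : ℂ | R ^ D.M c' / C' ≤ ‖v - D.vv c'‖ ∧ ‖v - D.vv c'‖ ≤ C' * R ^ D.M c'}) ≤
      ENNReal.ofReal (β * (4 / 3 * X ^ 2)) := by
    refine (measure_mono hsub).trans ((measure_biUnion_finset_le _ _).trans ?_)
    have h1 : ∀ k ∈ T, volume (Bd D K lam z J0 l c' ∩ An D c' k) ≤
        ENNReal.ofReal (β * (1 / 4) ^ k) := by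
      intro k hk
      rw [hT, Finset.mem_filter, Finset.mem_Ioc] at hk
      exact hB k hk.1.1 hk.1.2
    refine (Finset.sum_le_sum h1).trans ?_
    rw [← ENNReal.ofReal_sum_of_nonneg fun k _ => by positivity]
    apply ENNReal.ofReal_le_ofReal
    rw [← Finset.mul_sum]
    refine mul_le_mul_of_nonneg_left (brec_geo T fun k hk => ?_) hβ
    rw [hT, Finset.mem_filter] at hk
    exact hk.2
  refine (mul_le_mul' le_rfl hvol).trans ?_
  rw [← ENNReal.ofReal_mul (by positivity)]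
  apply ENNReal.ofReal_le_ofReal
  rw [hX]
  obtain ⟨p, hp⟩ : ∃ p, D.M c' = p + 1 := ⟨D.M c' - 1, by omega⟩
  rw [hp, Nat.add_sub_cancel]
  apply le_of_eq
  have hRp : R ^ (2 * p) ≠ 0 := by positivity
  field_simp
  ring

open MeasureTheory in
theorem brec (D : Ps) : ∃ K0 z0 : ℝ, 1 ≤ K0 ∧ 0 < z0 ∧ ∀ K : ℝ, K0 ≤ K → ∃ (A : ℝ) (J : ℕ), 1 ≤ A ∧
    ∀ (lam z β : ℝ) (J0 : ℕ), 0 < lam → lam ≤ 1 → 0 < z → z ≤ z0 → J ≤ J0 → 0 ≤ β →
    ∀ (l j : ℕ), J0 < j →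
      (∀ c ∈ D.Ce, ∀ j', J0 < j' → j' ≤ j →
        volume (Bd D K lam z J0 l c ∩ An D c j') ≤ ENNReal.ofReal (β * (1 / 4) ^ j')) →
      ∀ c ∈ D.Ce, A * (Kn K (sn D K c j)) ^ D.M (nc D K c j) ≤
          lam ^ D.M (nc D K c j) * D.q ^ (sn D K c j) →
        volume (Bd D K lam z J0 (l + 1) c ∩ An D c j) ≤
          ENNReal.ofReal (A * (lam ^ 2 + (Kn K (sn D K c j)) ^ 2 * β) * (1 / 4) ^ j) := by
  classical
  obtain ⟨K1, hK1, Hna⟩ := stg_na D
  obtain ⟨K2, hK2, Hbm⟩ := bd_meas D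
  obtain ⟨C', hC', Hpul⟩ := pul2 D
  have hC := D.hC
  have hδ := D.hδ
  have hr0 := D.hr0
  refine ⟨max K1 K2, min (1 / 2) (D.r0 / 2), hK1.trans (le_max_left _ _), by positivity,
    fun K hK => ?_⟩
  have hKK1 := (le_max_left K1 K2).trans hK
  have hKK2 := (le_max_right K1 K2).trans hK
  have hKge := hK1.trans hKK1
  obtain ⟨J1, Hbm⟩ := Hbm K hKK2
  obtain ⟨J2, c1, C1, -, -, hsn⟩ := sn_spec D hKge
  have hC3 : 1 ≤ C' ^ 3 := one_le_pow₀ hC'
  have hCC : 1 ≤ D.C ^ 2 := one_le_pow₀ hC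
  obtain ⟨A, hA⟩ : ∃ A : ℝ, A = 512 * C' ^ 3 + D.C ^ 2 := ⟨_, rfl⟩
  refine ⟨A, max J1 J2, by rw [hA]; linarith, ?_⟩
  intro lam z β J0 hlam hlam1 hz hzz hJ hβ l j hj hB c hc hAK
  have hz1 : z ≤ 1 / 2 := hzz.trans (min_le_left _ _)
  have hz2 : z ≤ D.r0 / 2 := hzz.trans (min_le_right _ _)
  have hJ1 := (le_max_left J1 J2).trans hJ
  have hJ2 := (le_max_right J1 J2).trans hJ
  obtain ⟨n, hn⟩ : ∃ n, n = sn D K c j := ⟨_, rfl⟩
  obtain ⟨c', hc'⟩ : ∃ c', c' = nc D K c j := ⟨_, rfl⟩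
  by_cases hc'm : c' ∈ D.Ce
  swap
  · have hem : Bd D K lam z J0 (l + 1) c ∩ An D c j ⊆ ∅ := by
      rintro w ⟨hw1, hw2⟩
      simp only [Bd, mem_ofPred_eq] at hw1
      obtain ⟨k, -, hk2, hk3, -⟩ := hw1
      have hkj := an_uniq D hk2 hw2
      rw [hkj, ← hc'] at hk3
      exact absurd hk3 hc'm
    rw [Set.subset_empty_iff.1 hem, measure_empty]
    exact zero_le
  obtain ⟨s1, s2, -, -⟩ := hsn c hc j (by omega)
  rw [← hn] at s1 s2
  obtain ⟨t, ht⟩ : ∃ t : ℝ, t = (1 / 2) ^ j := ⟨_, rfl⟩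
  rw [← ht] at s1
  have ht0 : 0 < t := by
    rw [ht]
    positivity
  rw [← hn, ← hc'] at hAK
  rw [← hn]
  obtain ⟨Kb, hKb⟩ : ∃ Kb : ℝ, Kb = Kn K n := ⟨_, rfl⟩
  have hKb1 : 1 ≤ Kb := by
    rw [hKb]
    unfold Kn
    have : (1 : ℝ) ≤ ((n : ℝ) + 1) ^ 2 := one_le_pow₀ (by linarith [Nat.cast_nonneg (α := ℝ) n])
    exact one_le_mul_of_one_le_of_one_le hKge this
  rw [← hKb] at hAK ⊢
  obtain ⟨d, hd⟩ : ∃ d : ℝ, d = D.DD c n := ⟨_, rfl⟩
  have hd0 : 0 < d := by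
    have h1 := D.ce1 c hc n
    change D.q ^ n ≤ D.C * D.DD c n at h1
    rw [← hd] at h1
    have h2 : 0 < D.q ^ n := pow_pos (by linarith [D.hq]) n
    have h3 : 0 < D.C * d := lt_of_lt_of_le h2 h1
    exact pos_of_mul_pos_right h3 (by linarith)
  have hee : ‖D.f^[n] (D.vv c) - c'‖ = D.ee c n := by
    rw [hc', hn]
    exact (nr_eq D _).symm
  have hhit : ‖D.f^[n] (D.vv c) - c'‖ < Kb * (t * d) := by
    rw [hee, hKb, hd]
    exact s1.hit
  have hsh := stg_hit D hKge hc (ce_S D hc'm) ht0 s1 hee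
  rw [← hKb, ← hd] at hsh
  have hna := Hna K hKK1 c hc t ht0 n s2 s1
  have hM : 2 ≤ D.M c' := M_two D (ce_Cr D hc'm)
  obtain ⟨S1, hS1⟩ : ∃ S1 : Set ℂ, S1 = ball c' (lam * (t * d)) := ⟨_, rfl⟩
  obtain ⟨S2, hS2⟩ : ∃ S2 : Set ℂ, S2 = {u | lam * (t * d) ≤ ‖u - c'‖ ∧ ‖u - c'‖ < z ∧
    ‖u - c'‖ ≤ 3 * Kb * (t * d)} ∩ (D.f^[D.τ c']) ⁻¹' Bd D K lam z J0 l c' := ⟨_, rfl⟩
  have hBm := Hbm lam z J0 (by linarith) hJ1 l c' hc'm
  have hS2m : MeasurableSet S2 := by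
    have hcn : Continuous fun v : ℂ => ‖v - c'‖ := by fun_prop
    have hGc : ContinuousOn (D.f^[D.τ c']) (ball c' D.r0) := by
      intro w hw
      exact (it_diff D fun i hi => D.hU (thickening_mono (by linarith) _
        (D.p4 c' (ce_Cr D hc'm) _ hw i hi.le))).continuousAt.continuousWithinAt
    have e : S2 = {u | lam * (t * d) ≤ ‖u - c'‖ ∧ ‖u - c'‖ < z ∧ ‖u - c'‖ ≤ 3 * Kb * (t * d)} ∩
        (ball c' D.r0 ∩ (D.f^[D.τ c']) ⁻¹' Bd D K lam z J0 l c') := by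
      rw [hS2]
      ext u
      constructor
      · rintro ⟨h1, h2⟩
        refine ⟨h1, ?_, h2⟩
        rw [mem_ball, dist_eq_norm]
        linarith [h1.2.1]
      · rintro ⟨h1, -, h2⟩
        exact ⟨h1, h2⟩
    rw [e]
    refine MeasurableSet.inter ?_ (bdm_pre isOpen_ball.measurableSet hGc hBm)
    exact (isClosed_le continuous_const hcn).measurableSet.inter
      ((isOpen_lt hcn continuous_const).measurableSet.inter
        (isClosed_le hcn continuous_const).measurableSet)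
  have hS1m : MeasurableSet S1 := by
    rw [hS1]
    exact isOpen_ball.measurableSet
  -- the inclusion
  have hsub : Bd D K lam z J0 (l + 1) c ∩ An D c j ⊆
      ball (D.vv c) (2 * t) ∩ (D.f^[n]) ⁻¹' (S1 ∪ S2) := by
    rintro w ⟨hw1, hw2⟩
    simp only [Bd, mem_ofPred_eq] at hw1
    obtain ⟨k, -, hk2, -, hk3, hk4⟩ := hw1
    have hkj := an_uniq D hk2 hw2
    rw [hkj, ← hn, ← hc'] at hk3 hk4
    rw [← ht, ← hd] at hk4
    have hwt : ‖w - D.vv c‖ ≤ t := by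
      rw [ht]
      exact hw2.2
    have hwb : w ∈ ball (D.vv c) (2 * t) := by
      rw [mem_ball, dist_eq_norm]
      linarith
    refine ⟨hwb, ?_⟩
    show D.f^[n] w ∈ S1 ∪ S2
    by_cases hlt : ‖D.f^[n] w - c'‖ < lam * (t * d)
    · left
      rw [hS1, mem_ball, dist_eq_norm]
      exact hlt
    · right
      have hk5 := hk4.resolve_left hlt
      rw [hS2]
      refine ⟨⟨not_lt.1 hlt, hk3, ?_⟩, hk5⟩
      obtain ⟨-, -, e3, -⟩ := hna w hwb n le_rfl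
      rw [← hd] at e3
      have e4 : ‖deriv (D.f^[n]) (D.vv c) * (w - D.vv c)‖ = d * ‖w - D.vv c‖ := by
        rw [norm_mul, hd]
        rfl
      have e5 : D.f^[n] w - c' = (D.f^[n] w - D.f^[n] (D.vv c) -
          deriv (D.f^[n]) (D.vv c) * (w - D.vv c)) + deriv (D.f^[n]) (D.vv c) * (w - D.vv c) +
          (D.f^[n] (D.vv c) - c') := by ring
      rw [e5]
      refine (norm_add₃_le).trans ?_
      rw [e4]
      have e6 : d * ‖w - D.vv c‖ ≤ t * d := by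
        rw [mul_comm]
        exact mul_le_mul_of_nonneg_right hwt hd0.le
      have e7 : t * d ≤ Kb * (t * d) := le_mul_of_one_le_left (by positivity) hKb1
      have e8 : 1 / 8 * d * ‖w - D.vv c‖ = 1 / 8 * (d * ‖w - D.vv c‖) := by ring
      have e9 : 0 < t * d := by positivity
      linarith
  have hp := DN.pul1 (F := D.f^[n]) (v := D.vv c) (a := deriv (D.f^[n]) (D.vv c)) (ρ := 2 * t)
    (by positivity) (by
      intro h0
      have : d = 0 := by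
        rw [hd]
        show ‖deriv (D.f^[n]) (D.vv c)‖ = 0
        rw [h0, norm_zero]
      linarith) (fun w hw => (it_diff D fun i hi => D.hU (thickening_mono (by linarith) _
        (hna w hw i hi.le).1)).differentiableWithinAt) (fun w hw => by
      refine (hna w hw n le_rfl).2.1.trans ?_
      show 1 / 8 * D.DD c n ≤ 1 / 4 * D.DD c n
      rw [← hd]
      linarith) (hS1m.union hS2m)
  have hnd : ‖deriv (D.f^[n]) (D.vv c)‖ = d := by
    rw [hd]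
    rfl
  rw [hnd] at hp
  refine (measure_mono hsub).trans (hp.trans ?_)
  -- volumes
  have hv1 : volume S1 ≤ ENNReal.ofReal (4 * (lam * (t * d)) ^ 2) := by
    rw [hS1, Complex.volume_ball]
    have hpi : (NNReal.pi : ENNReal) = ENNReal.ofReal Real.pi := by
      rw [← NNReal.coe_real_pi, ENNReal.ofReal_coe_nnreal]
    rw [hpi, ← ENNReal.ofReal_pow (by positivity), ← ENNReal.ofReal_mul (by positivity)]
    apply ENNReal.ofReal_le_ofReal
    have h1 := Real.pi_lt_four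
    have h2 : 0 ≤ (lam * (t * d)) ^ 2 := by positivity
    nlinarith
  obtain ⟨Y, hY⟩ : ∃ Y : ℝ, Y = 6 * Kb * (t * d) := ⟨_, rfl⟩
  have hY0 : 0 < Y := by
    rw [hY]
    positivity
  have hv2 : volume S2 ≤ ENNReal.ofReal (16 / 3 * C' ^ 3 * β * (4 / 3 * Y ^ 2)) := by
    obtain ⟨N, hN⟩ := exists_pow_lt_of_lt_one (by positivity : 0 < lam * (t * d))
      (by norm_num : (1 / 2 : ℝ) < 1)
    obtain ⟨T, hT⟩ : ∃ T : Finset ℕ, T = (Finset.range N).filter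
      (fun i => (1 / 2 : ℝ) ^ i ≤ Y ∧ (1 / 2 : ℝ) ^ i < D.r0) := ⟨_, rfl⟩
    have hS2sub : S2 ⊆ ⋃ i ∈ T, ({u : ℂ | (1 / 2 : ℝ) ^ i / 2 < ‖u - c'‖ ∧
        ‖u - c'‖ ≤ (1 / 2 : ℝ) ^ i} ∩ (D.f^[D.τ c']) ⁻¹'
          (Bd D K lam z J0 l c' ∩ {v | (1 / 2 : ℝ) ^ (j + 1) < ‖v - D.vv c'‖})) := by
      intro u hu
      rw [hS2] at hu
      obtain ⟨⟨u1, u2, u3⟩, u4⟩ := hu
      have hu0 : 0 < ‖u - c'‖ := lt_of_lt_of_le (by positivity) u1
      obtain ⟨i, hi1, hi2⟩ := exists_nat_pow_near_of_lt_one hu0 (by linarith : ‖u - c'‖ ≤ 1)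
        (by norm_num : (0 : ℝ) < 1 / 2) (by norm_num : (1 / 2 : ℝ) < 1)
      have hi3 : (1 / 2 : ℝ) ^ (i + 1) = (1 / 2) ^ i / 2 := by
        rw [pow_succ]
        ring
      rw [hi3] at hi1
      simp only [mem_iUnion, exists_prop]
      refine ⟨i, ?_, ⟨hi1, hi2⟩, u4, ?_⟩
      · rw [hT, Finset.mem_filter, Finset.mem_range]
        refine ⟨?_, ?_, ?_⟩
        · by_contra hcon
          rw [not_lt] at hcon
          have h1 : (1 / 2 : ℝ) ^ i ≤ (1 / 2) ^ N :=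
            pow_le_pow_of_le_one (by norm_num) (by norm_num) hcon
          linarith
        · rw [hY]
          linarith
        · linarith
      · show (1 / 2 : ℝ) ^ (j + 1) < ‖D.f^[D.τ c'] u - D.vv c'‖
        have hub : u ∈ ball c' D.r0 := by
          rw [mem_ball, dist_eq_norm]
          linarith
        have h1 := (D.p1 c' (ce_Cr D hc'm) u hub).2
        change ‖u - c'‖ ^ D.M c' ≤ D.C * ‖D.f^[D.τ c'] u - D.vv c'‖ at h1
        have h2 : (lam * (t * d)) ^ D.M c' ≤ ‖u - c'‖ ^ D.M c' :=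
          pow_le_pow_left₀ (by positivity) u1 _
        have hKp : 0 < Kb ^ D.M c' := by positivity
        -- `Kb^μ C^2 ‖..‖ ≥ lam^μ t q^n ≥ A Kb^μ t`
        have h3 : Kb ^ D.M c' * (D.C ^ 2 * t) ≤
            Kb ^ D.M c' * (D.C ^ 2 * ‖D.f^[D.τ c'] u - D.vv c'‖) := by
          have h4 : A * Kb ^ D.M c' * t ≤ lam ^ D.M c' * D.q ^ n * t :=
            mul_le_mul_of_nonneg_right hAK ht0.le
          have h5 : lam ^ D.M c' * (t * D.q ^ n) ≤
              lam ^ D.M c' * (D.C * (Kb * (t * d)) ^ D.M c') :=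
            mul_le_mul_of_nonneg_left hsh (by positivity)
          have h6 : lam ^ D.M c' * (D.C * (Kb * (t * d)) ^ D.M c') =
              D.C * Kb ^ D.M c' * (lam * (t * d)) ^ D.M c' := by
            rw [mul_pow, mul_pow]
            ring
          have h7 : D.C * Kb ^ D.M c' * (lam * (t * d)) ^ D.M c' ≤
              D.C * Kb ^ D.M c' * (D.C * ‖D.f^[D.τ c'] u - D.vv c'‖) :=
            mul_le_mul_of_nonneg_left (h2.trans h1) (by positivity)
          have h8 : D.C ^ 2 * (Kb ^ D.M c' * t) ≤ A * (Kb ^ D.M c' * t) := by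
            apply mul_le_mul_of_nonneg_right _ (by positivity)
            rw [hA]
            linarith
          linarith
        have h9 := le_of_mul_le_mul_left h3 hKp
        have h10 := le_of_mul_le_mul_left h9 (by positivity : 0 < D.C ^ 2)
        rw [pow_succ, ← ht]
        linarith
    refine (measure_mono hS2sub).trans ((measure_biUnion_finset_le _ _).trans ?_)
    have h1 : ∀ i ∈ T, volume ({u : ℂ | (1 / 2 : ℝ) ^ i / 2 < ‖u - c'‖ ∧
        ‖u - c'‖ ≤ (1 / 2 : ℝ) ^ i} ∩ (D.f^[D.τ c']) ⁻¹'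
          (Bd D K lam z J0 l c' ∩ {v | (1 / 2 : ℝ) ^ (j + 1) < ‖v - D.vv c'‖})) ≤
        ENNReal.ofReal (16 / 3 * C' ^ 3 * β * (1 / 4) ^ i) := by
      intro i hi
      rw [hT, Finset.mem_filter] at hi
      have h2 := brec_ring D hC' hc'm (R := (1 / 2 : ℝ) ^ i) (by positivity) (lam := lam) (z := z)
        (K := K) (β := β) (J0 := J0) (l := l) (j := j) hβ hBm
        (fun S hS => Hpul c' (ce_Cr D hc'm) _ (by positivity) hi.2.2 S hS)
        (fun j' h3 h4 => hB c' hc'm j' h3 h4)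
      refine h2.trans (le_of_eq ?_)
      congr 2
      rw [← pow_mul, mul_comm i 2, pow_mul]
      norm_num
    refine (Finset.sum_le_sum h1).trans ?_
    rw [← ENNReal.ofReal_sum_of_nonneg fun k _ => by positivity]
    apply ENNReal.ofReal_le_ofReal
    rw [← Finset.mul_sum]
    refine mul_le_mul_of_nonneg_left (brec_geo T fun k hk => ?_) (by positivity)
    rw [hT, Finset.mem_filter] at hk
    exact hk.2.1
  refine (mul_le_mul' le_rfl ((measure_union_le _ _).trans (add_le_add hv1 hv2))).trans ?_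
  rw [← ENNReal.ofReal_add (by positivity) (by positivity), ← ENNReal.ofReal_mul (by positivity)]
  apply ENNReal.ofReal_le_ofReal
  have ht2 : (1 / 4 : ℝ) ^ j = t ^ 2 := by
    rw [ht, ← pow_mul, mul_comm j 2, pow_mul]
    norm_num
  rw [ht2, hY]
  have e1 : 2 / d ^ 2 * (4 * (lam * (t * d)) ^ 2 +
      16 / 3 * C' ^ 3 * β * (4 / 3 * (6 * Kb * (t * d)) ^ 2)) =
      (8 * lam ^ 2 + 512 * C' ^ 3 * (Kb ^ 2 * β)) * t ^ 2 := by
    field_simp
    ring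
  rw [e1]
  apply mul_le_mul_of_nonneg_right _ (by positivity)
  have h1 : 0 ≤ lam ^ 2 := by positivity
  have h2 : 0 ≤ Kb ^ 2 * β := by positivity
  have h3 : 8 * lam ^ 2 ≤ A * lam ^ 2 := by
    apply mul_le_mul_of_nonneg_right _ h1
    rw [hA]
    linarith
  have h4 : 512 * C' ^ 3 * (Kb ^ 2 * β) ≤ A * (Kb ^ 2 * β) := by
    apply mul_le_mul_of_nonneg_right _ h2
    rw [hA]
    linarith
  linarith

end Pool.Agent.H44.DP
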