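import Pool.Agent.H9.DP.LipW
import Pool.Agent.H79.PQ.QDf

/-!
# Module FamP: families: the perturbed orbit in weighted time

PROOF. `Cw` from `lipw`. Let `x_l = f^[l] x`, `y_l = f^[l] (g n u)`, `e_l = ‖g (n + l) u - y_l‖`, `T_l = TT x l`, `η = A ‖u‖ ^ M`. Induction on `l ≤ i`: `e_l ≤ l η exp (Cw T_l)`; `l = 0`: `e_0 = 0`. For `l < i`: `e_l ≤ l η exp (Cw T_l) ≤ i η exp (Cw T_i) ≤ δ/8 * dd x_l` (`hs`; `TT_mono`, `l ≤ i`), `‖y_l - x_l‖ ≤ δ/8 dd x_l` (`hy`), so `‖g (n + l) u - x_l‖ ≤ δ/4 dd x_l ≤ δ/4` and `g (n + l) u ∈ thickening δ J` (`x_l ∈ thickening (δ/2) J`, `th_add`, `thickening_mono`). Step: `g (n + (l + 1)) u = F u (g (n + l) u)` (`X.step`), `‖F u z - f z‖ ≤ η` for `z = g (n + l) u` (`X.pert`), and `‖f z - f y_l‖ ≤ exp (Cw wt x_l) e_l` (`lipw` with centre `x_l`):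
`e_(l+1) ≤ η + exp (Cw wt x_l) l η exp (Cw T_l) ≤ (l + 1) η exp (Cw T_(l+1))` (`TT_succ`, `exp ≥ 1` since `TT ≥ 0`, `Cw ≥ 0`).
-/

set_option autoImplicit false

open Filter Topology Metric Set

namespace Pool.Agent.H44.DP

theorem fam_pertw (D : Ps) : ∃ Cw : ℝ, 1 ≤ Cw ∧ ∀ (X : Fam D) (u x : ℂ) (n i : ℕ),
    u ∈ ball (0 : ℂ) X.ρ0 →
    (∀ l < i, D.f^[l] x ∈ thickening (D.δ / 2) D.J ∧ D.f^[l] x ∉ D.Pa ∧
      ‖D.f^[l] (X.g n u) - D.f^[l] x‖ ≤ D.δ / 8 * D.dd (D.f^[l] x) ∧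
      (i : ℝ) * (X.A * ‖u‖ ^ X.M) * Real.exp (Cw * D.TT x i) ≤ D.δ / 8 * D.dd (D.f^[l] x)) →
    ∀ l ≤ i, ‖X.g (n + l) u - D.f^[l] (X.g n u)‖ ≤
        (l : ℝ) * (X.A * ‖u‖ ^ X.M) * Real.exp (Cw * D.TT x l) ∧
      (l < i → X.g (n + l) u ∈ thickening D.δ D.J) := by
  obtain ⟨Cw, hCw, hw⟩ := lipw D
  refine ⟨Cw, hCw, fun X u x n i hu h => ?_⟩
  have hδ := D.hδ
  have hA := X.hA
  obtain ⟨η, hη⟩ : ∃ η : ℝ, η = X.A * ‖u‖ ^ X.M := ⟨_, rfl⟩
  have hη0 : 0 ≤ η := by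
    rw [hη]
    positivity
  rw [← hη] at h ⊢
  have key : ∀ l < i, ‖X.g (n + l) u - D.f^[l] (X.g n u)‖ ≤
      (l : ℝ) * η * Real.exp (Cw * D.TT x l) →
      ‖X.g (n + l) u - D.f^[l] x‖ ≤ D.δ / 4 * D.dd (D.f^[l] x) ∧
        X.g (n + l) u ∈ thickening D.δ D.J := by
    intro l hl he
    obtain ⟨h1, h2, h3, h4⟩ := h l hl
    have h5 : (l : ℝ) * η * Real.exp (Cw * D.TT x l) ≤ (i : ℝ) * η * Real.exp (Cw * D.TT x i) := by
      have hli : (l : ℝ) ≤ i := by exact_mod_cast hl.le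
      have hT : Cw * D.TT x l ≤ Cw * D.TT x i :=
        mul_le_mul_of_nonneg_left (TT_mono D x hl.le) (by linarith)
      exact mul_le_mul (mul_le_mul_of_nonneg_right hli hη0) (Real.exp_le_exp.2 hT)
        (Real.exp_pos _).le (by positivity)
    have h6 : ‖X.g (n + l) u - D.f^[l] x‖ ≤ D.δ / 4 * D.dd (D.f^[l] x) := by
      have e : X.g (n + l) u - D.f^[l] x =
          (X.g (n + l) u - D.f^[l] (X.g n u)) + (D.f^[l] (X.g n u) - D.f^[l] x) := by ring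
      rw [e]
      refine (norm_add_le _ _).trans ?_
      linarith
    refine ⟨h6, ?_⟩
    have h7 : D.dd (D.f^[l] x) ≤ 1 := dd_le_one D _
    have h8 : ‖X.g (n + l) u - D.f^[l] x‖ < D.δ / 2 := by
      have h9 : D.δ / 4 * D.dd (D.f^[l] x) ≤ D.δ / 4 * 1 :=
        mul_le_mul_of_nonneg_left h7 (by linarith)
      linarith
    have h10 := th_add h1 h8
    rwa [add_halves] at h10
  have main : ∀ l ≤ i, ‖X.g (n + l) u - D.f^[l] (X.g n u)‖ ≤
      (l : ℝ) * η * Real.exp (Cw * D.TT x l) := by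
    intro l
    induction l with
    | zero =>
      intro _
      simp
    | succ l ih =>
      intro hl
      have hl' : l < i := hl
      have he := ih hl'.le
      obtain ⟨h6, h7⟩ := key l hl' he
      obtain ⟨h1, h2, h3, h4⟩ := h l hl'
      have h8 : ‖D.f^[l] (X.g n u) - D.f^[l] x‖ ≤ D.δ / 4 * D.dd (D.f^[l] x) := by
        refine h3.trans (mul_le_mul_of_nonneg_right (by linarith) (dd_nonneg D _))
      have h9 := hw (D.f^[l] x) h1 h2 (X.g (n + l) u) (D.f^[l] (X.g n u)) h6 h8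
      have h10 := X.pert u hu (X.g (n + l) u) h7
      rw [← hη] at h10
      have e1 : X.g (n + (l + 1)) u = X.F u (X.g (n + l) u) := X.step (n + l) u
      rw [e1, Function.iterate_succ_apply']
      have e2 : X.F u (X.g (n + l) u) - D.f (D.f^[l] (X.g n u)) =
          (X.F u (X.g (n + l) u) - D.f (X.g (n + l) u)) +
          (D.f (X.g (n + l) u) - D.f (D.f^[l] (X.g n u))) := by ring
      rw [e2]
      have h11 : Real.exp (Cw * D.wt (D.f^[l] x)) *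
          ‖X.g (n + l) u - D.f^[l] (X.g n u)‖ ≤
          (l : ℝ) * η * Real.exp (Cw * D.TT x (l + 1)) := by
        calc Real.exp (Cw * D.wt (D.f^[l] x)) * ‖X.g (n + l) u - D.f^[l] (X.g n u)‖
            ≤ Real.exp (Cw * D.wt (D.f^[l] x)) * ((l : ℝ) * η * Real.exp (Cw * D.TT x l)) :=
              mul_le_mul_of_nonneg_left he (Real.exp_pos _).le
          _ = (l : ℝ) * η * (Real.exp (Cw * D.TT x l) * Real.exp (Cw * D.wt (D.f^[l] x))) := by
              ring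
          _ = (l : ℝ) * η * Real.exp (Cw * D.TT x (l + 1)) := by
              rw [← Real.exp_add, TT_succ, mul_add]
      have h12 : (1 : ℝ) ≤ Real.exp (Cw * D.TT x (l + 1)) :=
        Real.one_le_exp (mul_nonneg (by linarith) (TT_nonneg D x (l + 1)))
      have h13 : η ≤ η * Real.exp (Cw * D.TT x (l + 1)) := by
        calc η = η * 1 := (mul_one η).symm
          _ ≤ _ := mul_le_mul_of_nonneg_left h12 hη0
      calc ‖(X.F u (X.g (n + l) u) - D.f (X.g (n + l) u)) +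
          (D.f (X.g (n + l) u) - D.f (D.f^[l] (X.g n u)))‖
          ≤ ‖X.F u (X.g (n + l) u) - D.f (X.g (n + l) u)‖ +
            ‖D.f (X.g (n + l) u) - D.f (D.f^[l] (X.g n u))‖ := norm_add_le _ _
        _ ≤ η * Real.exp (Cw * D.TT x (l + 1)) +
            (l : ℝ) * η * Real.exp (Cw * D.TT x (l + 1)) := by linarith
        _ = ((l + 1 : ℕ) : ℝ) * η * Real.exp (Cw * D.TT x (l + 1)) := by
            push_cast
            ring
  exact fun l hl => ⟨main l hl, fun h' => (key l h' (main l hl)).2⟩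

end Pool.Agent.H44.DP
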