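import Pool.Agent.H79.PQ.QDf

/-!
# Definitions for the end of the chapter PAR

`PK`: `u` is good or its direction is not in `Kd`; `LimS`, `CompS`: the two inputs of the module Good1 (limit along
good scales; discs outside the cones and the thickening).
-/

set_option autoImplicit false

open Filter Topology Metric Set

namespace Pool.Agent.H44.DP

/-- good, or in a bad direction -/
def Fam.PK {D : Ps} (X : Fam D) (u : ℂ) : Prop := u / (‖u‖ : ℂ) ∈ X.Kd → X.P u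

open MeasureTheory in
/-- the limit lemma at a good scale -/
def LimS (D : Ps) (X : Fam D) : Prop := ∀ s0 ε R B κ : ℝ, 0 < s0 → 0 < ε → 0 < κ →
  (∀ p ∈ D.Pa, κ * ((D.qp p : ℝ) + 1) < 1) → ∃ ρ' : ℝ, 0 < ρ' ∧
    ∀ (u0 : ℂ) (ρ a : ℝ) (n : ℕ), ‖u0‖ < ρ' → 0 < ρ → ρ ≤ ‖u0‖ / 2 →
      (∀ i < n, ∀ u ∈ ball u0 ρ, X.g i u ∈ thickening D.δ D.J) →
      DifferentiableOn ℂ (X.g n) (ball u0 ρ) →
      (∀ u ∈ ball u0 ρ, ‖X.g n u - X.g n u0‖ ≤ a) →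
      (∃ u ∈ ball u0 (ρ / 2), s0 * a ≤ ‖X.g n u - X.g n u0‖) →
      a ≤ R → ‖X.g n u0‖ ≤ R → D.dd (X.g n u0) ≤ B * a → (‖u0‖ ^ X.M) ^ κ ≤ a →
        volume (ball u0 (3 / 4 * ρ) ∩ {u | ¬ X.PK u}) ≤ ENNReal.ofReal (ε * ρ ^ 2)

/-- discs near a point outside `V1` or outside the thickening -/
def CompS (D : Ps) (X : Fam D) : Prop := ∀ κ δ1 R : ℝ, 0 < κ →
  (∀ p ∈ D.Pa, κ * ((D.qp p : ℝ) + 1) < 1) → 0 < δ1 → ∃ ρ' s1 : ℝ, 0 < ρ' ∧ 0 < s1 ∧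
    ∀ (u x : ℂ) (n : ℕ), ‖u‖ < ρ' → u ≠ 0 → u / (‖u‖ : ℂ) ∈ X.Kd →
      (∀ i < n, X.g i u ∈ thickening D.δ D.J) → ‖x‖ ≤ R →
      (x ∉ D.V1 ∨ x ∉ thickening δ1 D.J) → (‖u‖ ^ X.M) ^ κ ≤ D.dd x →
      ‖X.g n u - x‖ ≤ s1 * D.dd x → X.P u

end Pool.Agent.H44.DP
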