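import Pool.Agent.H9.DP.LipW
import Pool.Agent.H44.DP.EXG

/-!
# Module Gsc: a good scale (count in weighted time)

NOTATION. `G l u = f^[l] (h u)`, `S l u = ‖G l u - G l x‖`, `Δ_j = ball x (ρ / 2 ^ j)`, `d_l = dd (G l x)`. `a, b, δ1, δ2', N0` from `exit_exp`, `Cw` from `lipw`, `δ2 = min δ2' (δ/4)`; `r1 ≤ δ2`.
PROOF. (0) If `S l u ≤ r1 d_l` and `G l x ∈ thickening δ1 J`, `∉ Pa` (it is in `V1 ⊆ V`, `D.hVp`) then `S (l+1) u ≤ exp (Cw wt (G l x)) S l u` (`lipw`; `δ1 ≤ δ/4`, `r1 ≤ δ/4`).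
(1) There is `l` with `G l x ∉ V1`, or `G l x ∉ thickening δ1 J`, or `r1 d_l < S l u` for some `u ∈ Δ_N`: otherwise `exit_exp` (point `h x`, radius `σ`; each `w ∈ ball (h x) σ` is `h u`, `u ∈ Δ_N`) for all `k`: `TT (h x) k ≤ a log (1/σ) + b` and `d_i ≥ σ^N0 e^(-b)` for all `i ≤ k`, so `wt ≥ d ^ Qx` (`wt_dd`) gives `k (σ^N0 e^(-b))^Qx ≤ a log (1/σ) + b` for all `k`: impossible. Let `i1` be the least such `l`; `i1 ≥ 1` by the hypotheses at the time `0` (`Δ_N ⊆ ball x ρ`). For `l < i1`: `G l x ∈ V1 ∩ thickening δ1 J`, `S l u ≤ r1 d_l` on `Δ_N`.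
(2) `exit_exp` with `k = i1 - 1`: `TT (h x) (i1 - 1) ≤ a log (1/σ) + b`, so `TT (h x) l ≤ a log (1/σ) + b + 1` for all `l ≤ i1` (`TT_succ`, `TT_mono`, `wt_le_one`); `σ^N0 ≤ e^b d_l` for `l < i1`; for `l ≤ i1` there is `w ∈ ball (h x) σ`, `w = h u`, `u ∈ Δ_N`, with `σ^N0 ≤ e^b S l u`. Raw time: `i1 (σ^N0 e^(-b))^Qx ≤ TT (h x) i1 ≤ a log (1/σ) + b + 1 ≤ (a + b + 1)/σ` (`log y ≤ y - 1`, `σ ≤ 1`): `i1 σ^(N0 Qx + 1) ≤ (a + b + 1) e^(b Qx)`.
(3) If `S i1 u ≤ r1 d_(i1)` for all `u ∈ Δ_N`: `j = N`, `i = i1`, second alternative: by the choice of `i1` `G i1 x ∉ V1` or `∉ thickening δ1 J`; by (2) `σ^N0 ≤ e^b S i1 u ≤ e^b r1 d_(i1) ≤ e^b d_(i1)`.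
(4) Otherwise some `u ∈ Δ_N` has `r1 d_(i1) < S i1 u`. For `j ≤ N` let `n j` be the least `l` such that `r1 d_l < S l u` for some `u ∈ Δ_j` (`n j ≤ i1` as `Δ_N ⊆ Δ_j`; `n j ≥ 1`; `n j ≤ n (j+1)`; `n N = i1`, because for `l < i1` there is none on `Δ_N`). For `l < n j` all `u ∈ Δ_j` satisfy `S l u ≤ r1 d_l`. `A j := sSup (S (n j) '' Δ_j)`, the set is bounded: `S (n j) u ≤ exp Cw * S (n j - 1) u ≤ exp Cw` by (0) (`r1 d ≤ 1`, `wt ≤ 1`). So `A j ≤ exp Cw`, `r1 d_(n j) ≤ A j`, `S (n j) u ≤ A j` on `Δ_j`, and `σ^N0 ≤ e^b A j` by (2) (`Δ_N ⊆ Δ_j`).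
(5) CLAIM: there is `j < N` and `u ∈ Δ_(j+1)` with `A j ≤ 2 exp Q * S (n j) u`. Then `j, i = n j, a = A j` is the first alternative. Otherwise for all `j < N`, `u ∈ Δ_(j+1)`: `S (n j) u ≤ A j exp (-Q) / 2 ≤ A j exp (-Q)`; for `n j ≤ l ≤ n (j+1)` by induction (0) (on `Δ_(j+1)`, times `< n (j+1)`): `S l u ≤ exp (Cw (TT l - TT (n j))) S (n j) u` (`TT = TT (h x)`, `TT_succ`). At `l = n (j+1)`, supremum over `u`: `A (j+1) ≤ exp (Cw (TT (n (j+1)) - TT (n j)) - Q) A j`. Induction over `j`: `A N ≤ exp (Cw (TT (n N) - TT (n 0)) - Q N) A 0 ≤ exp (Cw (a log (1/σ) + b + 1) + Cw - Q N)`.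
With `A N ≥ σ^N0 e^(-b) = exp (- N0 log (1/σ) - b)`: `Q N ≤ (N0 + Cw a) log (1/σ) + b + Cw (b + 2)`, which contradicts `E (log (1/σ) + 1) ≤ Q N` for `E = N0 + Cw a + b + Cw (b + 2) + 1`.
CONSTANTS. `n1 = N0 * (Qx + 1) + 1`, `U = max` (or the sum) of `e^b`, `(a + b + 1) e^(b Qx)`, `a + b + 1`, `exp Cw`, `1` (`σ^n1 ≤ σ^N0`, `σ^n1 ≤ σ^(N0 Qx + 1)` since `σ ≤ 1`).
-/

set_option autoImplicit false

open Filter Topology Metric Set

namespace Pool.Agent.H44.DP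

/-- the Lipschitz estimate for one step -/
private theorem gsc_lip (D : Ps) {Cw δ1 r1 : ℝ}
    (hC : ∀ x ∈ thickening (D.δ / 2) D.J, x ∉ D.Pa → ∀ z w : ℂ, ‖z - x‖ ≤ D.δ / 4 * D.dd x →
      ‖w - x‖ ≤ D.δ / 4 * D.dd x → ‖D.f z - D.f w‖ ≤ Real.exp (Cw * D.wt x) * ‖z - w‖)
    (hδ1 : δ1 ≤ D.δ / 4) (hr1 : r1 ≤ D.δ / 4) {y z : ℂ} {l : ℕ} (h1 : D.f^[l] y ∈ D.V1)
    (h2 : D.f^[l] y ∈ thickening δ1 D.J) (h3 : ‖D.f^[l] z - D.f^[l] y‖ ≤ r1 * D.dd (D.f^[l] y)) :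
    ‖D.f^[l + 1] z - D.f^[l + 1] y‖ ≤
      Real.exp (Cw * D.wt (D.f^[l] y)) * ‖D.f^[l] z - D.f^[l] y‖ := by
  have hδ := D.hδ
  have hd := dd_nonneg D (D.f^[l] y)
  rw [Function.iterate_succ_apply', Function.iterate_succ_apply']
  refine hC _ (thickening_mono (by linarith) _ h2) (fun h => D.hVp _ h (D.hV1 h1)) _ _
    (h3.trans (mul_le_mul_of_nonneg_right hr1 hd)) ?_
  rw [sub_self, norm_zero]
  positivity

/-- the raw time -/
private theorem gsc_raw {a b σ w0 T : ℝ} {N0 Qx i : ℕ} (ha : 0 < a) (hb : 0 < b) (hσ : 0 < σ)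
    (hσ1 : σ ≤ 1 / 2) (hw : w0 = (σ ^ N0 * Real.exp (-b)) ^ Qx) (h1 : (i : ℝ) * w0 ≤ T)
    (h2 : T ≤ a * Real.log (1 / σ) + b + 1) :
    (i : ℝ) * σ ^ (N0 * (Qx + 1) + 1) ≤ (a + b + 1) * Real.exp (b * Qx) := by
  have hL : Real.log (1 / σ) ≤ 1 / σ := by
    have := Real.log_le_sub_one_of_pos (x := 1 / σ) (by positivity)
    linarith
  have h1σ : 1 ≤ 1 / σ := by
    rw [le_div_iff₀ hσ]
    linarith
  have h3 : (i : ℝ) * w0 ≤ (a + b + 1) / σ := by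
    refine h1.trans (h2.trans ?_)
    have e1 : a * Real.log (1 / σ) ≤ a * (1 / σ) := mul_le_mul_of_nonneg_left hL ha.le
    have e2 : b + 1 ≤ (b + 1) * (1 / σ) := le_mul_of_one_le_right (by linarith) h1σ
    have e3 : (a + b + 1) / σ = a * (1 / σ) + (b + 1) * (1 / σ) := by ring
    linarith
  have h4 : w0 = σ ^ (N0 * Qx) * Real.exp (-(b * Qx)) := by
    rw [hw, mul_pow, ← pow_mul, ← Real.exp_nat_mul]
    congr 2
    ring
  have h5 : (i : ℝ) * σ ^ (N0 * Qx + 1) ≤ (a + b + 1) * Real.exp (b * Qx) := by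
    have e1 : (i : ℝ) * σ ^ (N0 * Qx + 1) = (i : ℝ) * w0 * σ * Real.exp (b * Qx) := by
      rw [h4, Real.exp_neg]
      field_simp
      ring
    rw [e1]
    refine mul_le_mul_of_nonneg_right ?_ (Real.exp_pos _).le
    calc (i : ℝ) * w0 * σ ≤ (a + b + 1) / σ * σ := mul_le_mul_of_nonneg_right h3 hσ.le
      _ = a + b + 1 := by field_simp
  refine le_trans (mul_le_mul_of_nonneg_left ?_ (Nat.cast_nonneg i)) h5
  refine pow_le_pow_of_le_one hσ.le (by linarith) ?_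
  rw [mul_add]
  omega

theorem gsc (D : Ps) : ∃ (δ1 δ2 U E : ℝ) (n1 : ℕ), 0 < δ1 ∧ δ1 ≤ D.δ / 4 ∧ 0 < δ2 ∧ δ2 ≤ D.δ / 4 ∧
    1 ≤ U ∧ 1 ≤ E ∧ ∀ (r1 Q : ℝ) (N : ℕ) (h : ℂ → ℂ) (x : ℂ) (ρ σ : ℝ), 0 < r1 → r1 ≤ δ2 →
      0 ≤ Q → 0 < ρ → 0 < σ → σ ≤ 1 / 2 → E * (Real.log (1 / σ) + 1) ≤ Q * N →
      h x ∈ D.V1 → h x ∈ thickening δ1 D.J →
      (∀ u ∈ ball x ρ, ‖h u - h x‖ ≤ r1 * D.dd (h x)) →
      ball (h x) σ ⊆ h '' ball x (ρ / 2 ^ N) →
      ∃ j i : ℕ, j ≤ N ∧ (i : ℝ) * σ ^ n1 ≤ U ∧ D.TT (h x) i ≤ U * (Real.log (1 / σ) + 1) ∧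
        (∀ l < i, D.f^[l] (h x) ∈ D.V1 ∧ D.f^[l] (h x) ∈ thickening δ1 D.J ∧
          σ ^ n1 ≤ U * D.dd (D.f^[l] (h x)) ∧ ∀ u ∈ ball x (ρ / 2 ^ j),
            ‖D.f^[l] (h u) - D.f^[l] (h x)‖ ≤ r1 * D.dd (D.f^[l] (h x))) ∧
        ((∃ a : ℝ, 0 < a ∧ a ≤ U ∧ σ ^ n1 ≤ U * a ∧ r1 * D.dd (D.f^[i] (h x)) ≤ a ∧
            (∀ u ∈ ball x (ρ / 2 ^ j), ‖D.f^[i] (h u) - D.f^[i] (h x)‖ ≤ a) ∧
            ∃ u ∈ ball x (ρ / 2 ^ (j + 1)),
              a ≤ 2 * Real.exp Q * ‖D.f^[i] (h u) - D.f^[i] (h x)‖) ∨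
          ((D.f^[i] (h x) ∉ D.V1 ∨ D.f^[i] (h x) ∉ thickening δ1 D.J) ∧
            σ ^ n1 ≤ U * D.dd (D.f^[i] (h x)) ∧ ∀ u ∈ ball x (ρ / 2 ^ j),
              ‖D.f^[i] (h u) - D.f^[i] (h x)‖ ≤ r1 * D.dd (D.f^[i] (h x)))) := by
  classical
  obtain ⟨Cw, hCw, hlip⟩ := lipw D
  obtain ⟨a, b, δ1, δ2, N0, ha, hb, hδ1, hδ14, hδ2, hδ24, -, -, hexit⟩ := exit_exp D
  have hδ := D.hδ
  have hδle := D.hδ1
  have hQx0 : (0 : ℝ) ≤ b * D.Qx := by positivity
  have heQ : 1 ≤ Real.exp (b * D.Qx) := Real.one_le_exp hQx0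
  have heb : 1 ≤ Real.exp b := Real.one_le_exp hb.le
  have heC : 0 < Real.exp Cw := Real.exp_pos _
  obtain ⟨U, hU⟩ : ∃ U : ℝ, U = Real.exp b + (a + b + 1) * Real.exp (b * D.Qx) + Real.exp Cw + 1 :=
    ⟨_, rfl⟩
  have habe : 0 < (a + b + 1) * Real.exp (b * D.Qx) := by positivity
  have hU1 : 1 ≤ U := by linarith
  have hUb : Real.exp b ≤ U := by linarith
  have hUC : Real.exp Cw ≤ U := by linarith [Real.exp_pos b]
  have hUt : (a + b + 1) * Real.exp (b * D.Qx) ≤ U := by linarith [Real.exp_pos b]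
  have hUab : a + b + 1 ≤ U := by
    refine le_trans ?_ hUt
    exact le_mul_of_one_le_right (by linarith) heQ
  obtain ⟨E, hE⟩ : ∃ E : ℝ, E = N0 + Cw * a + b + Cw * (b + 2) + 1 := ⟨_, rfl⟩
  have hE1 : 1 ≤ E := by
    rw [hE]
    have : (0 : ℝ) ≤ N0 + Cw * a + b + Cw * (b + 2) := by positivity
    linarith
  refine ⟨δ1, δ2, U, E, N0 * (D.Qx + 1) + 1, hδ1, hδ14, hδ2, hδ24, hU1, hE1, ?_⟩
  intro r1 Q N h x ρ σ hr1 hr1δ hQ hρ hσ hσ1 hEQ hxV hxT hhu hball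
  -- notation
  obtain ⟨y, hy⟩ : ∃ y, y = h x := ⟨_, rfl⟩
  obtain ⟨S, hS⟩ : ∃ S : ℕ → ℂ → ℝ, S = fun l u => ‖D.f^[l] (h u) - D.f^[l] y‖ := ⟨_, rfl⟩
  have hSe : ∀ l u, S l u = ‖D.f^[l] (h u) - D.f^[l] y‖ := fun l u => by rw [hS]
  have hS0 : ∀ l u, 0 ≤ S l u := fun l u => by rw [hSe]; exact norm_nonneg _
  obtain ⟨d, hd⟩ : ∃ d : ℕ → ℝ, d = fun l => D.dd (D.f^[l] y) := ⟨_, rfl⟩
  have hde : ∀ l, d l = D.dd (D.f^[l] y) := fun l => by rw [hd]
  have hd0 : ∀ l, 0 ≤ d l := fun l => by rw [hde]; exact dd_nonneg D _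
  have hd1 : ∀ l, d l ≤ 1 := fun l => by rw [hde]; exact dd_le_one D _
  obtain ⟨Δ, hΔ⟩ : ∃ Δ : ℕ → Set ℂ, Δ = fun j => ball x (ρ / 2 ^ j) := ⟨_, rfl⟩
  have hΔe : ∀ j, Δ j = ball x (ρ / 2 ^ j) := fun j => by rw [hΔ]
  have hΔx : ∀ j, x ∈ Δ j := fun j => by
    rw [hΔe]
    exact mem_ball_self (by positivity)
  have hΔm : ∀ i j, i ≤ j → Δ j ⊆ Δ i := by
    intro i j hij
    rw [hΔe, hΔe]
    refine ball_subset_ball (div_le_div_of_nonneg_left hρ.le (by positivity) ?_)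
    exact pow_le_pow_right₀ (by norm_num) hij
  have hΔ0 : ∀ j, Δ j ⊆ ball x ρ := by
    intro j
    refine (hΔm 0 j (Nat.zero_le j)).trans ?_
    rw [hΔe, pow_zero, div_one]
  rw [← hy] at hxV hxT hhu hball ⊢
  have hbS : ∀ w ∈ ball y σ, ∃ u ∈ Δ N, h u = w := by
    intro w hw
    obtain ⟨u, hu, hu'⟩ := hball hw
    exact ⟨u, by rw [hΔe]; exact hu, hu'⟩
  have hr11 : r1 ≤ 1 := by linarith
  have hr1d : ∀ l, r1 * d l ≤ 1 := fun l => mul_le_one₀ hr11 (hd0 l) (hd1 l)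
  have hL0 : 0 ≤ Real.log (1 / σ) := Real.log_nonneg (by
    rw [le_div_iff₀ hσ]
    linarith)
  -- good times
  obtain ⟨good, hgood⟩ : ∃ good : ℕ → Prop, good = fun l => D.f^[l] y ∈ D.V1 ∧
    D.f^[l] y ∈ thickening δ1 D.J ∧ ∀ u ∈ Δ N, S l u ≤ r1 * d l := ⟨_, rfl⟩
  have hgi : ∀ l, good l ↔ D.f^[l] y ∈ D.V1 ∧
    D.f^[l] y ∈ thickening δ1 D.J ∧ ∀ u ∈ Δ N, S l u ≤ r1 * d l := fun l => by rw [hgood]
  have hex : ∀ k, (∀ i ≤ k, good i) → D.TT y k ≤ a * Real.log (1 / σ) + b ∧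
      (∀ i ≤ k, σ ^ N0 ≤ Real.exp b * d i) ∧
      ∀ i ≤ k + 1, ∃ u ∈ Δ N, σ ^ N0 ≤ Real.exp b * S i u := by
    intro k hk
    obtain ⟨h1, h2, h3⟩ := hexit y σ k hσ hσ1 (fun i hi => by
      obtain ⟨g1, g2, g3⟩ := (hgi i).1 (hk i hi)
      refine ⟨g1, g2, fun w hw => ?_⟩
      obtain ⟨u, hu, rfl⟩ := hbS w hw
      have g4 := g3 u hu
      rw [hSe, hde] at g4
      exact g4.trans (mul_le_mul_of_nonneg_right hr1δ (dd_nonneg D _)))
    refine ⟨h1, fun i hi => by rw [hde]; exact h2 i hi, fun i hi => ?_⟩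
    obtain ⟨w, hw, h4⟩ := h3 i hi
    obtain ⟨u, hu, rfl⟩ := hbS w hw
    exact ⟨u, hu, by rw [hSe]; exact h4⟩
  obtain ⟨w0, hw0⟩ : ∃ w0 : ℝ, w0 = (σ ^ N0 * Real.exp (-b)) ^ D.Qx := ⟨_, rfl⟩
  have hw0p : 0 < w0 := by
    rw [hw0]
    positivity
  have hwt : ∀ i, σ ^ N0 ≤ Real.exp b * d i → w0 ≤ D.wt (D.f^[i] y) := by
    intro i hi
    refine le_trans ?_ (wt_dd D (D.f^[i] y))
    rw [hw0]
    refine pow_le_pow_left₀ (by positivity) ?_ _
    rw [← hde, Real.exp_neg, ← div_eq_mul_inv, div_le_iff₀ (Real.exp_pos b)]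
    linarith
  have hTTge : ∀ k : ℕ, (∀ i < k, σ ^ N0 ≤ Real.exp b * d i) → (k : ℝ) * w0 ≤ D.TT y k := by
    intro k hk
    unfold Ps.TT
    calc (k : ℝ) * w0 = ∑ i ∈ Finset.range k, w0 := by simp
      _ ≤ _ := Finset.sum_le_sum fun i hi => hwt i (hk i (Finset.mem_range.1 hi))
  have hbad : ∃ l, ¬ good l := by
    by_contra hcon
    push Not at hcon
    obtain ⟨k, hk⟩ := exists_nat_gt ((a * Real.log (1 / σ) + b) / w0)
    rw [div_lt_iff₀ hw0p] at hk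
    obtain ⟨h1, h2, -⟩ := hex k fun i _ => hcon i
    have h3 := hTTge k fun i hi => h2 i hi.le
    linarith
  obtain ⟨i1, hi1⟩ : ∃ i1, i1 = Nat.find hbad := ⟨_, rfl⟩
  have hi1b : ¬ good i1 := by
    rw [hi1]
    exact Nat.find_spec hbad
  have hi1g : ∀ l < i1, good l := by
    intro l hl
    rw [hi1] at hl
    exact not_not.1 (Nat.find_min hbad hl)
  have hS00 : ∀ j, ∀ u ∈ Δ j, S 0 u ≤ r1 * d 0 := by
    intro j u hu
    rw [hSe, hde]
    exact hhu u (hΔ0 j hu)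
  have hi11 : 1 ≤ i1 := by
    by_contra hcon
    have h0 : i1 = 0 := by omega
    rw [h0] at hi1b
    exact hi1b ((hgi 0).2 ⟨hxV, hxT, hS00 N⟩)
  obtain ⟨e1, e2, e3⟩ := hex (i1 - 1) fun i hi => hi1g i (by omega)
  have hTT : ∀ l ≤ i1, D.TT y l ≤ a * Real.log (1 / σ) + b + 1 := by
    intro l hl
    refine (TT_mono D y hl).trans ?_
    have h1 := TT_succ D y (i1 - 1)
    have h2 : i1 - 1 + 1 = i1 := by omega
    rw [h2] at h1
    rw [h1]
    have := wt_le_one D (D.f^[i1 - 1] y)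
    linarith
  have hdl : ∀ l < i1, σ ^ N0 ≤ Real.exp b * d l := fun l hl => e2 l (by omega)
  have hSl : ∀ l ≤ i1, ∃ u ∈ Δ N, σ ^ N0 ≤ Real.exp b * S l u := fun l hl => e3 l (by omega)
  have hraw : (i1 : ℝ) * σ ^ (N0 * (D.Qx + 1) + 1) ≤ (a + b + 1) * Real.exp (b * D.Qx) :=
    gsc_raw ha hb hσ hσ1 hw0 (hTTge i1 hdl) (hTT i1 le_rfl)
  have hraw2 : ∀ i ≤ i1, (i : ℝ) * σ ^ (N0 * (D.Qx + 1) + 1) ≤ U := by
    intro i hi
    refine le_trans (mul_le_mul_of_nonneg_right ?_ (by positivity)) (hraw.trans hUt)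
    exact_mod_cast hi
  have hTT2 : ∀ l ≤ i1, D.TT y l ≤ U * (Real.log (1 / σ) + 1) := by
    intro l hl
    refine (hTT l hl).trans ?_
    have h1 : (a + b + 1) * (Real.log (1 / σ) + 1) ≤ U * (Real.log (1 / σ) + 1) :=
      mul_le_mul_of_nonneg_right hUab (by linarith)
    nlinarith
  have hσn : σ ^ (N0 * (D.Qx + 1) + 1) ≤ σ ^ N0 := by
    refine pow_le_pow_of_le_one hσ.le (by linarith) ?_
    nlinarith
  have hσU : ∀ t : ℝ, 0 ≤ t → σ ^ N0 ≤ Real.exp b * t → σ ^ (N0 * (D.Qx + 1) + 1) ≤ U * t := by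
    intro t ht h1
    exact hσn.trans (h1.trans (mul_le_mul_of_nonneg_right hUb ht))
  have hVT : ∀ l < i1, D.f^[l] y ∈ D.V1 ∧ D.f^[l] y ∈ thickening δ1 D.J := fun l hl =>
    ⟨((hgi l).1 (hi1g l hl)).1, ((hgi l).1 (hi1g l hl)).2.1⟩
  have hstep : ∀ l < i1, ∀ u, S l u ≤ r1 * d l →
      S (l + 1) u ≤ Real.exp (Cw * D.wt (D.f^[l] y)) * S l u := by
    intro l hl u hu
    rw [hSe, hde] at hu
    rw [hSe, hSe]
    exact gsc_lip D hlip hδ14 (hr1δ.trans hδ24) (hVT l hl).1 (hVT l hl).2 hu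
  by_cases hcase : ∀ u ∈ Δ N, S i1 u ≤ r1 * d i1
  · -- the second alternative
    refine ⟨N, i1, le_rfl, hraw2 i1 le_rfl, hTT2 i1 le_rfl, fun l hl => ?_, Or.inr ⟨?_, ?_, ?_⟩⟩
    · obtain ⟨g1, g2, g3⟩ := (hgi l).1 (hi1g l hl)
      refine ⟨g1, g2, ?_, fun u hu => ?_⟩
      · rw [← hde]
        exact hσU _ (hd0 l) (hdl l hl)
      · rw [← hSe, ← hde]
        exact g3 u (by rw [hΔe]; exact hu)
    · by_contra hcon
      push Not at hcon
      exact hi1b ((hgi i1).2 ⟨hcon.1, hcon.2, hcase⟩)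
    · obtain ⟨u, hu, h1⟩ := hSl i1 le_rfl
      rw [← hde]
      refine hσU _ (hd0 i1) (h1.trans (mul_le_mul_of_nonneg_left ?_ (Real.exp_pos b).le))
      refine (hcase u hu).trans ?_
      have := hd0 i1
      nlinarith
    · intro u hu
      rw [← hSe, ← hde]
      exact hcase u (by rw [hΔe]; exact hu)
  · push Not at hcase
    obtain ⟨uN, huN, huN'⟩ := hcase
    obtain ⟨n, hn⟩ : ∃ n : ℕ → ℕ, n = fun j => sInf {l | ∃ u ∈ Δ j, r1 * d l < S l u} := ⟨_, rfl⟩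
    have hne : ∀ j ≤ N, {l | ∃ u ∈ Δ j, r1 * d l < S l u}.Nonempty := fun j hj =>
      ⟨i1, uN, hΔm j N hj huN, huN'⟩
    have hnmem : ∀ j ≤ N, ∃ u ∈ Δ j, r1 * d (n j) < S (n j) u := by
      intro j hj
      have h1 := Nat.sInf_mem (hne j hj)
      rw [hn]
      exact h1
    have hnlt : ∀ j, ∀ l < n j, ∀ u ∈ Δ j, S l u ≤ r1 * d l := by
      intro j l hl u hu
      by_contra hcon
      push Not at hcon
      rw [hn] at hl
      exact Nat.notMem_of_lt_sInf hl ⟨u, hu, hcon⟩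
    have hnle : ∀ j ≤ N, n j ≤ i1 := by
      intro j hj
      rw [hn]
      exact Nat.sInf_le ⟨uN, hΔm j N hj huN, huN'⟩
    have hn1 : ∀ j ≤ N, 1 ≤ n j := by
      intro j hj
      by_contra hcon
      have h0 : n j = 0 := by omega
      obtain ⟨u, hu, hu'⟩ := hnmem j hj
      rw [h0] at hu'
      exact absurd hu' (not_lt.2 (hS00 j u hu))
    have hnm : ∀ j, j + 1 ≤ N → n j ≤ n (j + 1) := by
      intro j hj
      obtain ⟨u, hu, hu'⟩ := hnmem (j + 1) hj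
      by_contra hcon
      push Not at hcon
      exact absurd hu' (not_lt.2 (hnlt j _ hcon u (hΔm j (j + 1) (Nat.le_succ j) hu)))
    have hnN : n N = i1 := by
      refine le_antisymm (hnle N le_rfl) ?_
      by_contra hcon
      push Not at hcon
      obtain ⟨u, hu, hu'⟩ := hnmem N le_rfl
      exact absurd hu' (not_lt.2 (((hgi _).1 (hi1g _ hcon)).2.2 u hu))
    have hSb : ∀ j ≤ N, ∀ u ∈ Δ j, S (n j) u ≤ Real.exp Cw := by
      intro j hj u hu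
      have h1 := hn1 j hj
      have h2 := hnle j hj
      have h3 := hnlt j (n j - 1) (by omega) u hu
      have h4 := hstep (n j - 1) (by omega) u h3
      have h5 : n j - 1 + 1 = n j := by omega
      rw [h5] at h4
      refine h4.trans ?_
      have h6 : Real.exp (Cw * D.wt (D.f^[n j - 1] y)) ≤ Real.exp Cw := by
        refine Real.exp_le_exp.2 ?_
        exact mul_le_of_le_one_right (by linarith) (wt_le_one D _)
      calc _ ≤ Real.exp Cw * 1 := mul_le_mul h6 (h3.trans (hr1d _)) (hS0 _ _) (Real.exp_pos _).le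
        _ = Real.exp Cw := mul_one _
    obtain ⟨A, hA⟩ : ∃ A : ℕ → ℝ, A = fun j => sSup (S (n j) '' Δ j) := ⟨_, rfl⟩
    have hAne : ∀ j, (S (n j) '' Δ j).Nonempty := fun j => ⟨_, x, hΔx j, rfl⟩
    have hAle : ∀ j, ∀ M : ℝ, (∀ u ∈ Δ j, S (n j) u ≤ M) → A j ≤ M := by
      intro j M hM
      rw [hA]
      refine csSup_le (hAne j) ?_
      rintro _ ⟨u, hu, rfl⟩
      exact hM u hu
    have hleA : ∀ j ≤ N, ∀ u ∈ Δ j, S (n j) u ≤ A j := by
      intro j hj u hu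
      rw [hA]
      refine le_csSup ⟨Real.exp Cw, ?_⟩ ⟨u, hu, rfl⟩
      rintro _ ⟨v, hv, rfl⟩
      exact hSb j hj v hv
    have hAσ : ∀ j ≤ N, σ ^ N0 ≤ Real.exp b * A j := by
      intro j hj
      obtain ⟨u, hu, h1⟩ := hSl (n j) (hnle j hj)
      exact h1.trans (mul_le_mul_of_nonneg_left (hleA j hj u (hΔm j N hj hu)) (Real.exp_pos b).le)
    have hApos : ∀ j ≤ N, 0 < A j := by
      intro j hj
      have h1 := hAσ j hj
      have h2 : 0 < σ ^ N0 := by positivity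
      have h3 := Real.exp_pos b
      by_contra hcon
      push Not at hcon
      nlinarith
    have hclaim : ∃ j < N, ∃ u ∈ Δ (j + 1), A j ≤ 2 * Real.exp Q * S (n j) u := by
      by_contra hcon
      push Not at hcon
      have hs1 : ∀ j, j < N → ∀ u ∈ Δ (j + 1), ∀ l, n j ≤ l → l ≤ n (j + 1) →
          S l u ≤ Real.exp (Cw * (D.TT y l - D.TT y (n j))) * S (n j) u := by
        intro j hj u hu l hl
        induction l, hl using Nat.le_induction with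
        | base =>
          intro _
          rw [sub_self, mul_zero, Real.exp_zero, one_mul]
        | succ l hl ih =>
          intro hl2
          have h1 := ih (by omega)
          have h2 := hnlt (j + 1) l (by omega) u hu
          have h3 := hnle (j + 1) (by omega)
          have h4 := hstep l (by omega) u h2
          refine h4.trans ?_
          calc Real.exp (Cw * D.wt (D.f^[l] y)) * S l u
              ≤ Real.exp (Cw * D.wt (D.f^[l] y)) *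
                (Real.exp (Cw * (D.TT y l - D.TT y (n j))) * S (n j) u) :=
                mul_le_mul_of_nonneg_left h1 (Real.exp_pos _).le
            _ = Real.exp (Cw * (D.TT y (l + 1) - D.TT y (n j))) * S (n j) u := by
                rw [← mul_assoc, ← Real.exp_add, TT_succ]
                congr 2
                ring
      have hs2 : ∀ j, j < N → A (j + 1) ≤
          Real.exp (Cw * (D.TT y (n (j + 1)) - D.TT y (n j)) - Q) * A j := by
        intro j hj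
        refine hAle (j + 1) _ fun u hu => ?_
        have h1 := hs1 j hj u hu (n (j + 1)) (hnm j hj) le_rfl
        have h2 := hcon j hj u hu
        have h3 : S (n j) u ≤ Real.exp (-Q) * A j := by
          have h4 : Real.exp Q * S (n j) u ≤ A j := by
            have h5 : 0 ≤ Real.exp Q * S (n j) u := mul_nonneg (Real.exp_pos _).le (hS0 _ _)
            nlinarith
          calc S (n j) u = Real.exp (-Q) * (Real.exp Q * S (n j) u) := by
                rw [← mul_assoc, ← Real.exp_add, neg_add_cancel, Real.exp_zero, one_mul]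
            _ ≤ _ := mul_le_mul_of_nonneg_left h4 (Real.exp_pos _).le
        refine h1.trans ?_
        calc _ ≤ Real.exp (Cw * (D.TT y (n (j + 1)) - D.TT y (n j))) * (Real.exp (-Q) * A j) :=
              mul_le_mul_of_nonneg_left h3 (Real.exp_pos _).le
          _ = _ := by
              rw [← mul_assoc, ← Real.exp_add, sub_eq_add_neg (Cw * _) Q]
      have hs3 : ∀ j, j ≤ N → A j ≤
          Real.exp (Cw * (D.TT y (n j) - D.TT y (n 0)) - Q * j) * A 0 := by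
        intro j
        induction j with
        | zero =>
          intro _
          simp
        | succ j ih =>
          intro hj
          have h1 := ih (by omega)
          refine (hs2 j hj).trans ?_
          calc _ ≤ Real.exp (Cw * (D.TT y (n (j + 1)) - D.TT y (n j)) - Q) *
                (Real.exp (Cw * (D.TT y (n j) - D.TT y (n 0)) - Q * j) * A 0) :=
                mul_le_mul_of_nonneg_left h1 (Real.exp_pos _).le
            _ = _ := by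
                rw [← mul_assoc, ← Real.exp_add]
                congr 2
                push_cast
                ring
      have h1 := hs3 N le_rfl
      have h2 : A 0 ≤ Real.exp Cw := hAle 0 _ (hSb 0 (Nat.zero_le N))
      have h3 : A N ≤ Real.exp (Cw * (a * Real.log (1 / σ) + b + 1) + Cw - Q * N) := by
        refine h1.trans ?_
        calc _ ≤ Real.exp (Cw * (D.TT y (n N) - D.TT y (n 0)) - Q * N) * Real.exp Cw :=
              mul_le_mul_of_nonneg_left h2 (Real.exp_pos _).le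
          _ = Real.exp (Cw * (D.TT y (n N) - D.TT y (n 0)) - Q * N + Cw) := by rw [Real.exp_add]
          _ ≤ _ := by
              refine Real.exp_le_exp.2 ?_
              have h4 := hTT (n N) (hnle N le_rfl)
              have h5 := TT_nonneg D y (n 0)
              have h6 : Cw * (D.TT y (n N) - D.TT y (n 0)) ≤
                  Cw * (a * Real.log (1 / σ) + b + 1) :=
                mul_le_mul_of_nonneg_left (by linarith) (by linarith)
              linarith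
      have h4 : Real.exp (-(N0 * Real.log (1 / σ)) - b) ≤ A N := by
        have h5 := hAσ N le_rfl
        have h6 : Real.exp (-(N0 * Real.log (1 / σ)) - b) = σ ^ N0 * Real.exp (-b) := by
          rw [sub_eq_add_neg, Real.exp_add]
          congr 1
          rw [one_div, Real.log_inv, mul_neg, neg_neg, mul_comm, Real.exp_mul, Real.exp_log hσ,
            Real.rpow_natCast]
        rw [h6, Real.exp_neg, ← div_eq_mul_inv, div_le_iff₀ (Real.exp_pos b)]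
        linarith
      have h5 := Real.exp_le_exp.1 (h4.trans h3)
      have h6 : E * (Real.log (1 / σ) + 1) = (N0 + Cw * a) * Real.log (1 / σ) +
          (b + Cw * (b + 2) + 1) * Real.log (1 / σ) + E := by
        rw [hE]
        ring
      have h7 : 0 ≤ (b + Cw * (b + 2) + 1) * Real.log (1 / σ) := by positivity
      have h8 : (0 : ℝ) ≤ N0 + Cw * a := by positivity
      have h9 : E = N0 + Cw * a + b + Cw * (b + 2) + 1 := hE
      nlinarith
    obtain ⟨j, hjN, u, hu, hju⟩ := hclaim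
    have hj' : j ≤ N := hjN.le
    refine ⟨j, n j, hj', hraw2 _ (hnle j hj'), hTT2 _ (hnle j hj'), fun l hl => ?_, Or.inl
      ⟨A j, hApos j hj', (hAle j _ (hSb j hj')).trans hUC, hσU _ (hApos j hj').le (hAσ j hj'), ?_,
        ?_, u, ?_, ?_⟩⟩
    · have hli : l < i1 := lt_of_lt_of_le hl (hnle j hj')
      refine ⟨(hVT l hli).1, (hVT l hli).2, ?_, fun v hv => ?_⟩
      · rw [← hde]
        exact hσU _ (hd0 l) (hdl l hli)
      · rw [← hSe, ← hde]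
        exact hnlt j l hl v (by rw [hΔe]; exact hv)
    · obtain ⟨v, hv, hv'⟩ := hnmem j hj'
      rw [← hde]
      exact hv'.le.trans (hleA j hj' v hv)
    · intro v hv
      rw [← hSe]
      exact hleA j hj' v (by rw [hΔe]; exact hv)
    · rw [← hΔe]
      exact hu
    · rw [← hSe]
      exact hju

end Pool.Agent.H44.DP
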