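import Pool.Agent.H9.DP.Strt
import Pool.Agent.H9.DP.Gsc
import Pool.Agent.H9.DP.FamP
import Pool.Agent.H9.DP.GdDf

/-!
# Module Good1: families: a good disc around a typical parameter (with parabolic points)
-/

set_option autoImplicit false

open Filter Topology Metric Set

namespace Pool.Agent.H44.DP

/-- the values are bounded -/
theorem f_bd (D : Ps) : ∃ R : ℝ, 1 ≤ R ∧ (∀ z ∈ thickening D.δ D.J, ‖z‖ ≤ R) ∧
    ∀ z ∈ thickening D.δ D.J, ‖D.f z‖ ≤ R := by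
  have hδ := D.hδ
  have hL := D.hL
  obtain ⟨R0, hR0⟩ := (D.hJ.isBounded.thickening (δ := D.δ)).exists_norm_le
  have h1 : 0 < D.L * D.δ := by positivity
  have h2 := abs_nonneg R0
  refine ⟨|R0| + D.L * D.δ + 1, by linarith, ?_, ?_⟩
  · intro z hz
    have h3 := hR0 z hz
    have h4 := le_abs_self R0
    linarith
  · intro z hz
    rw [mem_thickening_iff] at hz
    obtain ⟨y, hy, hzy⟩ := hz
    have hsub : ball y D.δ ⊆ thickening D.δ D.J := by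
      intro w hw
      rw [mem_thickening_iff]
      exact ⟨y, hy, hw⟩
    have h3 : ‖D.f z - D.f y‖ ≤ D.L * ‖z - y‖ := by
      refine (convex_ball y D.δ).norm_image_sub_le_of_norm_deriv_le (𝕜 := ℂ) (fun w hw => ?_)
        (fun w hw => D.hLf w (hsub hw)) (mem_ball_self hδ) hzy
      exact D.hf.differentiableAt (D.hG.mem_nhds (D.hU (hsub hw)))
    rw [dist_eq_norm] at hzy
    have h4 := hR0 (D.f y) (J_th D (D.hJf y hy) hδ)
    have h5 : ‖D.f z‖ ≤ ‖D.f z - D.f y‖ + ‖D.f y‖ := by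
      have := norm_add_le (D.f z - D.f y) (D.f y)
      rwa [sub_add_cancel] at this
    have h6 : D.L * ‖z - y‖ ≤ D.L * D.δ := mul_le_mul_of_nonneg_left hzy.le (by linarith)
    have h7 := le_abs_self R0
    linarith

/-- exponentials in base two -/
private theorem g1_exp {a b : ℝ} : Real.exp (a * Real.log 2 * b) = (2 : ℝ) ^ (a * b) := by
  rw [Real.rpow_def_of_pos (by norm_num)]
  congr 1
  ring

open MeasureTheory in
theorem good1 (D : Ps) (X : Fam D) (hlim : LimS D X) (hcomp : CompS D X) :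
    ∃ η : ℝ, 0 < η ∧ ∀ c6 : ℝ, 0 < c6 →
    ∃ κ ε : ℝ, 0 < κ ∧ κ < 1 ∧ 0 < ε ∧ ∀ C ϑ : ℝ, 0 < ϑ → ∃ J2 : ℕ, ∀ J1 ≥ J2,
      ∀ (u0 : ℂ) (m : ℕ), X.ww u0 ∈ An D X.c J1 → Trk D η (X.ww u0) J1 C κ ε c6 m →
        ∃ ρ : ℝ, 0 < ρ ∧ ρ ≤ ‖u0‖ / 2 ∧
          volume (ball u0 (3 / 4 * ρ) ∩ {u | ¬ X.PK u}) ≤ ENNReal.ofReal (ϑ * ρ ^ 2) := by
  obtain ⟨δ1, δ2, U, E, n1, hδ1, hδ1', hδ2, hδ2', hU, hE, Hg⟩ := gsc D
  obtain ⟨η, hη, hηϑ, hηδ⟩ : ∃ η : ℝ, 0 < η ∧ η ≤ D.ϑ / 4 ∧ η ≤ δ1 / 4 :=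
    ⟨min (D.ϑ / 4) (δ1 / 4), lt_min (by have := D.hϑ; positivity) (by positivity),
      min_le_left _ _, min_le_right _ _⟩
  refine ⟨η, hη, fun c6 hc6 => ?_⟩
  obtain ⟨a1, ha1, ha12, Hst⟩ := strt D X hc6
  obtain ⟨Cw, hCw, Hp⟩ := fam_pertw D
  obtain ⟨R, hR, hR1, hR2⟩ := f_bd D
  have hδ := D.hδ
  have hδ11 := D.hδ1
  have hL := D.hL
  have hϑ0 := D.hϑ
  have hlog2 : 0 < Real.log 2 := Real.log_pos (by norm_num)
  have hlog21 : Real.log 2 ≤ 1 := by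
    have := Real.log_le_sub_one_of_pos (show (0 : ℝ) < 2 by norm_num)
    linarith
  -- the exponent for the scale
  obtain ⟨κ0, hκ0⟩ : ∃ κ0 : ℝ, κ0 = 1 / (2 * ((D.Qx : ℝ) + 2)) := ⟨_, rfl⟩
  have hκ0p : 0 < κ0 := by rw [hκ0]; positivity
  have hκ01 : κ0 ≤ 1 / 2 := by
    rw [hκ0]
    apply one_div_le_one_div_of_le (by norm_num)
    have : (0 : ℝ) ≤ D.Qx := Nat.cast_nonneg _
    linarith
  have hκ0q : ∀ p ∈ D.Pa, κ0 * ((D.qp p : ℝ) + 1) < 1 := by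
    intro p hp
    have h1 : D.qp p ≤ D.Qx :=
      Finset.single_le_sum (f := fun p => D.qp p) (fun _ _ => Nat.zero_le _) hp
    have h2 : (D.qp p : ℝ) ≤ D.Qx := by exact_mod_cast h1
    rw [hκ0, div_mul_eq_mul_div, one_mul, div_lt_one (by positivity)]
    have : (0 : ℝ) ≤ D.Qx := Nat.cast_nonneg _
    linarith
  obtain ⟨ρc, s1, hρc, hs1, Hc⟩ := hcomp κ0 δ1 R hκ0p hκ0q hδ1
  -- the relative size
  obtain ⟨r1, hr1, hr1a, hr1b, hr1c⟩ : ∃ r1 : ℝ, 0 < r1 ∧ r1 ≤ δ2 ∧ r1 ≤ D.δ / 8 ∧ r1 ≤ s1 / 2 :=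
    ⟨min δ2 (min (D.δ / 8) (s1 / 2)), lt_min hδ2 (lt_min (by positivity) (by positivity)),
      min_le_left _ _, (min_le_right _ _).trans (min_le_left _ _),
      (min_le_right _ _).trans (min_le_right _ _)⟩
  obtain ⟨W, hW⟩ : ∃ W : ℝ, W = (n1 : ℝ) + Cw * U + 1 := ⟨_, rfl⟩
  have hW1 : 1 ≤ W := by
    rw [hW]
    have h1 : (0 : ℝ) ≤ n1 := Nat.cast_nonneg _
    have h2 : 0 ≤ Cw * U := by positivity
    linarith
  have hWn : (n1 : ℝ) ≤ W := by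
    rw [hW]
    have h2 : 0 ≤ Cw * U := by positivity
    linarith
  obtain ⟨c', hc', hca, hc10, hcW⟩ : ∃ c' : ℝ, 0 < c' ∧ c' < a1 ∧ c' ≤ 1 / 10 ∧
      5 * c' * W ≤ κ0 / 4 := by
    refine ⟨min (a1 / 2) (min (1 / 10) (κ0 / (20 * W))), ?_, ?_, ?_, ?_⟩
    · exact lt_min (by positivity) (lt_min (by norm_num) (by positivity))
    · exact lt_of_le_of_lt (min_le_left _ _) (by linarith)
    · exact (min_le_right _ _).trans (min_le_left _ _)
    · have h1 : min (a1 / 2) (min (1 / 10) (κ0 / (20 * W))) ≤ κ0 / (20 * W) :=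
        (min_le_right _ _).trans (min_le_right _ _)
      rw [le_div_iff₀ (by positivity)] at h1
      linarith
  refine ⟨c', c' / 2, hc', by linarith, by positivity, ?_⟩
  intro C ϑ hϑ
  obtain ⟨Q, hQ⟩ : ∃ Q : ℝ, Q = 10 * E * Real.log 2 + 1 := ⟨_, rfl⟩
  have hQ0 : 0 < Q := by rw [hQ]; positivity
  obtain ⟨eQ, heQ⟩ : ∃ eQ : ℝ, eQ = Real.exp Q := ⟨_, rfl⟩
  have heQ1 : 1 ≤ eQ := by rw [heQ]; exact Real.one_le_exp hQ0.le
  obtain ⟨J3, Hst⟩ := Hst c' (c' / 2) c' C r1 δ1 η (by linarith) (by positivity) (by linarith) hca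
    hr1 hδ1 hη hηϑ hηδ
  obtain ⟨ρl, hρl, Hl⟩ := hlim (1 / (8 * eQ)) ϑ (R + 1 + 2 * U) (1 / r1 + 1) κ0 (by positivity) hϑ
    hκ0p hκ0q
  have hM := X.hM
  have hA := X.hA
  have hTn : 0 < ‖X.T‖ := norm_pos_iff.2 X.hT
  obtain ⟨ηu, hηu, hηu1, hηu2⟩ : ∃ ηu : ℝ, 0 < ηu ∧ ηu ≤ ρc / 4 ∧ ηu ≤ ρl / 4 :=
    ⟨min (ρc / 4) (ρl / 4), lt_min (by positivity) (by positivity), min_le_left _ _,
      min_le_right _ _⟩
  -- the constant of the perturbation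
  obtain ⟨K1, hK1⟩ : ∃ K1 : ℝ, K1 = U * (X.A * (2 ^ X.M / ‖X.T‖)) * Real.exp (Cw * U) := ⟨_, rfl⟩
  have hK1p : 0 < K1 := by rw [hK1]; positivity
  -- the constant for the relative smallness of the perturbation
  obtain ⟨w, hw, hw1, hw2, hw3⟩ : ∃ w : ℝ, 0 < w ∧ w ≤ D.δ / 8 ∧ w ≤ r1 ∧ w ≤ 1 / (8 * eQ) :=
    ⟨min (D.δ / 8) (min r1 (1 / (8 * eQ))), lt_min (by positivity) (lt_min hr1 (by positivity)),
      min_le_left _ _, (min_le_right _ _).trans (min_le_left _ _),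
      (min_le_right _ _).trans (min_le_right _ _)⟩
  obtain ⟨K2, hK2⟩ : ∃ K2 : ℝ, K2 = (2 ^ X.M / ‖X.T‖) ^ κ0 := ⟨_, rfl⟩
  have hK2p : 0 < K2 := by rw [hK2]; positivity
  obtain ⟨N1, hN1⟩ := paf_ev (β := 1) one_pos (show 0 < ‖X.T‖ * ηu ^ X.M by positivity)
  obtain ⟨N2, hN2⟩ := paf_ev (β := 1 / 2) (by norm_num) (show 0 < w / (U * K1) by positivity)
  obtain ⟨N3, hN3⟩ := exists_nat_ge ((10 * E * Real.log 2 + E + 3) / c')
  obtain ⟨N4, hN4⟩ := paf_ev (β := κ0 / 2) (by positivity) (show 0 < 1 / (U * K2) by positivity)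
  refine ⟨J3 + N1 + N2 + N3 + N4, ?_⟩
  intro J1 hJ1 u0 m hw0 hT
  have E1 := hN1 J1 (by omega)
  have E2 := hN2 J1 (by omega)
  have E4 := hN4 J1 (by omega)
  clear hN1 hN2 hN4
  rw [one_mul] at E1
  have hJ0 : (0 : ℝ) ≤ J1 := Nat.cast_nonneg _
  have E3 : 10 * E * Real.log 2 + E + 3 ≤ c' * J1 := by
    have h1 : (N3 : ℝ) ≤ J1 := by exact_mod_cast (by omega : N3 ≤ J1)
    have h2 := hN3.trans h1
    rw [div_le_iff₀ hc'] at h2
    linarith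
  have hEl : 0 < E * Real.log 2 := by positivity
  have hcJ : 3 ≤ c' * J1 := by linarith
  -- the size
  obtain ⟨s, hs⟩ : ∃ s : ℝ, s = (2 : ℝ) ^ (-(J1 : ℝ)) := ⟨_, rfl⟩
  have hs0 : 0 < s := by rw [hs]; positivity
  have hs2 : (1 / 2 : ℝ) ^ J1 = s := by
    rw [hs, Real.rpow_neg (by norm_num), Real.rpow_natCast, one_div, inv_pow]
  have hww : ∀ u : ℂ, X.ww u = D.vv X.c + X.T * u ^ X.M := fun u => rfl
  have hTM : ‖X.ww u0 - D.vv X.c‖ = ‖X.T‖ * ‖u0‖ ^ X.M := by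
    rw [hww, add_sub_cancel_left, norm_mul, norm_pow]
  have hTM2 : ‖X.T‖ * ‖u0‖ ^ X.M ≤ s := by
    have hA' := hw0.2
    rw [hTM, hs2] at hA'
    exact hA'
  have hu0s : ‖u0‖ ≤ ηu := by
    have h1 : ‖X.T‖ * ‖u0‖ ^ X.M ≤ ‖X.T‖ * ηu ^ X.M := by
      rw [hs] at hTM2
      exact hTM2.trans E1
    have h2 : ‖u0‖ ^ X.M ≤ ηu ^ X.M := le_of_mul_le_mul_left h1 hTn
    exact le_of_pow_le_pow_left₀ (by omega) hηu.le h2
  obtain ⟨ρ1, hρ1, hρ1u, hsub, hmem, hdiff, hV1, hth, hrel, hcov⟩ :=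
    Hst J1 (by omega) u0 m hw0 hT
  have hnu : 0 < ‖u0‖ := by linarith
  have hun : ∀ u ∈ ball u0 ρ1, ‖u‖ ≤ 2 * ‖u0‖ := by
    intro u hu
    rw [mem_ball, dist_eq_norm] at hu
    have h1 := norm_add_le (u - u0) u0
    rw [sub_add_cancel] at h1
    linarith
  have hune : ∀ u ∈ ball u0 ρ1, u ≠ 0 := by
    intro u hu h0
    rw [mem_ball, dist_eq_norm, h0, zero_sub, norm_neg] at hu
    linarith
  have huM : ∀ u ∈ ball u0 ρ1, ‖u‖ ^ X.M ≤ 2 ^ X.M / ‖X.T‖ * s := by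
    intro u hu
    have h1 : ‖u‖ ^ X.M ≤ 2 ^ X.M * ‖u0‖ ^ X.M := by
      rw [← mul_pow]
      exact pow_le_pow_left₀ (norm_nonneg _) (hun u hu) _
    rw [div_mul_eq_mul_div, le_div_iff₀ hTn]
    calc ‖u‖ ^ X.M * ‖X.T‖ ≤ 2 ^ X.M * ‖u0‖ ^ X.M * ‖X.T‖ :=
          mul_le_mul_of_nonneg_right h1 hTn.le
      _ = 2 ^ X.M * (‖X.T‖ * ‖u0‖ ^ X.M) := by ring
      _ ≤ 2 ^ X.M * s := mul_le_mul_of_nonneg_left hTM2 (by positivity)
  -- the scale
  obtain ⟨N, hN⟩ : ∃ N : ℕ, N = ⌊c' * (J1 : ℝ)⌋₊ := ⟨_, rfl⟩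
  have hNle : (N : ℝ) ≤ c' * J1 := by rw [hN]; exact Nat.floor_le (by positivity)
  have hNlt : c' * J1 < N + 1 := by rw [hN]; exact Nat.lt_floor_add_one _
  obtain ⟨σ, hσ⟩ : ∃ σ : ℝ, σ = (2 : ℝ) ^ (-(5 * c' * (J1 : ℝ))) := ⟨_, rfl⟩
  have hσ0 : 0 < σ := by rw [hσ]; positivity
  have hσ1 : σ ≤ 1 / 2 := by
    rw [hσ]
    calc (2 : ℝ) ^ (-(5 * c' * (J1 : ℝ))) ≤ (2 : ℝ) ^ (-1 : ℝ) :=
          Real.rpow_le_rpow_of_exponent_le (by norm_num) (by linarith)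
      _ = 1 / 2 := by rw [Real.rpow_neg_one]; norm_num
  have hlogσ : Real.log (1 / σ) = 5 * c' * J1 * Real.log 2 := by
    rw [one_div, Real.log_inv, hσ, Real.log_rpow (by norm_num)]
    ring
  have hball : ball (X.g m u0) σ ⊆ X.g m '' ball u0 (ρ1 / 2 ^ N) := by
    refine (ball_subset_ball ?_).trans (hcov N)
    have h1 : (2 : ℝ) ^ N ≤ (2 : ℝ) ^ (c' * (J1 : ℝ)) := by
      rw [← Real.rpow_natCast]
      exact Real.rpow_le_rpow_of_exponent_le (by norm_num) hNle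
    have h2 : (2 : ℝ) ^ (1 : ℝ) ≤ (2 : ℝ) ^ (c' * (J1 : ℝ)) :=
      Real.rpow_le_rpow_of_exponent_le (by norm_num) (by linarith)
    rw [Real.rpow_one] at h2
    have h3 : σ * ((2 : ℝ) ^ (c' * (J1 : ℝ)) * (2 : ℝ) ^ (c' * (J1 : ℝ))) =
        (2 : ℝ) ^ (-((c' + 2 * c') * (J1 : ℝ))) := by
      rw [hσ, ← Real.rpow_add (by norm_num), ← Real.rpow_add (by norm_num)]
      congr 1
      ring
    rw [le_div_iff₀ (by positivity)]
    calc σ * (2 * 2 ^ N) ≤ σ * ((2 : ℝ) ^ (c' * (J1 : ℝ)) * (2 : ℝ) ^ (c' * (J1 : ℝ))) := by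
          refine mul_le_mul_of_nonneg_left ?_ hσ0.le
          exact mul_le_mul h2 h1 (by positivity) (by positivity)
      _ = (2 : ℝ) ^ (-((c' + 2 * c') * (J1 : ℝ))) := h3
  have hQN : E * (Real.log (1 / σ) + 1) ≤ Q * (N : ℝ) := by
    rw [hlogσ]
    have h1 : (10 * E * Real.log 2 + 1) * (c' * J1 - 1) ≤ Q * (N : ℝ) := by
      rw [← hQ]
      exact mul_le_mul_of_nonneg_left (by linarith) hQ0.le
    have h2 : 0 ≤ 5 * (E * Real.log 2) * (c' * J1) := by positivity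
    have h3 : E * (5 * c' * J1 * Real.log 2 + 1) = 5 * (E * Real.log 2) * (c' * J1) + E := by ring
    have h4 : (10 * E * Real.log 2 + 1) * (c' * J1 - 1) =
        10 * (E * Real.log 2) * (c' * J1) + c' * J1 - 10 * E * Real.log 2 - 1 := by ring
    linarith
  obtain ⟨j, i, hjN, hi, hTT, Gl, G2⟩ := Hg r1 Q N (X.g m) u0 ρ1 σ hr1 hr1a hQ0.le hρ1 hσ0 hσ1 hQN
    hV1 hth hrel hball
  -- the radius
  obtain ⟨ρ, hρ⟩ : ∃ ρ : ℝ, ρ = ρ1 / 2 ^ j := ⟨_, rfl⟩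
  have hρ0 : 0 < ρ := by rw [hρ]; positivity
  have hρρ1 : ρ ≤ ρ1 := by rw [hρ]; exact div_le_self hρ1.le (one_le_pow₀ (by norm_num))
  have hρ2 : ρ1 / 2 ^ (j + 1) = ρ / 2 := by rw [hρ, pow_succ]; field_simp
  rw [← hρ] at Gl G2
  rw [hρ2] at G2
  have hbb : ball u0 ρ ⊆ ball u0 ρ1 := ball_subset_ball hρρ1
  have hu0b : u0 ∈ ball u0 ρ := mem_ball_self hρ0
  -- powers of `σ`
  obtain ⟨y, hy⟩ : ∃ y : ℝ, y = σ ^ n1 := ⟨_, rfl⟩
  rw [← hy] at hi G2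
  have Gl' : ∀ l < i, D.f^[l] (X.g m u0) ∈ D.V1 ∧ y ≤ U * D.dd (D.f^[l] (X.g m u0)) ∧
      ∀ u ∈ ball u0 ρ, ‖D.f^[l] (X.g m u) - D.f^[l] (X.g m u0)‖ ≤
        r1 * D.dd (D.f^[l] (X.g m u0)) := fun l hl =>
    ⟨(Gl l hl).1, hy ▸ (Gl l hl).2.2.1, (Gl l hl).2.2.2⟩
  clear Gl
  have hy0 : 0 < y := by rw [hy]; positivity
  have hyE : y = (2 : ℝ) ^ (-(5 * c' * n1 * (J1 : ℝ))) := by
    rw [hy, hσ, ← Real.rpow_natCast, ← Real.rpow_mul (by norm_num)]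
    congr 1
    ring
  -- the perturbation
  have hω : ∀ u ∈ ball u0 ρ1, (i : ℝ) * (X.A * ‖u‖ ^ X.M) * Real.exp (Cw * D.TT (X.g m u0) i) ≤
      w * (y / U) := by
    intro u hu
    have h1 : Real.exp (Cw * D.TT (X.g m u0) i) ≤
        Real.exp (Cw * U) * (2 : ℝ) ^ (5 * c' * (Cw * U) * (J1 : ℝ)) := by
      have h2 : Cw * D.TT (X.g m u0) i ≤ Cw * U + (5 * c' * (Cw * U)) * Real.log 2 * (J1 : ℝ) := by
        have h3 := mul_le_mul_of_nonneg_left hTT (by linarith : 0 ≤ Cw)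
        rw [hlogσ] at h3
        have h4 : Cw * (U * (5 * c' * J1 * Real.log 2 + 1)) =
            Cw * U + (5 * c' * (Cw * U)) * Real.log 2 * (J1 : ℝ) := by ring
        rw [h4] at h3
        exact h3
      have h5 := Real.exp_le_exp.2 h2
      rw [Real.exp_add, g1_exp] at h5
      exact h5
    have h2 : (i : ℝ) ≤ U * y⁻¹ := by
      rw [← div_eq_mul_inv, le_div_iff₀ hy0]
      exact hi
    have h3 := huM u hu
    have hyi : y⁻¹ = (2 : ℝ) ^ (5 * c' * n1 * (J1 : ℝ)) := by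
      rw [hyE, Real.rpow_neg (by norm_num), inv_inv]
    have h4 : (i : ℝ) * (X.A * ‖u‖ ^ X.M) * Real.exp (Cw * D.TT (X.g m u0) i) ≤
        (U * y⁻¹) * (X.A * (2 ^ X.M / ‖X.T‖ * s)) *
          (Real.exp (Cw * U) * (2 : ℝ) ^ (5 * c' * (Cw * U) * (J1 : ℝ))) := by
      have hA0 : 0 < X.A := by linarith
      refine mul_le_mul (mul_le_mul h2 (mul_le_mul_of_nonneg_left h3 hA0.le) (by positivity)
        (by positivity)) h1 (Real.exp_pos _).le (by positivity)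
    refine h4.trans ?_
    have h5 : (U * y⁻¹) * (X.A * (2 ^ X.M / ‖X.T‖ * s)) *
          (Real.exp (Cw * U) * (2 : ℝ) ^ (5 * c' * (Cw * U) * (J1 : ℝ))) =
        K1 * (y⁻¹ * s * (2 : ℝ) ^ (5 * c' * (Cw * U) * (J1 : ℝ))) := by
      rw [hK1]
      ring
    rw [h5]
    have h6 : y⁻¹ * s * (2 : ℝ) ^ (5 * c' * (Cw * U) * (J1 : ℝ)) ≤
        (2 : ℝ) ^ (-(1 / 2 * (J1 : ℝ))) * y := by
      rw [hyi, hs, hyE, ← Real.rpow_add (by norm_num), ← Real.rpow_add (by norm_num),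
        ← Real.rpow_add (by norm_num)]
      apply Real.rpow_le_rpow_of_exponent_le (by norm_num)
      have h7 : 5 * c' * n1 * (J1 : ℝ) + -(J1 : ℝ) + 5 * c' * (Cw * U) * (J1 : ℝ) =
          (5 * c' * (n1 + Cw * U) - 1) * (J1 : ℝ) := by ring
      have h8 : -(1 / 2 * (J1 : ℝ)) + -(5 * c' * n1 * (J1 : ℝ)) =
          (-(1 / 2) - 5 * c' * n1) * (J1 : ℝ) := by ring
      rw [h7, h8]
      apply mul_le_mul_of_nonneg_right _ hJ0
      have h9 : 5 * c' * (n1 + Cw * U) ≤ 5 * c' * W := by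
        apply mul_le_mul_of_nonneg_left _ (by positivity)
        rw [hW]
        linarith
      have h10 : 5 * c' * n1 ≤ 5 * c' * W := mul_le_mul_of_nonneg_left hWn (by positivity)
      linarith
    calc K1 * (y⁻¹ * s * (2 : ℝ) ^ (5 * c' * (Cw * U) * (J1 : ℝ)))
        ≤ K1 * ((2 : ℝ) ^ (-(1 / 2 * (J1 : ℝ))) * y) := mul_le_mul_of_nonneg_left h6 hK1p.le
      _ ≤ K1 * (w / (U * K1) * y) :=
          mul_le_mul_of_nonneg_left (mul_le_mul_of_nonneg_right E2 hy0.le) hK1p.le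
      _ = w * (y / U) := by
          field_simp
  -- the power of `κ0`
  have hκu : ∀ u ∈ ball u0 ρ1, (‖u‖ ^ X.M) ^ κ0 ≤ y / U := by
    intro u hu
    have h1 : (‖u‖ ^ X.M) ^ κ0 ≤ (2 ^ X.M / ‖X.T‖ * s) ^ κ0 :=
      Real.rpow_le_rpow (by positivity) (huM u hu) hκ0p.le
    have h2 : (2 ^ X.M / ‖X.T‖ * s) ^ κ0 = K2 * (2 : ℝ) ^ (-(κ0 * (J1 : ℝ))) := by
      rw [Real.mul_rpow (by positivity) hs0.le, hK2, hs, ← Real.rpow_mul (by norm_num)]
      congr 2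
      ring
    rw [h2] at h1
    have h3 : (2 : ℝ) ^ (-(κ0 * (J1 : ℝ))) ≤ (2 : ℝ) ^ (-(κ0 / 2 * (J1 : ℝ))) * y := by
      rw [hyE, ← Real.rpow_add (by norm_num)]
      apply Real.rpow_le_rpow_of_exponent_le (by norm_num)
      have h4 : 5 * c' * n1 * (J1 : ℝ) ≤ κ0 / 4 * (J1 : ℝ) := by
        apply mul_le_mul_of_nonneg_right _ hJ0
        have h10 : 5 * c' * n1 ≤ 5 * c' * W := mul_le_mul_of_nonneg_left hWn (by positivity)
        linarith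
      have h5 : 0 ≤ κ0 / 4 * (J1 : ℝ) := by positivity
      linarith
    calc (‖u‖ ^ X.M) ^ κ0 ≤ K2 * (2 : ℝ) ^ (-(κ0 * (J1 : ℝ))) := h1
      _ ≤ K2 * ((2 : ℝ) ^ (-(κ0 / 2 * (J1 : ℝ))) * y) := mul_le_mul_of_nonneg_left h3 hK2p.le
      _ ≤ K2 * (1 / (U * K2) * y) :=
          mul_le_mul_of_nonneg_left (mul_le_mul_of_nonneg_right E4 hy0.le) hK2p.le
      _ = y / U := by field_simp
  have hU0 : 0 < U := by linarith
  have hyU0 : 0 < y / U := by positivity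
  -- the perturbed orbit
  have F : ∀ u ∈ ball u0 ρ, ∀ l ≤ i,
      ‖X.g (m + l) u - D.f^[l] (X.g m u)‖ ≤
        (l : ℝ) * (X.A * ‖u‖ ^ X.M) * Real.exp (Cw * D.TT (X.g m u0) l) ∧
        (l < i → X.g (m + l) u ∈ thickening D.δ D.J) := by
    intro u hu
    refine Hp X u (X.g m u0) m i (hsub (hbb hu)) fun l hl => ?_
    obtain ⟨g1, g2, g3⟩ := Gl' l hl
    have hdd : y / U ≤ D.dd (D.f^[l] (X.g m u0)) := by
      rw [div_le_iff₀ hU0]
      linarith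
    have hddn := dd_nonneg D (D.f^[l] (X.g m u0))
    refine ⟨D.hV (D.hV1 g1), fun hp => D.hVp _ hp (D.hV1 g1), ?_, ?_⟩
    · exact (g3 u hu).trans (mul_le_mul_of_nonneg_right hr1b hddn)
    · refine (hω u (hbb hu)).trans ?_
      calc w * (y / U) ≤ D.δ / 8 * (y / U) := mul_le_mul_of_nonneg_right hw1 hyU0.le
        _ ≤ D.δ / 8 * D.dd (D.f^[l] (X.g m u0)) := mul_le_mul_of_nonneg_left hdd (by positivity)
  have F1 : ∀ u ∈ ball u0 ρ, ‖X.g (m + i) u - D.f^[i] (X.g m u)‖ ≤ w * (y / U) := fun u hu =>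
    (F u hu i le_rfl).1.trans (hω u (hbb hu))
  have F2 : ∀ l < m + i, ∀ u ∈ ball u0 ρ, X.g l u ∈ thickening D.δ D.J := by
    intro l hl u hu
    rcases le_or_gt l m with h | h
    · exact thickening_mono (by linarith) _ (hmem l h u (hbb hu))
    · have h1 := (F u hu (l - m) (by omega)).2 (by omega)
      rwa [show m + (l - m) = l by omega] at h1
  have F3 : DifferentiableOn ℂ (X.g (m + i)) (ball u0 ρ) :=
    fam_diff D X isOpen_ball (hbb.trans hsub) F2 (m + i) le_rfl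
  obtain ⟨xi, hxi⟩ : ∃ xi, xi = D.f^[i] (X.g m u0) := ⟨_, rfl⟩
  rw [← hxi] at G2
  have hxiR : ‖xi‖ ≤ R := by
    rw [hxi]
    rcases Nat.eq_zero_or_pos i with h0 | h0
    · rw [h0]
      exact hR1 _ (thickening_mono (by linarith) _ (hmem m le_rfl u0 (mem_ball_self hρ1)))
    · obtain ⟨i', hi'⟩ : ∃ i', i = i' + 1 := ⟨i - 1, by omega⟩
      rw [hi', Function.iterate_succ_apply']
      exact hR2 _ (thickening_mono (by linarith) _ (D.hV (D.hV1 (Gl' i' (by omega)).1)))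
  refine ⟨ρ, hρ0, hρρ1.trans hρ1u, ?_⟩
  rcases G2 with ⟨a, ha0, haU, hya, hra, hosc, u, hu, hosc2⟩ | ⟨hout, hyd, hosc⟩
  · -- a good scale
    have hyUa : y / U ≤ a := by
      rw [div_le_iff₀ hU0]
      linarith
    have hwa : w * (y / U) ≤ w * a := mul_le_mul_of_nonneg_left hyUa hw.le
    have hwe : w * a ≤ 1 / (8 * eQ) * a := mul_le_mul_of_nonneg_right hw3 ha0.le
    have he8 : 1 / (8 * eQ) ≤ 1 / 8 := by
      apply one_div_le_one_div_of_le (by norm_num)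
      linarith
    have hwa8 : w * a ≤ a / 8 := by
      have := mul_le_mul_of_nonneg_right he8 ha0.le
      linarith
    have h1 := F1 u0 hu0b
    rw [← hxi] at h1
    refine Hl u0 ρ (2 * a) (m + i) (by linarith) hρ0 (by linarith) F2 F3 ?_ ⟨u, hu, ?_⟩
      (by linarith) ?_ ?_ ?_
    · intro v hv
      have h2 := F1 v hv
      have h3 : X.g (m + i) v - X.g (m + i) u0 = (X.g (m + i) v - D.f^[i] (X.g m v)) +
          (D.f^[i] (X.g m v) - xi) - (X.g (m + i) u0 - xi) := by ring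
      have h4 := hosc v hv
      rw [h3]
      refine (norm_sub_le _ _).trans ?_
      have h5 := norm_add_le (X.g (m + i) v - D.f^[i] (X.g m v)) (D.f^[i] (X.g m v) - xi)
      linarith
    · have hu' : u ∈ ball u0 ρ := ball_subset_ball (by linarith) hu
      have h2 := F1 u hu'
      have h3 : D.f^[i] (X.g m u) - xi = (X.g (m + i) u - X.g (m + i) u0) -
          (X.g (m + i) u - D.f^[i] (X.g m u)) + (X.g (m + i) u0 - xi) := by ring
      have h4 : ‖D.f^[i] (X.g m u) - xi‖ ≤ ‖X.g (m + i) u - X.g (m + i) u0‖ + w * a + w * a := by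
        rw [h3]
        refine (norm_add_le _ _).trans (add_le_add ?_ (h1.trans hwa))
        exact (norm_sub_le _ _).trans (add_le_add le_rfl (h2.trans hwa))
      rw [← heQ] at hosc2
      have h5 : a / (2 * eQ) ≤ ‖D.f^[i] (X.g m u) - xi‖ := by
        rw [div_le_iff₀ (by positivity)]
        linarith
      have h6 : a / (2 * eQ) = 4 * (1 / (8 * eQ) * a) := by
        field_simp
        ring
      have h7 : 1 / (8 * eQ) * (2 * a) = 2 * (1 / (8 * eQ) * a) := by ring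
      rw [h7]
      linarith
    · have h2 : ‖X.g (m + i) u0‖ ≤ ‖X.g (m + i) u0 - xi‖ + ‖xi‖ := by
        have h3 := norm_add_le (X.g (m + i) u0 - xi) xi
        rwa [sub_add_cancel] at h3
      linarith
    · have h2 := (abs_le.1 (dd_lip D (X.g (m + i) u0) xi)).2
      have h3 : D.dd xi ≤ 1 / r1 * a := by
        rw [div_mul_eq_mul_div, le_div_iff₀ hr1]
        linarith
      have h4 : 0 < 1 / r1 * a := by positivity
      have h5 : (1 / r1 + 1) * (2 * a) = 2 * (1 / r1 * a) + 2 * a := by ring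
      rw [h5]
      linarith
    · exact (hκu u0 (mem_ball_self hρ1)).trans (by linarith)
  · -- the centre has left
    have hyUd : y / U ≤ D.dd xi := by
      rw [div_le_iff₀ hU0]
      linarith
    have hddn := dd_nonneg D xi
    have h0 : ball u0 (3 / 4 * ρ) ∩ {u | ¬ X.PK u} = ∅ := by
      rw [Set.eq_empty_iff_forall_notMem]
      rintro u ⟨hu, hP⟩
      have hu' : u ∈ ball u0 ρ := ball_subset_ball (by linarith) hu
      apply hP
      intro hK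
      refine Hc u xi (m + i) ?_ (hune u (hbb hu')) hK (fun l hl => F2 l hl u hu') hxiR hout
        ((hκu u (hbb hu')).trans hyUd) ?_
      · have := hun u (hbb hu')
        linarith
      · have h1 := F1 u hu'
        have h2 := hosc u hu'
        have h3 : X.g (m + i) u - xi = (X.g (m + i) u - D.f^[i] (X.g m u)) +
            (D.f^[i] (X.g m u) - xi) := by ring
        rw [h3]
        refine (norm_add_le _ _).trans ?_
        have h4 : w * (y / U) ≤ r1 * D.dd xi := mul_le_mul hw2 hyUd hyU0.le hr1.le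
        have h5 : r1 * D.dd xi ≤ s1 / 2 * D.dd xi := mul_le_mul_of_nonneg_right hr1c hddn
        linarith
    rw [h0, measure_empty]
    exact bot_le

end Pool.Agent.H44.DP
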