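import Pool.Agent.H44.DP.ITR

/-!
# Module LipW: the Lipschitz constant in weighted time

PROOF. `x ∈ thickening (δ/2) J`, `x ∉ Pa`, so `dd x > 0`; the ball `ball' = {z | ‖z - x‖ ≤ δ/4 * dd x}` (closed, convex) is in `thickening (3δ/4 + ..) J ⊆ thickening δ J` (`dd ≤ 1`, `th_add`), so `f` is differentiable at its points (`D.hU`, `D.hf`, `D.hG`), and it is enough that `‖deriv f z‖ ≤ exp (Cw * wt x)` on `ball'` (`Convex.norm_image_sub_le_of_norm_deriv_le` for `closedBall x (δ/4 * dd x)`).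
(A) `dd x ≤ r0 / 2` (`< 1`, since `4 r0 ≤ δ ≤ 1`): by `dd_ex` `dd x = ‖x - p‖` for some `p ∈ Pa`. `‖z - p‖ ≤ ‖z - x‖ + ‖x - p‖ ≤ (1/4 + 1) ‖x - p‖ < r0` (`δ ≤ 1`), and `≤ 2 ‖x - p‖`, so `D.b3`: `‖deriv f z‖ ≤ exp (C ‖z - p‖ ^ qp p) ≤ exp (C 2 ^ Qx ‖x - p‖ ^ qp p)` (`qp p ≤ Qx`) `≤ exp (C 2 ^ Qx / c * wt x)`, `c` from `wt_near`.
(B) `dd x > r0 / 2`: `wt x ≥ dd x ^ Qx ≥ (r0/2) ^ Qx` (`wt_dd`), `‖deriv f z‖ ≤ L = exp (log L) ≤ exp (log L / (r0/2)^Qx * wt x)` (`D.hLf`).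
`Cw = 1 + C 2 ^ Qx / c + log L / (r0/2)^Qx`.
-/

set_option autoImplicit false

open Filter Topology Metric Set

namespace Pool.Agent.H44.DP

theorem lipw (D : Ps) : ∃ Cw : ℝ, 1 ≤ Cw ∧ ∀ x ∈ thickening (D.δ / 2) D.J, x ∉ D.Pa →
    ∀ z w : ℂ, ‖z - x‖ ≤ D.δ / 4 * D.dd x → ‖w - x‖ ≤ D.δ / 4 * D.dd x →
      ‖D.f z - D.f w‖ ≤ Real.exp (Cw * D.wt x) * ‖z - w‖ := by
  obtain ⟨c, hc0, -, hc⟩ := wt_near D
  have hC := D.hC
  have hL := D.hL
  have hr0 := D.hr0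
  have hr1 := D.hr1
  have hδ := D.hδ
  have hδ1 := D.hδ1
  have hlog : 0 ≤ Real.log D.L := Real.log_nonneg hL
  have hw0 : 0 < (D.r0 / 2) ^ D.Qx := by positivity
  have hA0 : 0 ≤ D.C * 2 ^ D.Qx / c := by positivity
  have hB0 : 0 ≤ Real.log D.L / (D.r0 / 2) ^ D.Qx := by positivity
  refine ⟨1 + D.C * 2 ^ D.Qx / c + Real.log D.L / (D.r0 / 2) ^ D.Qx, by linarith,
    fun x hx hxP z w hz hw => ?_⟩
  have hd0 : 0 ≤ D.dd x := dd_nonneg D x
  have hd1 : D.dd x ≤ 1 := dd_le_one D x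
  have hwt := wt_nonneg D x
  have hs : Convex ℝ (closedBall x (D.δ / 4 * D.dd x)) := convex_closedBall _ _
  have hin : ∀ y ∈ closedBall x (D.δ / 4 * D.dd x), y ∈ thickening D.δ D.J := by
    intro y hy
    rw [mem_closedBall, dist_eq_norm] at hy
    have h1 : ‖y - x‖ < D.δ / 2 := by
      have h2 : D.δ / 4 * D.dd x ≤ D.δ / 4 * 1 := mul_le_mul_of_nonneg_left hd1 (by linarith)
      linarith
    have h3 := th_add hx h1
    rwa [add_halves] at h3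
  have hdf : ∀ y ∈ closedBall x (D.δ / 4 * D.dd x), DifferentiableAt ℂ D.f y := fun y hy =>
    D.hf.differentiableAt (D.hG.mem_nhds (D.hU (hin y hy)))
  refine hs.norm_image_sub_le_of_norm_deriv_le hdf ?_
    (by rw [mem_closedBall, dist_eq_norm]; exact hw)
    (by rw [mem_closedBall, dist_eq_norm]; exact hz)
  intro y hy
  have hy' := hy
  rw [mem_closedBall, dist_eq_norm] at hy'
  by_cases hcase : D.dd x ≤ D.r0 / 2
  · rcases dd_ex D x with h | ⟨p, hp, h⟩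
    · rw [h] at hcase
      linarith
    · rw [h] at hcase hy'
      have h0 : 0 ≤ ‖x - p‖ := norm_nonneg _
      have h1 : ‖y - p‖ ≤ ‖y - x‖ + ‖x - p‖ := by
        have e : y - p = (y - x) + (x - p) := by ring
        rw [e]
        exact norm_add_le _ _
      have h2 : D.δ / 4 * ‖x - p‖ ≤ 1 / 4 * ‖x - p‖ :=
        mul_le_mul_of_nonneg_right (by linarith) h0
      have h3 : y ∈ ball p D.r0 := by
        rw [mem_ball, dist_eq_norm]
        linarith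
      have h4 : ‖y - p‖ ≤ 2 * ‖x - p‖ := by linarith
      have hq : D.qp p ≤ D.Qx :=
        Finset.single_le_sum (f := D.qp) (fun i _ => Nat.zero_le _) hp
      have h5 : ‖y - p‖ ^ D.qp p ≤ 2 ^ D.Qx * ‖x - p‖ ^ D.qp p := by
        calc ‖y - p‖ ^ D.qp p ≤ (2 * ‖x - p‖) ^ D.qp p :=
              pow_le_pow_left₀ (norm_nonneg _) h4 _
          _ = 2 ^ D.qp p * ‖x - p‖ ^ D.qp p := mul_pow _ _ _
          _ ≤ 2 ^ D.Qx * ‖x - p‖ ^ D.qp p :=
              mul_le_mul_of_nonneg_right (pow_le_pow_right₀ (by norm_num) hq) (by positivity)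
      have h6 : ‖x - p‖ ^ D.qp p ≤ D.wt x / c := by
        rw [le_div_iff₀ hc0, mul_comm]
        exact hc p hp x (by linarith)
      refine (D.b3 p hp y h3).trans (Real.exp_le_exp.2 ?_)
      calc D.C * ‖y - p‖ ^ D.qp p ≤ D.C * (2 ^ D.Qx * (D.wt x / c)) :=
            mul_le_mul_of_nonneg_left
              (h5.trans (mul_le_mul_of_nonneg_left h6 (by positivity))) (by linarith)
        _ = D.C * 2 ^ D.Qx / c * D.wt x := by ring
        _ ≤ _ := mul_le_mul_of_nonneg_right (by linarith) hwt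
  · rw [not_le] at hcase
    have h1 : (D.r0 / 2) ^ D.Qx ≤ D.wt x :=
      (pow_le_pow_left₀ (by positivity) hcase.le _).trans (wt_dd D x)
    have h2 : D.L = Real.exp (Real.log D.L) := (Real.exp_log (by linarith)).symm
    refine (D.hLf y (hin y hy)).trans ?_
    rw [h2]
    refine Real.exp_le_exp.2 ?_
    rw [← h2]
    calc Real.log D.L = Real.log D.L / (D.r0 / 2) ^ D.Qx * (D.r0 / 2) ^ D.Qx :=
          (div_mul_cancel₀ _ hw0.ne').symm
      _ ≤ Real.log D.L / (D.r0 / 2) ^ D.Qx * D.wt x := mul_le_mul_of_nonneg_left h1 hB0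
      _ ≤ _ := mul_le_mul_of_nonneg_right (by linarith) hwt

end Pool.Agent.H44.DP
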