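import Pool.Agent.H9.DP.Ann

/-!
# Module Parf: families: density of the good parameters (with parabolic points)

PROOF. `M = X.M`, `R_J = ((1/2)^J / ‖T‖) ^ (1/M)` (real power), so `‖T‖ R_J ^ M = (1/2)^J`, `R_(J+1) = θ R_J`, `θ = (1/2)^(1/M) < 1`. Let `ϑ > 0` and `J2` from `ann`. For small `ρ > 0` let `J` be the natural number with `(1/2)^(J+1) < ‖T‖ ρ ^ M ≤ (1/2)^J` (`exists_nat_pow_near_of_lt_one` or similar); `J → ∞` as `ρ → 0`, so `J ≥ J2`; `R_J ≤ 2 ρ` (`‖T‖ (2 ρ)^M ≥ 2 ‖T‖ ρ^M > (1/2)^J`). Every `u = ρ η`, `0 < ‖η‖ < 1`, has `0 < ‖ww u - vv c‖ = ‖T‖ ‖u‖ ^ M < (1/2)^J`, so `ww u ∈ An D c J'` for some `J' ≥ J`.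
`volume {η ∈ ball 0 1 | ¬ P (ρ η)} ≤ volume {0} + ∑_{J' ≥ J} ρ^(-2) volume {u | ww u ∈ An D c J' ∧ ¬ P u} ≤ ρ^(-2) ∑_{J' ≥ J} ofReal (ϑ R_(J')^2) ≤ ofReal (ϑ (R_J / ρ)^2 / (1 - θ^2)) ≤ ofReal (4 ϑ / (1 - θ^2))` (scaling: `Measure.addHaar_preimage_smul`). `ϑ` is arbitrary.
-/

set_option autoImplicit false

open Filter Topology Metric Set

namespace Pool.Agent.H44.DP

open MeasureTheory in
theorem par_pk (D : Ps) (X : Fam D) (hlim : LimS D X) (hcomp : CompS D X) :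
    Tendsto (fun ρ : ℝ => volume (ball (0 : ℂ) 1 ∩ {η : ℂ | ¬ X.PK ((ρ : ℂ) * η)}))
      (𝓝[>] 0) (𝓝 0) := by
  have hT0 : 0 < ‖X.T‖ := norm_pos_iff.mpr X.hT
  have hM0 : X.M ≠ 0 := by have := X.hM; omega
  have hMR : (0 : ℝ) < X.M := by exact_mod_cast X.hM
  obtain ⟨θ, hθ0, hθ1, hθM⟩ : ∃ θ : ℝ, 0 < θ ∧ θ < 1 ∧ θ ^ X.M = 1 / 2 := by
    refine ⟨(1 / 2 : ℝ) ^ (1 / (X.M : ℝ)), by positivity, ?_, ?_⟩
    · exact Real.rpow_lt_one (by norm_num) (by norm_num) (by positivity)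
    · rw [← Real.rpow_natCast, ← Real.rpow_mul (by norm_num), one_div_mul_cancel hMR.ne',
        Real.rpow_one]
  obtain ⟨a, ha0, haM⟩ : ∃ a : ℝ, 0 < a ∧ a ^ X.M = 1 / ‖X.T‖ := by
    refine ⟨(1 / ‖X.T‖) ^ (1 / (X.M : ℝ)), by positivity, ?_⟩
    rw [← Real.rpow_natCast, ← Real.rpow_mul (by positivity), one_div_mul_cancel hMR.ne',
      Real.rpow_one]
  have hRj : ∀ j : ℕ, ‖X.T‖ * (a * θ ^ j) ^ X.M = (1 / 2) ^ j := by
    intro j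
    rw [mul_pow, haM, ← pow_mul, mul_comm j X.M, pow_mul, hθM]
    field_simp
  have hθ2 : θ ^ 2 < 1 := pow_lt_one₀ hθ0.le hθ1 two_ne_zero
  set K : ℝ := 1 / (θ ^ 2 * (1 - θ ^ 2)) with hK
  have hK0 : 0 < K := by
    rw [hK]
    have : 0 < 1 - θ ^ 2 := by linarith
    positivity
  rw [ENNReal.tendsto_nhds_zero]
  intro ε hε
  obtain ⟨δ, hδ0, hδε⟩ := ENNReal.lt_iff_exists_nnreal_btwn.mp hε
  have hδ0' : (0 : ℝ) < δ := by exact_mod_cast hδ0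
  obtain ⟨J2, hJ2⟩ := ann D X hlim hcomp (ϑ := δ / K) (div_pos hδ0' hK0)
  have hpos2 : 0 < a * θ ^ J2 := by positivity
  have hev : ∀ᶠ ρ : ℝ in 𝓝[>] 0, ρ ∈ Ioo 0 (a * θ ^ J2) := Ioo_mem_nhdsGT hpos2
  filter_upwards [hev] with ρ hρ
  obtain ⟨hρ0, hρ1⟩ := hρ
  -- the first annulus
  obtain ⟨n, hn1, hn2⟩ := exists_nat_pow_near_of_lt_one (x := ρ / (a * θ ^ J2)) (y := θ)
    (div_pos hρ0 hpos2) ((div_le_one hpos2).mpr hρ1.le) hθ0 hθ1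
  set J := J2 + n with hJ
  have hJ1 : a * θ ^ (J + 1) < ρ := by
    rw [lt_div_iff₀ hpos2] at hn1
    calc a * θ ^ (J + 1) = θ ^ (n + 1) * (a * θ ^ J2) := by rw [hJ]; ring
      _ < ρ := hn1
  have hJρ : ρ ≤ a * θ ^ J := by
    rw [div_le_iff₀ hpos2] at hn2
    calc ρ ≤ θ ^ n * (a * θ ^ J2) := hn2
      _ = a * θ ^ J := by rw [hJ]; ring
  set A : ℕ → Set ℂ := fun j => {u : ℂ | X.ww u ∈ An D X.c j ∧ ¬ X.PK u} with hA
  have hsub : ball (0 : ℂ) 1 ∩ {η : ℂ | ¬ X.PK ((ρ : ℂ) * η)} ⊆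
      {0} ∪ ⋃ i : ℕ, (fun η : ℂ => ρ • η) ⁻¹' (A (J + i)) := by
    rintro η ⟨hη1, hη2⟩
    by_cases hη0 : η = 0
    · exact Or.inl hη0
    · right
      rw [mem_ball_zero_iff] at hη1
      have hηpos : 0 < ‖η‖ := norm_pos_iff.mpr hη0
      have h1 : ‖X.ww (ρ • η) - D.vv X.c‖ = ‖X.T‖ * (ρ * ‖η‖) ^ X.M := by
        unfold Fam.ww
        rw [add_sub_cancel_left, norm_mul, norm_pow, norm_smul, Real.norm_eq_abs, abs_of_pos hρ0]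
      have h2 : 0 < ‖X.T‖ * (ρ * ‖η‖) ^ X.M := by positivity
      have h3 : ‖X.T‖ * (ρ * ‖η‖) ^ X.M ≤ (1 / 2) ^ J := by
        rw [← hRj J]
        have h4 : ρ * ‖η‖ ≤ a * θ ^ J := by
          calc ρ * ‖η‖ ≤ ρ * 1 := by gcongr
            _ = ρ := mul_one _
            _ ≤ a * θ ^ J := hJρ
        gcongr
      have h2J : (0 : ℝ) < (1 / 2) ^ J := by positivity
      obtain ⟨i, hi1, hi2⟩ := exists_nat_pow_near_of_lt_one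
        (x := ‖X.T‖ * (ρ * ‖η‖) ^ X.M / (1 / 2) ^ J) (y := (1 / 2 : ℝ))
        (div_pos h2 h2J) ((div_le_one h2J).mpr h3) (by norm_num) (by norm_num)
      rw [lt_div_iff₀ h2J] at hi1
      rw [div_le_iff₀ h2J] at hi2
      refine mem_iUnion.mpr ⟨i, ?_, ?_⟩
      · constructor
        · rw [h1]
          calc (1 / 2 : ℝ) ^ (J + i + 1) = (1 / 2) ^ (i + 1) * (1 / 2) ^ J := by ring
            _ < _ := hi1
        · rw [h1]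
          calc ‖X.T‖ * (ρ * ‖η‖) ^ X.M ≤ (1 / 2) ^ i * (1 / 2) ^ J := hi2
            _ = (1 / 2 : ℝ) ^ (J + i) := by ring
      · have h5 : ρ • η = (ρ : ℂ) * η := Complex.real_smul
        change ¬ X.PK (ρ • η)
        rw [h5]
        exact hη2
  have hone : ∀ i : ℕ, volume ((fun η : ℂ => ρ • η) ⁻¹' (A (J + i))) ≤
      ENNReal.ofReal ((ρ ^ 2)⁻¹ * (δ / K * (a * θ ^ J) ^ 2) * (θ ^ 2) ^ i) := by
    intro i
    rw [Measure.addHaar_preimage_smul volume hρ0.ne', Complex.finrank_real_complex,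
      abs_of_pos (by positivity)]
    have h1 := hJ2 (J + i) (by omega) (a * θ ^ (J + i)) (by positivity) (hRj (J + i))
    refine (mul_le_mul_right h1 _).trans ?_
    rw [← ENNReal.ofReal_mul (by positivity)]
    refine ENNReal.ofReal_le_ofReal (le_of_eq ?_)
    rw [pow_add]
    ring
  have hgeo : HasSum (fun i : ℕ => (ρ ^ 2)⁻¹ * (δ / K * (a * θ ^ J) ^ 2) * (θ ^ 2) ^ i)
      ((ρ ^ 2)⁻¹ * (δ / K * (a * θ ^ J) ^ 2) * (1 - θ ^ 2)⁻¹) :=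
    (hasSum_geometric_of_lt_one (by positivity) hθ2).mul_left _
  calc volume (ball (0 : ℂ) 1 ∩ {η : ℂ | ¬ X.PK ((ρ : ℂ) * η)})
      ≤ volume ({0} ∪ ⋃ i : ℕ, (fun η : ℂ => ρ • η) ⁻¹' (A (J + i))) := measure_mono hsub
    _ ≤ volume {(0 : ℂ)} + volume (⋃ i : ℕ, (fun η : ℂ => ρ • η) ⁻¹' (A (J + i))) :=
        measure_union_le _ _
    _ = volume (⋃ i : ℕ, (fun η : ℂ => ρ • η) ⁻¹' (A (J + i))) := by
        rw [measure_singleton, zero_add]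
    _ ≤ ∑' i : ℕ, volume ((fun η : ℂ => ρ • η) ⁻¹' (A (J + i))) := measure_iUnion_le _
    _ ≤ ∑' i : ℕ, ENNReal.ofReal ((ρ ^ 2)⁻¹ * (δ / K * (a * θ ^ J) ^ 2) * (θ ^ 2) ^ i) :=
        ENNReal.tsum_le_tsum hone
    _ = ENNReal.ofReal ((ρ ^ 2)⁻¹ * (δ / K * (a * θ ^ J) ^ 2) * (1 - θ ^ 2)⁻¹) := by
        rw [← ENNReal.ofReal_tsum_of_nonneg (fun i => by positivity) hgeo.summable, hgeo.tsum_eq]
    _ ≤ ENNReal.ofReal δ := by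
        refine ENNReal.ofReal_le_ofReal ?_
        have h1 : 0 < 1 - θ ^ 2 := by linarith
        have h2 : (a * θ ^ J) ^ 2 * θ ^ 2 ≤ ρ ^ 2 := by
          have h3 : a * θ ^ (J + 1) = a * θ ^ J * θ := by ring
          rw [h3] at hJ1
          calc (a * θ ^ J) ^ 2 * θ ^ 2 = (a * θ ^ J * θ) ^ 2 := by ring
            _ ≤ ρ ^ 2 := pow_le_pow_left₀ (by positivity) hJ1.le 2
        have h3 : (ρ ^ 2)⁻¹ * (δ / K * (a * θ ^ J) ^ 2) * (1 - θ ^ 2)⁻¹ =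
            δ * ((a * θ ^ J) ^ 2 * θ ^ 2) / ρ ^ 2 := by
          rw [hK]
          field_simp
        rw [h3, div_le_iff₀ (by positivity)]
        gcongr
    _ = (δ : ENNReal) := ENNReal.ofReal_coe_nnreal
    _ ≤ ε := hδε.le

open MeasureTheory in
theorem par_lc (D : Ps) (X : Fam D) (hlim : LimS D X) (hcomp : CompS D X) :
    Tendsto (fun ρ : ℝ => volume (ball (0 : ℂ) 1 ∩
      {η : ℂ | η / (‖η‖ : ℂ) ∈ X.Kd ∧ ¬ X.P ((ρ : ℂ) * η)})) (𝓝[>] 0) (𝓝 0) := by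
  refine (par_pk D X hlim hcomp).congr' ?_
  filter_upwards [self_mem_nhdsWithin] with ρ hρ
  have hρ' : 0 < ρ := hρ
  congr 1
  ext η
  constructor
  · rintro ⟨h1, h2⟩
    refine ⟨h1, ?_⟩
    have h3 : ¬ (((ρ : ℂ) * η) / (‖(ρ : ℂ) * η‖ : ℂ) ∈ X.Kd → X.P ((ρ : ℂ) * η)) := h2
    have h4 : ((ρ : ℂ) * η) / (‖(ρ : ℂ) * η‖ : ℂ) = η / (‖η‖ : ℂ) := by
      rw [norm_mul, Complex.norm_real, Real.norm_of_nonneg hρ'.le, Complex.ofReal_mul]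
      exact mul_div_mul_left _ _ (by exact_mod_cast hρ'.ne')
    rw [h4, Classical.not_imp] at h3
    exact h3
  · rintro ⟨h1, h2, h3⟩
    refine ⟨h1, fun h => h3 (h ?_)⟩
    have h4 : ((ρ : ℂ) * η) / (‖(ρ : ℂ) * η‖ : ℂ) = η / (‖η‖ : ℂ) := by
      rw [norm_mul, Complex.norm_real, Real.norm_of_nonneg hρ'.le, Complex.ofReal_mul]
      exact mul_div_mul_left _ _ (by exact_mod_cast hρ'.ne')
    rw [h4]
    exact h2

end Pool.Agent.H44.DP
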