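import Pool.Agent.H9.DP.Ini
import Pool.Agent.H9.DP.Trk3
import Pool.Agent.H44.DP.SH

/-!
# Module PSH: families: shadowing of the phase

PROOF. `a0, c5` (`ini`), `n0 = ⌊c5 J1⌋₊`, `M = X.M`, `s = (1/2)^J1`. `b0 = min a0 (min (c5 log q / log 2) c6)`, `a1 = min (1/2) (b0 / 4)`. Given `u ∈ ball u0 (‖u0‖ λ)`, `λ = 2^(-c' J1)`, `w = ww u`, `w0 = ww u0`: `‖w0 - vv c‖ = ‖T‖ ‖u0‖ ^ M ≤ s` (`An`), `‖w - w0‖ = ‖T‖ ‖u ^ M - u0 ^ M‖ ≤ ‖T‖ ‖u0‖ ^ M 2^M λ ≤ 2^M 2^(-(1+c') J1)` (`|(1+x)^M - 1| ≤ (2^M) |x|` for `|x| ≤ 1`), `‖T‖ ‖u‖ ^ M ≤ 2 s` for large `J1`. `trk3` with `A' = 2^M`, `θ = 1/2`.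
(1) `n0 ≤ m`: `2^((1-κ) J1) ≤ ‖deriv (f^[m]) w0‖ ≤ L ^ m` (`Trk.big`, `it_bd`), `κ ≤ 1/2`, so `m log (L+1) ≥ J1 log 2 / 2 ≥ n0 log (L+1)`. (2) `ini`: `g i u ∈ thickening (δ/2) J` for `i ≤ n0`, and `‖g n0 u - f^[n0] w‖ ≤ E ‖deriv (f^[n0]) w‖`, `E = 2^(-(1+a0) J1)`. (3) `η = A ‖u‖ ^ M ≤ 2 A s / ‖T‖`. For `n0 < n + 1 ≤ m`: `‖deriv (f^[n+1]) w‖ ≥ ‖deriv (f^[n+1]) w0‖ / 2`, and `1 / ‖deriv (f^[n+1]) w0‖ ≤ C (q^(-(n+1)) + 2^(-c6 J1))` (`Trk.low`: the minimum is `≤ C ‖..‖`; `C > 0`). So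
`η ∑_{n0 ≤ n < m} 1/‖deriv (f^[n+1]) w‖ ≤ C' s (q^(-n0) + m 2^(-c6 J1)) ≤ C'' J1 2^(-(1 + b0) J1)` (`m ≤ C J1`, `q^(-n0) ≤ q 2^(-b0 J1)`). So `E' := E + η ∑ ≤ 2^(-(1 + 2 a1) J1) / 4` for large `J1` (`2 a1 ≤ b0 / 2`). (4) `sh` for `x_n = g n u`: `E' * S ≤ 2^(-(1+2a1) J1) 2^((1+ε) J1) ≤ ε1` for large `J1` (`ε < a1`). The step hypothesis of `sh` is `X.pert` with `X.step`.
Result: `‖g n u - f^[n] w‖ ≤ 2 E' ‖deriv (f^[n]) w‖ ≤ 4 E' ‖deriv (f^[n]) w0‖ ≤ 2^(-(1+2 a1) J1) Cz 2^((1+ε) J1) < δ/4` (`trk_up`) for `n0 ≤ n ≤ m`, so `g n u ∈ thickening (3δ/4) J`; for `n = m` the claim.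
-/

set_option autoImplicit false

open Filter Topology Metric Set

namespace Pool.Agent.H44.DP

theorem psh_pow {u u0 : ℂ} {l : ℝ} (hl : 0 ≤ l) (hl1 : l ≤ 1) (h : ‖u - u0‖ ≤ l * ‖u0‖) (k : ℕ) :
    ‖u ^ k - u0 ^ k‖ ≤ (2 ^ k - 1) * l * ‖u0‖ ^ k := by
  induction k with
  | zero => simp
  | succ k ih =>
    have h1 : u ^ (k + 1) - u0 ^ (k + 1) = u * (u ^ k - u0 ^ k) + (u - u0) * u0 ^ k := by ring
    have h2 : ‖u‖ ≤ 2 * ‖u0‖ := by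
      have h3 : ‖u‖ ≤ ‖u - u0‖ + ‖u0‖ := by
        have := norm_add_le (u - u0) u0
        rwa [sub_add_cancel] at this
      have h4 : l * ‖u0‖ ≤ 1 * ‖u0‖ := mul_le_mul_of_nonneg_right hl1 (norm_nonneg _)
      linarith
    have h5 : (0 : ℝ) ≤ (2 ^ k - 1) * l * ‖u0‖ ^ k := le_trans (norm_nonneg _) ih
    rw [h1]
    calc ‖u * (u ^ k - u0 ^ k) + (u - u0) * u0 ^ k‖
        ≤ ‖u * (u ^ k - u0 ^ k)‖ + ‖(u - u0) * u0 ^ k‖ := norm_add_le _ _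
      _ = ‖u‖ * ‖u ^ k - u0 ^ k‖ + ‖u - u0‖ * ‖u0‖ ^ k := by rw [norm_mul, norm_mul, norm_pow]
      _ ≤ (2 * ‖u0‖) * ((2 ^ k - 1) * l * ‖u0‖ ^ k) + (l * ‖u0‖) * ‖u0‖ ^ k := by
          refine add_le_add ?_ ?_
          · exact mul_le_mul h2 ih (norm_nonneg _) (by positivity)
          · exact mul_le_mul_of_nonneg_right h (by positivity)
      _ = (2 ^ (k + 1) - 1) * l * ‖u0‖ ^ (k + 1) := by ring

theorem psh_ev {β η : ℝ} (K : ℝ) (hβ : 0 < β) (hη : 0 < η) :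
    ∃ N : ℕ, ∀ J ≥ N, (1 + K * (J : ℝ)) * (2 : ℝ) ^ (-(β * (J : ℝ))) ≤ η := by
  have h0 : (0 : ℝ) ≤ (2 : ℝ) ^ (-β) := by positivity
  have h1 : (2 : ℝ) ^ (-β) < 1 := Real.rpow_lt_one_of_one_lt_of_neg (by norm_num) (by linarith)
  have h2 : ∀ J : ℕ, (2 : ℝ) ^ (-(β * (J : ℝ))) = ((2 : ℝ) ^ (-β)) ^ J := by
    intro J
    rw [← Real.rpow_natCast, ← Real.rpow_mul (by norm_num)]
    congr 1
    ring
  have h3 : Tendsto (fun J : ℕ => (1 + K * (J : ℝ)) * (2 : ℝ) ^ (-(β * (J : ℝ)))) atTop (𝓝 0) := by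
    have h4 := tendsto_self_mul_const_pow_of_lt_one h0 h1
    have h5 := tendsto_pow_atTop_nhds_zero_of_lt_one h0 h1
    have h6 := h5.add (h4.const_mul K)
    rw [mul_zero, add_zero] at h6
    refine h6.congr fun J => ?_
    rw [h2]
    ring
  exact eventually_atTop.1 (h3.eventually (eventually_le_nhds hη))

theorem psh (D : Ps) (X : Fam D) {c6 : ℝ} (hc6 : 0 < c6) : ∃ a1 : ℝ, 0 < a1 ∧ a1 ≤ 1 / 2 ∧
    ∀ κ ε c' C : ℝ, κ ≤ 1 / 2 → 0 < ε → ε < c' → ε < a1 → ∃ J2 : ℕ, ∀ J1 ≥ J2,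
      ∀ (ηj : ℝ) (u0 : ℂ) (m : ℕ), X.ww u0 ∈ An D X.c J1 → Trk D ηj (X.ww u0) J1 C κ ε c6 m →
        ∀ u ∈ ball u0 (‖u0‖ * (2 : ℝ) ^ (-(c' * (J1 : ℝ)))),
          u ∈ ball (0 : ℂ) X.ρ0 ∧ (∀ i ≤ m, X.g i u ∈ thickening (3 * D.δ / 4) D.J) ∧
          ‖X.g m u - D.f^[m] (X.ww u)‖ ≤
            (2 : ℝ) ^ (-((1 + a1) * (J1 : ℝ))) * ‖deriv (D.f^[m]) (X.ww u0)‖ := by
  obtain ⟨a0, c5, ha0, hc5, hc5L, J0, H0⟩ := ini D X
  have hq := D.hq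
  have hL := D.hL
  have hδ := D.hδ
  have hlog2 : 0 < Real.log 2 := Real.log_pos (by norm_num)
  have hlogq : 0 < Real.log D.q := Real.log_pos hq
  have hlogL : 0 < Real.log (D.L + 1) := Real.log_pos (by linarith)
  obtain ⟨b0, hb0, hb0a, hb0q, hb06⟩ : ∃ b0 : ℝ, 0 < b0 ∧ b0 ≤ a0 ∧
      b0 ≤ c5 * Real.log D.q / Real.log 2 ∧ b0 ≤ c6 :=
    ⟨min a0 (min (c5 * Real.log D.q / Real.log 2) c6),
      lt_min ha0 (lt_min (by positivity) hc6), min_le_left _ _,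
      (min_le_right _ _).trans (min_le_left _ _), (min_le_right _ _).trans (min_le_right _ _)⟩
  obtain ⟨a1, ha1, ha12, ha1b⟩ : ∃ a1 : ℝ, 0 < a1 ∧ a1 ≤ 1 / 2 ∧ a1 ≤ b0 / 4 :=
    ⟨min (1 / 2) (b0 / 4), lt_min (by norm_num) (by positivity), min_le_left _ _,
      min_le_right _ _⟩
  refine ⟨a1, ha1, ha12, ?_⟩
  intro κ ε c' C hκ hε hεc hεa
  have hM := X.hM
  have h2M : (0 : ℝ) < 2 ^ X.M := by positivity
  have h2M1 : (1 : ℝ) ≤ 2 ^ X.M := one_le_pow₀ (by norm_num)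
  have hA := X.hA
  have hTn : 0 < ‖X.T‖ := norm_pos_iff.2 X.hT
  obtain ⟨J3, H3⟩ := trk3 D κ ε c' C c6 (2 ^ X.M) (1 / 2) hε hεc h2M1 (by norm_num)
  obtain ⟨Cz, hCz, H4⟩ := trk_up D
  obtain ⟨ε1, hε1, H5⟩ := sh D
  have hc' : 0 < c' := by linarith
  -- the constant
  obtain ⟨Cp, hCp1, hCp⟩ : ∃ Cp : ℝ, 1 ≤ Cp ∧ C ≤ Cp := ⟨max C 1, le_max_right _ _, le_max_left _ _⟩
  obtain ⟨K, hK⟩ : ∃ K : ℝ, K = 4 * X.A * Cp ^ 2 / ‖X.T‖ := ⟨_, rfl⟩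
  have hK0 : 0 ≤ K := by rw [hK]; positivity
  obtain ⟨N1, hN1⟩ := psh_ev 0 hc' (show (0 : ℝ) < 1 / 2 ^ X.M by positivity)
  obtain ⟨N2, hN2⟩ := psh_ev K (show 0 < b0 / 2 by positivity) (show (0 : ℝ) < 1 / 4 by norm_num)
  obtain ⟨N3, hN3⟩ := psh_ev 0 (show 0 < 2 * a1 - ε by linarith) hε1
  obtain ⟨N4, hN4⟩ := psh_ev 0 (show 0 < 2 * a1 - ε by linarith)
    (show (0 : ℝ) < D.δ / (4 * Cz) by positivity)
  refine ⟨J0 + J3 + N1 + N2 + N3 + N4, ?_⟩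
  intro J1 hJ1 ηj u0 m hw0 hT u hu
  have E1 := hN1 J1 (by omega)
  have E2 := hN2 J1 (by omega)
  have E3 := hN3 J1 (by omega)
  have E4 := hN4 J1 (by omega)
  clear hN1 hN2 hN3 hN4
  rw [zero_mul, add_zero, one_mul] at E1 E3 E4
  have hJ0 : (0 : ℝ) ≤ J1 := Nat.cast_nonneg _
  -- notation
  obtain ⟨lam, hlam⟩ : ∃ lam : ℝ, lam = (2 : ℝ) ^ (-(c' * (J1 : ℝ))) := ⟨_, rfl⟩
  have hlam0 : 0 < lam := by rw [hlam]; positivity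
  rw [← hlam] at E1 hu
  have hlam1 : lam ≤ 1 := by
    refine le_trans E1 ?_
    rw [div_le_one (by positivity)]
    exact h2M1
  have hlam2 : 2 ^ X.M * lam ≤ 1 := by
    rw [le_div_iff₀ h2M] at E1
    linarith
  obtain ⟨s, hs⟩ : ∃ s : ℝ, s = (2 : ℝ) ^ (-(J1 : ℝ)) := ⟨_, rfl⟩
  have hs0 : 0 < s := by rw [hs]; positivity
  have hs2 : (1 / 2 : ℝ) ^ J1 = s := by
    rw [hs, Real.rpow_neg (by norm_num), Real.rpow_natCast, one_div, inv_pow]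
  have hww : ∀ u : ℂ, X.ww u = D.vv X.c + X.T * u ^ X.M := fun u => rfl
  have hTM : ‖X.ww u0 - D.vv X.c‖ = ‖X.T‖ * ‖u0‖ ^ X.M := by
    rw [hww, add_sub_cancel_left, norm_mul, norm_pow]
  have hTM2 : ‖X.T‖ * ‖u0‖ ^ X.M ≤ s := by
    have hA' := hw0
    unfold An at hA'
    rw [mem_setOf_eq, hTM, hs2] at hA'
    exact hA'.2
  have hnear : ‖u - u0‖ ≤ lam * ‖u0‖ := by
    rw [mem_ball, dist_eq_norm] at hu
    rw [mul_comm lam]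
    exact hu.le
  have hpw : ‖u ^ X.M - u0 ^ X.M‖ ≤ 2 ^ X.M * lam * ‖u0‖ ^ X.M := by
    refine le_trans (psh_pow hlam0.le hlam1 hnear X.M) ?_
    have h1 : 0 ≤ lam * ‖u0‖ ^ X.M := by positivity
    nlinarith
  have huM : ‖X.T‖ * ‖u‖ ^ X.M ≤ 2 * s := by
    have h1 : ‖u‖ ^ X.M ≤ 2 * ‖u0‖ ^ X.M := by
      have h2 := norm_add_le (u ^ X.M - u0 ^ X.M) (u0 ^ X.M)
      rw [sub_add_cancel, norm_pow u, norm_pow u0] at h2
      have h3 : 0 ≤ ‖u0‖ ^ X.M := by positivity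
      have h4 : 2 ^ X.M * lam * ‖u0‖ ^ X.M ≤ 1 * ‖u0‖ ^ X.M :=
        mul_le_mul_of_nonneg_right hlam2 h3
      linarith
    calc ‖X.T‖ * ‖u‖ ^ X.M ≤ ‖X.T‖ * (2 * ‖u0‖ ^ X.M) := mul_le_mul_of_nonneg_left h1 hTn.le
      _ = 2 * (‖X.T‖ * ‖u0‖ ^ X.M) := by ring
      _ ≤ 2 * s := by linarith
  have hph : ‖X.ww u - X.ww u0‖ ≤ 2 ^ X.M * (2 : ℝ) ^ (-((1 + c') * (J1 : ℝ))) := by
    have h1 : X.ww u - X.ww u0 = X.T * (u ^ X.M - u0 ^ X.M) := by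
      rw [hww, hww]
      ring
    have h2 : (2 : ℝ) ^ (-((1 + c') * (J1 : ℝ))) = s * lam := by
      rw [hs, hlam, ← Real.rpow_add (by norm_num)]
      congr 1
      ring
    rw [h1, norm_mul, h2]
    calc ‖X.T‖ * ‖u ^ X.M - u0 ^ X.M‖ ≤ ‖X.T‖ * (2 ^ X.M * lam * ‖u0‖ ^ X.M) :=
          mul_le_mul_of_nonneg_left hpw hTn.le
      _ = 2 ^ X.M * ((‖X.T‖ * ‖u0‖ ^ X.M) * lam) := by ring
      _ ≤ 2 ^ X.M * (s * lam) := by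
          refine mul_le_mul_of_nonneg_left ?_ h2M.le
          exact mul_le_mul_of_nonneg_right hTM2 hlam0.le
  -- the initial time
  obtain ⟨n0, hn0⟩ : ∃ n0 : ℕ, n0 = ⌊c5 * (J1 : ℝ)⌋₊ := ⟨_, rfl⟩
  obtain ⟨hu0, hg0, hi0⟩ := H0 J1 (by omega) u (by rw [hs2]; exact huM)
  rw [← hn0] at hg0 hi0
  have hn0le : (n0 : ℝ) ≤ c5 * J1 := by rw [hn0]; exact Nat.floor_le (by positivity)
  have hn0lt : c5 * J1 < n0 + 1 := by rw [hn0]; exact Nat.lt_floor_add_one _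
  have hmemδ : ∀ n ≤ m, D.f^[n] (X.ww u0) ∈ thickening D.δ D.J := fun n hn =>
    thickening_mono (by linarith) _ (hT.mem n hn)
  have hn0m : n0 ≤ m := by
    have h1 : (2 : ℝ) ^ ((1 - κ) * (J1 : ℝ)) ≤ (D.L + 1) ^ m := by
      refine hT.big.trans ((it_bd D fun i hi => hmemδ i hi.le).trans ?_)
      exact pow_le_pow_left₀ (by linarith) (by linarith) m
    have h2 := Real.log_le_log (by positivity) h1
    rw [Real.log_rpow (by norm_num), Real.log_pow] at h2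
    have h3 : (n0 : ℝ) * Real.log (D.L + 1) ≤ J1 * (Real.log 2 / 4) := by
      calc (n0 : ℝ) * Real.log (D.L + 1) ≤ (c5 * J1) * Real.log (D.L + 1) :=
            mul_le_mul_of_nonneg_right hn0le hlogL.le
        _ = J1 * (c5 * Real.log (D.L + 1)) := by ring
        _ ≤ J1 * (Real.log 2 / 4) := mul_le_mul_of_nonneg_left hc5L hJ0
    have h4 : (J1 : ℝ) * (Real.log 2 / 4) ≤ (1 - κ) * J1 * Real.log 2 := by
      have h5 : 0 ≤ (J1 : ℝ) * Real.log 2 := by positivity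
      nlinarith
    have h5 : (n0 : ℝ) ≤ m := by
      refine le_of_mul_le_mul_right ?_ hlogL
      linarith
    exact_mod_cast h5
  obtain ⟨T1, T2, T3⟩ := H3 J1 (by omega) ηj (X.ww u0) m hT (X.ww u) hph
  -- derivatives
  have hD0 : ∀ n ≤ m, 0 < ‖deriv (D.f^[n]) (X.ww u0)‖ := by
    intro n hn
    refine norm_pos_iff.2 (it_ne' D fun i hi => ⟨hmemδ i (by omega), hT.ncr i (by omega)⟩)
  have hlo : ∀ n ≤ m, ‖deriv (D.f^[n]) (X.ww u0)‖ ≤ 2 * ‖deriv (D.f^[n]) (X.ww u)‖ := by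
    intro n hn
    have h1 := (T1 n hn).2
    have h2 := norm_add_le (deriv (D.f^[n]) (X.ww u0) - deriv (D.f^[n]) (X.ww u))
      (deriv (D.f^[n]) (X.ww u))
    rw [sub_add_cancel, norm_sub_rev] at h2
    linarith
  have hhi : ∀ n ≤ m, ‖deriv (D.f^[n]) (X.ww u)‖ ≤ 3 / 2 * ‖deriv (D.f^[n]) (X.ww u0)‖ := by
    intro n hn
    have h1 := (T1 n hn).2
    have h2 := norm_add_le (deriv (D.f^[n]) (X.ww u) - deriv (D.f^[n]) (X.ww u0))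
      (deriv (D.f^[n]) (X.ww u0))
    rw [sub_add_cancel] at h2
    linarith
  -- the perturbation
  obtain ⟨η, hη⟩ : ∃ η : ℝ, η = X.A * ‖u‖ ^ X.M := ⟨_, rfl⟩
  have hη0 : 0 ≤ η := by rw [hη]; positivity
  have hη1 : η ≤ 2 * X.A * s / ‖X.T‖ := by
    rw [hη, le_div_iff₀ hTn]
    calc X.A * ‖u‖ ^ X.M * ‖X.T‖ = X.A * (‖X.T‖ * ‖u‖ ^ X.M) := by ring
      _ ≤ X.A * (2 * s) := mul_le_mul_of_nonneg_left huM (by linarith)
      _ = 2 * X.A * s := by ring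
  obtain ⟨S, hS⟩ : ∃ S : ℝ, S = ∑ n ∈ Finset.Ico n0 m, 1 / ‖deriv (D.f^[n + 1]) (X.ww u)‖ :=
    ⟨_, rfl⟩
  have hpb : ∀ n, n0 ≤ n → n < m → 1 / ‖deriv (D.f^[n + 1]) (X.ww u)‖ ≤
      2 * Cp * (2 : ℝ) ^ (-(b0 * (J1 : ℝ))) := by
    intro n h1 h2
    have h3 := hT.low (n + 1) (by omega)
    have h4 : (2 : ℝ) ^ (b0 * (J1 : ℝ)) ≤ min (D.q ^ (n + 1)) ((2 : ℝ) ^ (c6 * (J1 : ℝ))) := by
      refine le_min ?_ ?_
      · have h5 : (2 : ℝ) ^ (b0 * (J1 : ℝ)) ≤ D.q ^ (c5 * (J1 : ℝ)) := by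
          rw [Real.rpow_def_of_pos (by norm_num : (0 : ℝ) < 2),
            Real.rpow_def_of_pos (by linarith : (0 : ℝ) < D.q)]
          apply Real.exp_le_exp.2
          have h6 : b0 * Real.log 2 ≤ c5 * Real.log D.q := by
            rwa [le_div_iff₀ hlog2] at hb0q
          nlinarith
        refine h5.trans ?_
        rw [← Real.rpow_natCast]
        refine Real.rpow_le_rpow_of_exponent_le hq.le ?_
        have : (n0 : ℝ) + 1 ≤ ((n + 1 : ℕ) : ℝ) := by exact_mod_cast (by omega : n0 + 1 ≤ n + 1)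
        linarith
      · exact Real.rpow_le_rpow_of_exponent_le (by norm_num)
          (mul_le_mul_of_nonneg_right hb06 hJ0)
    have h7 := hD0 (n + 1) (by omega)
    have h8 := hlo (n + 1) (by omega)
    have h9 : C * ‖deriv (D.f^[n + 1]) (X.ww u0)‖ ≤ Cp * ‖deriv (D.f^[n + 1]) (X.ww u0)‖ :=
      mul_le_mul_of_nonneg_right hCp h7.le
    have h10 : 0 < ‖deriv (D.f^[n + 1]) (X.ww u)‖ := by linarith
    have h11 : (2 : ℝ) ^ (-(b0 * (J1 : ℝ))) * (2 : ℝ) ^ (b0 * (J1 : ℝ)) = 1 := by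
      rw [← Real.rpow_add (by norm_num)]
      simp
    rw [div_le_iff₀ h10]
    have h12 : (2 : ℝ) ^ (b0 * (J1 : ℝ)) ≤ 2 * Cp * ‖deriv (D.f^[n + 1]) (X.ww u)‖ := by
      have h13 : Cp * ‖deriv (D.f^[n + 1]) (X.ww u0)‖ ≤
          Cp * (2 * ‖deriv (D.f^[n + 1]) (X.ww u)‖) :=
        mul_le_mul_of_nonneg_left h8 (by linarith)
      linarith
    have h14 : 0 < (2 : ℝ) ^ (-(b0 * (J1 : ℝ))) := by positivity
    calc (1 : ℝ) = (2 : ℝ) ^ (-(b0 * (J1 : ℝ))) * (2 : ℝ) ^ (b0 * (J1 : ℝ)) := h11.symm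
      _ ≤ (2 : ℝ) ^ (-(b0 * (J1 : ℝ))) * (2 * Cp * ‖deriv (D.f^[n + 1]) (X.ww u)‖) :=
          mul_le_mul_of_nonneg_left h12 h14.le
      _ = _ := by ring
  have hS0 : 0 ≤ S := by
    rw [hS]
    exact Finset.sum_nonneg fun k _ => by positivity
  have hSb : S ≤ 2 * Cp ^ 2 * J1 * (2 : ℝ) ^ (-(b0 * (J1 : ℝ))) := by
    have h1 : S ≤ (m : ℝ) * (2 * Cp * (2 : ℝ) ^ (-(b0 * (J1 : ℝ)))) := by
      rw [hS]
      calc ∑ n ∈ Finset.Ico n0 m, 1 / ‖deriv (D.f^[n + 1]) (X.ww u)‖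
          ≤ ∑ _n ∈ Finset.Ico n0 m, 2 * Cp * (2 : ℝ) ^ (-(b0 * (J1 : ℝ))) :=
            Finset.sum_le_sum fun n hn => by
              rw [Finset.mem_Ico] at hn
              exact hpb n hn.1 hn.2
        _ = ((m - n0 : ℕ) : ℝ) * (2 * Cp * (2 : ℝ) ^ (-(b0 * (J1 : ℝ)))) := by
            rw [Finset.sum_const, Nat.card_Ico, nsmul_eq_mul]
        _ ≤ _ := by
            refine mul_le_mul_of_nonneg_right ?_ (by positivity)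
            exact_mod_cast Nat.sub_le m n0
    have h2 : (m : ℝ) ≤ Cp * J1 := hT.le.trans (mul_le_mul_of_nonneg_right hCp hJ0)
    refine h1.trans ?_
    calc (m : ℝ) * (2 * Cp * (2 : ℝ) ^ (-(b0 * (J1 : ℝ))))
        ≤ (Cp * J1) * (2 * Cp * (2 : ℝ) ^ (-(b0 * (J1 : ℝ)))) :=
          mul_le_mul_of_nonneg_right h2 (by positivity)
      _ = _ := by ring
  obtain ⟨E, hE⟩ : ∃ E : ℝ, E = (2 : ℝ) ^ (-((1 + a0) * (J1 : ℝ))) := ⟨_, rfl⟩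
  have hE0 : 0 ≤ E := by rw [hE]; positivity
  rw [← hE] at hi0
  have hEb : E ≤ s * (2 : ℝ) ^ (-(b0 * (J1 : ℝ))) := by
    rw [hE, hs, ← Real.rpow_add (by norm_num)]
    refine Real.rpow_le_rpow_of_exponent_le (by norm_num) ?_
    have := mul_le_mul_of_nonneg_right hb0a hJ0
    linarith
  have hE' : E + η * S ≤ 1 / 4 * (2 : ℝ) ^ (-((1 + 2 * a1) * (J1 : ℝ))) := by
    have h1 : η * S ≤ s * (K * J1) * (2 : ℝ) ^ (-(b0 * (J1 : ℝ))) := by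
      calc η * S ≤ (2 * X.A * s / ‖X.T‖) * (2 * Cp ^ 2 * J1 * (2 : ℝ) ^ (-(b0 * (J1 : ℝ)))) :=
            mul_le_mul hη1 hSb hS0 (by positivity)
        _ = _ := by rw [hK]; ring
    have h2 : E + η * S ≤ s * ((1 + K * J1) * (2 : ℝ) ^ (-(b0 * (J1 : ℝ)))) := by
      calc E + η * S ≤ s * (2 : ℝ) ^ (-(b0 * (J1 : ℝ))) +
            s * (K * J1) * (2 : ℝ) ^ (-(b0 * (J1 : ℝ))) := add_le_add hEb h1
        _ = _ := by ring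
    refine h2.trans ?_
    have h3 : (2 : ℝ) ^ (-(b0 * (J1 : ℝ))) =
        (2 : ℝ) ^ (-(b0 / 2 * (J1 : ℝ))) * (2 : ℝ) ^ (-(b0 / 2 * (J1 : ℝ))) := by
      rw [← Real.rpow_add (by norm_num)]
      congr 1
      ring
    have h4 : s * (2 : ℝ) ^ (-(b0 / 2 * (J1 : ℝ))) ≤ (2 : ℝ) ^ (-((1 + 2 * a1) * (J1 : ℝ))) := by
      rw [hs, ← Real.rpow_add (by norm_num)]
      refine Real.rpow_le_rpow_of_exponent_le (by norm_num) ?_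
      nlinarith
    calc s * ((1 + K * J1) * (2 : ℝ) ^ (-(b0 * (J1 : ℝ))))
        = ((1 + K * J1) * (2 : ℝ) ^ (-(b0 / 2 * (J1 : ℝ)))) *
            (s * (2 : ℝ) ^ (-(b0 / 2 * (J1 : ℝ)))) := by rw [h3]; ring
      _ ≤ 1 / 4 * (2 : ℝ) ^ (-((1 + 2 * a1) * (J1 : ℝ))) :=
          mul_le_mul E2 h4 (by positivity) (by norm_num)
  have hEe : ∀ x : ℝ, x ≤ 4 * (2 : ℝ) ^ ((1 + ε) * (J1 : ℝ)) → 0 ≤ x →
      (E + η * S) * x ≤ (2 : ℝ) ^ (-((2 * a1 - ε) * (J1 : ℝ))) := by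
    intro x h1 h2
    calc (E + η * S) * x ≤ (1 / 4 * (2 : ℝ) ^ (-((1 + 2 * a1) * (J1 : ℝ)))) *
          (4 * (2 : ℝ) ^ ((1 + ε) * (J1 : ℝ))) := mul_le_mul hE' h1 h2 (by positivity)
      _ = (2 : ℝ) ^ (-((1 + 2 * a1) * (J1 : ℝ))) * (2 : ℝ) ^ ((1 + ε) * (J1 : ℝ)) := by ring
      _ = (2 : ℝ) ^ (-((2 * a1 - ε) * (J1 : ℝ))) := by
          rw [← Real.rpow_add (by norm_num)]
          congr 1
          ring
  have hSS : (E + η * S) *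
      (∑ n ∈ Finset.Ico n0 m, ‖deriv (D.f^[n]) (X.ww u)‖ / D.zt (D.f^[n] (X.ww u))) ≤ ε1 := by
    refine (hEe _ ?_ ?_).trans E3
    · refine le_trans ?_ T3
      rw [Finset.range_eq_Ico]
      refine Finset.sum_le_sum_of_subset_of_nonneg (Finset.Ico_subset_Ico (Nat.zero_le _) le_rfl)
        fun k _ _ => div_nonneg (norm_nonneg _) (zt_nonneg D _)
    · exact Finset.sum_nonneg fun k _ => div_nonneg (norm_nonneg _) (zt_nonneg D _)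
  have key := H5 (X.ww u) n0 m (fun n => X.g n u) η E hn0m
    (fun n hn => ⟨(T1 n hn.le).1, T2 n hn⟩) hη0 hE0 hi0
    (fun n _ _ hx => by
      show ‖X.g (n + 1) u - D.f (X.g n u)‖ ≤ η
      rw [X.step, hη]
      exact X.pert u hu0 _ hx)
    (by rw [← hS]; exact hSS)
  rw [← hS] at key
  have key2 : ∀ n, n0 ≤ n → n ≤ m → ‖X.g n u - D.f^[n] (X.ww u)‖ ≤
      3 / 4 * (2 : ℝ) ^ (-((1 + 2 * a1) * (J1 : ℝ))) * ‖deriv (D.f^[n]) (X.ww u0)‖ := by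
    intro n h1 h2
    refine (key n h1 h2).trans ?_
    calc 2 * (E + η * S) * ‖deriv (D.f^[n]) (X.ww u)‖
        ≤ 2 * (1 / 4 * (2 : ℝ) ^ (-((1 + 2 * a1) * (J1 : ℝ)))) *
            (3 / 2 * ‖deriv (D.f^[n]) (X.ww u0)‖) := by
          refine mul_le_mul ?_ (hhi n h2) (norm_nonneg _) (by positivity)
          exact mul_le_mul_of_nonneg_left hE' (by norm_num)
      _ = _ := by ring
  refine ⟨hu0, ?_, ?_⟩
  · intro i hi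
    rcases le_total i n0 with h | h
    · exact thickening_mono (by linarith) _ (hg0 i h)
    · have h1 := key2 i h hi
      have h2 := H4 ηj (X.ww u0) J1 C κ ε c6 m hε hT i hi
      have h3 : ‖X.g i u - D.f^[i] (X.ww u)‖ < D.δ / 4 := by
        have h4 : 3 / 4 * (2 : ℝ) ^ (-((1 + 2 * a1) * (J1 : ℝ))) * ‖deriv (D.f^[i]) (X.ww u0)‖ ≤
            3 / 4 * (2 : ℝ) ^ (-((1 + 2 * a1) * (J1 : ℝ))) *
              (Cz * (2 : ℝ) ^ ((1 + ε) * (J1 : ℝ))) :=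
          mul_le_mul_of_nonneg_left h2 (by positivity)
        have h5 : 3 / 4 * (2 : ℝ) ^ (-((1 + 2 * a1) * (J1 : ℝ))) *
            (Cz * (2 : ℝ) ^ ((1 + ε) * (J1 : ℝ))) =
            3 / 4 * Cz * (2 : ℝ) ^ (-((2 * a1 - ε) * (J1 : ℝ))) := by
          have h6 : (2 : ℝ) ^ (-((2 * a1 - ε) * (J1 : ℝ))) =
              (2 : ℝ) ^ (-((1 + 2 * a1) * (J1 : ℝ))) * (2 : ℝ) ^ ((1 + ε) * (J1 : ℝ)) := by
            rw [← Real.rpow_add (by norm_num)]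
            congr 1
            ring
          rw [h6]
          ring
        have h7 : 3 / 4 * Cz * (2 : ℝ) ^ (-((2 * a1 - ε) * (J1 : ℝ))) ≤
            3 / 4 * Cz * (D.δ / (4 * Cz)) := mul_le_mul_of_nonneg_left E4 (by positivity)
        have h8 : 3 / 4 * Cz * (D.δ / (4 * Cz)) = 3 / 16 * D.δ := by
          have : Cz ≠ 0 := by linarith
          field_simp
          ring
        linarith
      have h9 := th_add (T1 i hi).1 h3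
      exact thickening_mono (by linarith) _ h9
  · refine (key2 m hn0m le_rfl).trans ?_
    refine mul_le_mul_of_nonneg_right ?_ (norm_nonneg _)
    have h1 : (2 : ℝ) ^ (-((1 + 2 * a1) * (J1 : ℝ))) ≤ (2 : ℝ) ^ (-((1 + a1) * (J1 : ℝ))) := by
      refine Real.rpow_le_rpow_of_exponent_le (by norm_num) ?_
      nlinarith
    have h2 : 0 < (2 : ℝ) ^ (-((1 + 2 * a1) * (J1 : ℝ))) := by positivity
    linarith

end Pool.Agent.H44.DP
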