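import Pool.Agent.H9.DP.Paf
import Pool.Agent.H44.DN.IMG

/-!
# Module Strt: families: the disc at the time `m`, relatively small and relatively near the Julia set
-/

set_option autoImplicit false

open Filter Topology Metric Set

namespace Pool.Agent.H44.DP

/-- polynomial against exponential -/
theorem st_poly (P β : ℝ) (p : ℕ) (hβ : 0 < β) :
    ∃ N : ℕ, ∀ J ≥ N, P * ((J : ℝ) + 1) ^ p ≤ (2 : ℝ) ^ (β * (J : ℝ)) := by
  have hr : (1 : ℝ) < (2 : ℝ) ^ β := Real.one_lt_rpow (by norm_num) hβ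
  have hQ : 0 < |P| * 2 ^ p + 1 := by positivity
  have h1 := (isLittleO_pow_const_const_pow_of_one_lt (R := ℝ) p hr).def
    (c := 1 / (|P| * 2 ^ p + 1)) (by positivity)
  obtain ⟨N, hN⟩ := eventually_atTop.1 (h1.and (eventually_ge_atTop 1))
  refine ⟨N, fun n hn => ?_⟩
  obtain ⟨hn2, hn1⟩ := hN n hn
  have hn1' : (1 : ℝ) ≤ (n : ℝ) := by exact_mod_cast hn1
  have hn0 : (0 : ℝ) ≤ (n : ℝ) ^ p := by positivity
  have hrn : (0 : ℝ) < ((2 : ℝ) ^ β) ^ n := by positivity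
  rw [Real.norm_of_nonneg hn0, Real.norm_of_nonneg hrn.le] at hn2
  have h2 : (2 : ℝ) ^ (β * (n : ℝ)) = ((2 : ℝ) ^ β) ^ n := by
    rw [Real.rpow_mul (by norm_num), Real.rpow_natCast]
  rw [h2]
  have h3 : ((n : ℝ) + 1) ^ p ≤ (2 * (n : ℝ)) ^ p :=
    pow_le_pow_left₀ (by positivity) (by linarith) p
  have h4 : P * ((n : ℝ) + 1) ^ p ≤ |P| * (2 * (n : ℝ)) ^ p :=
    mul_le_mul (le_abs_self P) h3 (by positivity) (abs_nonneg P)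
  rw [mul_pow, ← mul_assoc] at h4
  have h5 : |P| * 2 ^ p * (n : ℝ) ^ p ≤ (|P| * 2 ^ p + 1) * (n : ℝ) ^ p := by
    linarith
  have h6 : (|P| * 2 ^ p + 1) * (n : ℝ) ^ p ≤ ((2 : ℝ) ^ β) ^ n := by
    have h7 := mul_le_mul_of_nonneg_left hn2 hQ.le
    have h8 : (|P| * 2 ^ p + 1) * (1 / (|P| * 2 ^ p + 1) * ((2 : ℝ) ^ β) ^ n) =
        ((2 : ℝ) ^ β) ^ n := by
      field_simp
    linarith
  linarith

theorem strt (D : Ps) (X : Fam D) {c6 : ℝ} (hc6 : 0 < c6) : ∃ a1 : ℝ, 0 < a1 ∧ a1 ≤ 1 / 2 ∧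
    ∀ κ ε c' C r1 δ1 η : ℝ, κ ≤ 1 / 2 → 0 < ε → ε < c' → c' < a1 → 0 < r1 → 0 < δ1 → 0 < η →
      η ≤ D.ϑ / 4 → η ≤ δ1 / 4 → ∃ J2 : ℕ, ∀ J1 ≥ J2,
      ∀ (u0 : ℂ) (m : ℕ), X.ww u0 ∈ An D X.c J1 → Trk D η (X.ww u0) J1 C κ ε c6 m →
        ∃ ρ1 : ℝ, 0 < ρ1 ∧ ρ1 ≤ ‖u0‖ / 2 ∧ ball u0 ρ1 ⊆ ball 0 X.ρ0 ∧
          (∀ i ≤ m, ∀ u ∈ ball u0 ρ1, X.g i u ∈ thickening (3 * D.δ / 4) D.J) ∧
          DifferentiableOn ℂ (X.g m) (ball u0 ρ1) ∧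
          X.g m u0 ∈ D.V1 ∧ X.g m u0 ∈ thickening δ1 D.J ∧
          (∀ u ∈ ball u0 ρ1, ‖X.g m u - X.g m u0‖ ≤ r1 * D.dd (X.g m u0)) ∧
          ∀ N : ℕ, ball (X.g m u0) ((2 : ℝ) ^ (-((κ + 2 * c') * (J1 : ℝ))) / (2 * 2 ^ N)) ⊆
            X.g m '' ball u0 (ρ1 / 2 ^ N) := by
  obtain ⟨a1, ha1, ha12, H1⟩ := paf D X hc6
  obtain ⟨b1, hb1, hb12, H2⟩ := psh D X hc6
  obtain ⟨Cz, hCz, H3⟩ := trk_up D
  refine ⟨min a1 b1, lt_min ha1 hb1, (min_le_left _ _).trans ha12, ?_⟩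
  intro κ ε c' C r1 δ1 η hκ hε hεc hca hr1 hδ1 hη hηϑ hηδ
  have hca1 : c' < a1 := lt_of_lt_of_le hca (min_le_left _ _)
  have hcb1 : c' < b1 := lt_of_lt_of_le hca (min_le_right _ _)
  obtain ⟨J3, H1⟩ := H1 κ ε c' C 1 hκ hε hεc hca1 one_pos
  obtain ⟨J4, H2⟩ := H2 κ ε c' C hκ hε hεc (by linarith)
  have hϑ := D.hϑ
  have hϑ1 := D.hϑ1
  have hδ := D.hδ
  -- constants
  obtain ⟨β, hβ⟩ : ∃ β, β = (b1 - ε) / 2 := ⟨_, rfl⟩
  have hβ0 : 0 < β := by rw [hβ]; linarith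
  obtain ⟨γ, hγ⟩ : ∃ γ, γ = (c' - ε) / 4 := ⟨_, rfl⟩
  have hγ0 : 0 < γ := by rw [hγ]; linarith
  obtain ⟨N1, hN1⟩ := st_poly C β D.N6 hβ0
  obtain ⟨N2, hN2⟩ := st_poly C γ D.N6 hγ0
  obtain ⟨N3, hN3⟩ := paf_ev hβ0 (show (0 : ℝ) < η / (4 * Cz) by positivity)
  obtain ⟨N4, hN4⟩ := paf_ev hγ0 (show (0 : ℝ) < r1 * (2 / 5) by positivity)
  refine ⟨J3 + J4 + N1 + N2 + N3 + N4, ?_⟩
  intro J1 hJ1 u0 m hw0 hT
  obtain ⟨ρ1, a, hρ1, hρ1u, hsub, ha, hmem, hdiff, hder, haup, halo⟩ :=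
    H1 J1 (by omega) η u0 m hw0 hT
  have hu0 : 0 < ‖u0‖ := by linarith
  have hP := H2 J1 (by omega) η u0 m hw0 hT u0 (mem_ball_self (by positivity))
  obtain ⟨-, -, hP⟩ := hP
  have hup := H3 η (X.ww u0) J1 C κ ε c6 m hε hT m le_rfl
  have E1 := hN1 J1 (by omega)
  have E2 := hN2 J1 (by omega)
  have E3 := hN3 J1 (by omega)
  have E4 := hN4 J1 (by omega)
  clear hN1 hN2 hN3 hN4 H1 H2
  obtain ⟨x, hx⟩ : ∃ x : ℝ, x = (2 : ℝ) ^ (-(β * (J1 : ℝ))) := ⟨_, rfl⟩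
  obtain ⟨y', hy'⟩ : ∃ y' : ℝ, y' = (2 : ℝ) ^ (-(γ * (J1 : ℝ))) := ⟨_, rfl⟩
  have hx0 : 0 < x := by rw [hx]; positivity
  have hy0 : 0 < y' := by rw [hy']; positivity
  have hxi : (2 : ℝ) ^ (β * (J1 : ℝ)) = x⁻¹ := by
    rw [hx, Real.rpow_neg (by norm_num), inv_inv]
  have hyi : (2 : ℝ) ^ (γ * (J1 : ℝ)) = y'⁻¹ := by
    rw [hy', Real.rpow_neg (by norm_num), inv_inv]
  rw [← hx] at E3
  rw [← hy'] at E4
  rw [hxi] at E1
  rw [hyi] at E2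
  obtain ⟨z0, hz0⟩ : ∃ z0, z0 = D.f^[m] (X.ww u0) := ⟨_, rfl⟩
  obtain ⟨z1, hz1⟩ : ∃ z1, z1 = X.g m u0 := ⟨_, rfl⟩
  have hfar := hT.far
  have hnj := hT.nj m le_rfl
  rw [← hz0] at hfar hnj hP
  rw [← hz1] at hP
  have hdd0 := dd_nonneg D z0
  have hddx : x ≤ D.dd z0 := by
    have h1 : C * ((J1 : ℝ) + 1) ^ D.N6 * D.dd z0 ≤ x⁻¹ * D.dd z0 :=
      mul_le_mul_of_nonneg_right E1 hdd0
    have h2 := mul_le_mul_of_nonneg_left (hfar.trans h1) hx0.le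
    rw [mul_one, ← mul_assoc, mul_inv_cancel₀ hx0.ne', one_mul] at h2
    exact h2
  have hddy : y' ≤ D.dd z0 := by
    have h1 : C * ((J1 : ℝ) + 1) ^ D.N6 * D.dd z0 ≤ y'⁻¹ * D.dd z0 :=
      mul_le_mul_of_nonneg_right E2 hdd0
    have h2 := mul_le_mul_of_nonneg_left (hfar.trans h1) hy0.le
    rw [mul_one, ← mul_assoc, mul_inv_cancel₀ hy0.ne', one_mul] at h2
    exact h2
  -- the distance at the time `m`
  have he1 : ‖z1 - z0‖ ≤ η / 4 * D.dd z0 := by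
    have h1 : (2 : ℝ) ^ (-((1 + b1) * (J1 : ℝ))) * ‖deriv (D.f^[m]) (X.ww u0)‖ ≤ Cz * (x * x) := by
      calc (2 : ℝ) ^ (-((1 + b1) * (J1 : ℝ))) * ‖deriv (D.f^[m]) (X.ww u0)‖
          ≤ (2 : ℝ) ^ (-((1 + b1) * (J1 : ℝ))) * (Cz * (2 : ℝ) ^ ((1 + ε) * (J1 : ℝ))) :=
            mul_le_mul_of_nonneg_left hup (by positivity)
        _ = Cz * ((2 : ℝ) ^ (-((1 + b1) * (J1 : ℝ))) * (2 : ℝ) ^ ((1 + ε) * (J1 : ℝ))) := by ring
        _ = Cz * (x * x) := by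
            rw [hx, ← Real.rpow_add (by norm_num), ← Real.rpow_add (by norm_num), hβ]
            congr 2
            ring
    have h2 : Cz * (x * x) ≤ η / 4 * x := by
      have h3 : Cz * (x * x) = (Cz * x) * x := by ring
      rw [h3]
      apply mul_le_mul_of_nonneg_right _ hx0.le
      rw [le_div_iff₀ (by positivity)] at E3
      linarith
    exact hP.trans (h1.trans (h2.trans (mul_le_mul_of_nonneg_left hddx (by positivity))))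
  have hη16 : η ≤ 1 / 16 := by linarith
  have hdd1 : D.dd z0 / 2 ≤ D.dd z1 := by
    have h1 := (abs_le.1 (dd_lip D z1 z0)).1
    have h2 : η / 4 * D.dd z0 ≤ 1 / 4 * D.dd z0 := mul_le_mul_of_nonneg_right (by linarith) hdd0
    linarith
  obtain ⟨y, hyJ, hyP, hyz⟩ := hnj
  have hddyp : 0 < D.dd y := dd_pos D hyP
  have hzy : ‖z1 - y‖ ≤ 2 * η * D.dd y := by
    have h1 : D.dd z0 ≤ 2 * D.dd y := by
      have h2 := (abs_le.1 (dd_lip D z0 y)).2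
      have h3 : η * D.dd y ≤ 1 * D.dd y := mul_le_mul_of_nonneg_right (by linarith) hddyp.le
      linarith
    have h2 : ‖z1 - y‖ ≤ ‖z1 - z0‖ + ‖z0 - y‖ := by
      have h3 := norm_add_le (z1 - z0) (z0 - y)
      rw [sub_add_sub_cancel] at h3
      exact h3
    have h3 : η / 4 * D.dd z0 ≤ η / 4 * (2 * D.dd y) := mul_le_mul_of_nonneg_left h1 (by positivity)
    have h4 : 0 < η * D.dd y := by positivity
    linarith
  have hI := DN.img (h := X.g m) (x := u0) (a := a) (ρ := ρ1) (ρ' := ρ1) hρ1 le_rfl ha hdiff hder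
  refine ⟨ρ1, hρ1, hρ1u, hsub, hmem, hdiff, ?_, ?_, ?_, ?_⟩
  · rw [← hz1]
    refine D.hVJ y hyJ hyP z1 (lt_of_le_of_lt hzy ?_)
    have h1 : D.dd y = dS D.Pa y := rfl
    rw [← h1]
    exact mul_lt_mul_of_pos_right (by linarith) hddyp
  · rw [← hz1, mem_thickening_iff]
    refine ⟨y, hyJ, ?_⟩
    rw [dist_eq_norm]
    have h1 := dd_le_one D y
    have h2 : 2 * η * D.dd y ≤ 2 * η * 1 := mul_le_mul_of_nonneg_left h1 (by positivity)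
    linarith
  · intro u hu
    rw [← hz1]
    have h1 := hI.1 u hu
    rw [mem_ball, dist_eq_norm] at hu
    have h2 : 5 / 4 * ‖a‖ * ‖u - u0‖ ≤ 5 / 4 * (‖a‖ * ρ1) := by
      have h3 : ‖a‖ * ‖u - u0‖ ≤ ‖a‖ * ρ1 := mul_le_mul_of_nonneg_left hu.le (norm_nonneg _)
      linarith
    have h3 : (2 : ℝ) ^ (-((c' - ε) / 2 * (J1 : ℝ))) = y' * y' := by
      rw [hy', ← Real.rpow_add (by norm_num), hγ]
      congr 1
      ring
    rw [one_mul, h3] at haup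
    have h4 : 5 / 4 * (y' * y') ≤ r1 * (y' / 2) := by
      have h5 : y' * y' ≤ r1 * (2 / 5) * y' := mul_le_mul_of_nonneg_right E4 hy0.le
      linarith
    have h6 : r1 * (y' / 2) ≤ r1 * D.dd z1 := mul_le_mul_of_nonneg_left (by linarith) hr1.le
    rw [← hz1] at h1
    linarith
  · intro N
    have h2N : (1 : ℝ) ≤ 2 ^ N := one_le_pow₀ (by norm_num)
    have hI2 := DN.img (h := X.g m) (x := u0) (a := a) (ρ := ρ1) (ρ' := ρ1 / 2 ^ N) (by positivity)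
      (div_le_self hρ1.le h2N) ha hdiff hder
    refine (ball_subset_ball ?_).trans hI2.2
    have h4 : ‖a‖ * (ρ1 / 2 ^ N) / 2 = ‖a‖ * ρ1 / (2 * 2 ^ N) := by
      field_simp
    rw [h4]
    exact div_le_div_of_nonneg_right halo (by positivity)

end Pool.Agent.H44.DP
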