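import Pool.Agent.H9.DP.PBas
import Pool.Agent.H44.DP.STG2

/-!
# Module Trk1: one stage of a good orbit (with parabolic points: stages which end near `Pa` or `Cl` are arrivals)

PROOF. `K0` large (`stg_na`), `K ≥ K0`; `J, c1, C1` (`sn_spec`). `z0 ≤ r0`, `C z0 ^ μ ≤ 1/4` for all multiplicities `μ`. Notation: `n = sn c j`, `t = (1/2)^j`, `d = DD c n`, `c' = nc c j`, `μ = M c'`, `u = f^[n] w`, `Kb = Kn K n`. As in BREC: `‖u - c'‖ ≤ 4 Kb t d` (`‖w - vv c‖ ≤ t`). For `i ≤ n`: `f^[i] w ∈ thickening (δ/4) J`, `(7/8) DD c i ≤ ‖deriv (f^[i]) w‖ ≤ (9/8) DD c i`; for `i < n`: `zt (f^[i] w) ≥ ee c i / 2` (`stg_na`). Sum over `i < n`: `≤ (9/4) ∑ DD/ee ≤ (9/4) (2 / K) / t ≤ 5 * 2^j` (`stg_sum`).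
(arrival) If `‖u - c'‖ ≥ z`: `d * t ≥ z / (4 Kb)`. (passage) Otherwise, and if `‖u - c'‖ ≥ lam t d`: `s = ‖u - c'‖ > 0`, `< r0`. Times `n ≤ i < n + τ c'`: points in `thickening (δ/4) J` (`D.p4`), not in `Cr`, `‖deriv (f^[i]) w‖ / zt ≤ (9/8) d C / s ≤ 2 C d / (lam t d) = 2 C 2^j / lam` (`D.p3`, `it_add`). `w' = f^[n + τ c'] w`: `s^μ / C ≤ ‖w' - vv c'‖ ≤ C s^μ ≤ 1/4`: `w' ∈ An c' j'` for a unique `j' ≥ 1`, `(1/2)^j' ≥ s ^ μ / C`, `(1/2)^(j'+1) ≤ C s^μ`.
`Λ' = ‖deriv (f^[n + τ c']) w‖` is between `(7/8) d s^(μ-1) / C` and `(9/8) C d s^(μ - 1)`; with `s ≤ 4 Kb t d`: `Λ' ≥ (7/8) d s^μ / (C s) ≥ s ^ μ / (5 C Kb t) ≥ 2^j (1/2)^(j'+1) / (5 C^2 Kb)`; with `s ≥ lam t d`: `Λ' ≤ (9/8) C s^μ d / s ≤ 2 C s^μ / (lam t) ≤ 2 C^2 2^j (1/2)^j' / lam`. `s^μ ≥ (lam t d)^μ ≥ lam^μ t q^n / (C Kb ^ μ)` (`stg_hit`): `(1/2)^j' ≥ lam^μ q^n (1/2)^j / (C^2 Kb^μ)`.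
Derivatives at the times `n ≤ i ≤ n + τ c'`: `≥ Λ' / L^τ` (`it_add`, `it_bd`).
-/

set_option autoImplicit false

open Filter Topology Metric Set

namespace Pool.Agent.H44.DP

private theorem trk1_Kn {K : ℝ} (hK : 1 ≤ K) (n : ℕ) : 1 ≤ Kn K n := by
  have h1 : (1 : ℝ) ≤ ((n : ℝ) + 1) ^ 2 := one_le_pow₀ (by
    have : (0 : ℝ) ≤ n := Nat.cast_nonneg _
    linarith)
  unfold Kn
  nlinarith

/-- the orbit of the terminal value is far from the parabolic points -/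
theorem dd_ce6 (D : Ps) {c : ℂ} (hc : c ∈ D.Ce) (n : ℕ) :
    1 ≤ D.C * ((n : ℝ) + 1) ^ D.N6 * D.dd (D.f^[n] (D.vv c)) := by
  rcases dd_ex D (D.f^[n] (D.vv c)) with h | ⟨p, hp, h⟩
  · rw [h, mul_one]
    refine one_le_mul_of_one_le_of_one_le D.hC (one_le_pow₀ ?_)
    have : (0 : ℝ) ≤ n := Nat.cast_nonneg _
    linarith
  · rw [h]
    exact D.ce6 c hc p (pa_S D hp) (fun h1 => D.hcp p (ce_Cr D h1) hp) n

/-- the passage is far from the parabolic points -/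
theorem dd_pass (D : Ps) {c : ℂ} (hc : c ∈ D.Ce) {z : ℂ} (hz : z ∈ ball c D.r0) {j : ℕ}
    (hj : j ≤ D.τ c) : 1 ≤ D.C * D.dd (D.f^[j] z) := by
  rcases dd_ex D (D.f^[j] z) with h | ⟨p, hp, h⟩
  · rw [h, mul_one]
    exact D.hC
  · rw [h]
    rcases lt_or_eq_of_le hj with h1 | h1
    · exact D.p5 c (ce_Cr D hc) z hz j h1 p hp
    · rw [h1]
      exact D.p6 c hc z hz p (pa_S D hp)

/-- the passage follows the critical orbit -/
theorem pass_dist (D : Ps) {c : ℂ} (hc : c ∈ D.Ce) {z : ℂ} (hz : z ∈ ball c D.r0) {j : ℕ}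
    (hj : j ≤ D.τ c) : ‖D.f^[j] z - D.f^[j] c‖ ≤ D.L ^ j * ‖z - c‖ := by
  have hth : ∀ w ∈ ball c D.r0, ∀ a ≤ D.τ c, D.f^[a] w ∈ thickening D.δ D.J := fun w hw a ha =>
    thickening_mono (by linarith [D.hδ]) _ (D.p4 c (ce_Cr D hc) w hw a ha)
  exact (convex_ball c D.r0).norm_image_sub_le_of_norm_deriv_le
    (fun w hw => it_diff D fun i hi => D.hU (hth w hw i (by omega)))
    (fun w hw => it_bd D fun i hi => hth w hw i (by omega)) (mem_ball_self D.hr0) hz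

theorem nj_pass (D : Ps) {η : ℝ} {c : ℂ} (hc : c ∈ D.Ce) {z : ℂ} (hz : z ∈ ball c D.r0) {j : ℕ}
    (hj : j ≤ D.τ c) (h : D.C * D.L ^ j * ‖z - c‖ ≤ η) : Nj D η (D.f^[j] z) := by
  refine ⟨D.f^[j] c, it_J D (D.hSJ c (ce_S D hc)) j, (D.hτp c hc j).1, ?_⟩
  have h1 := dd_pass D hc (mem_ball_self D.hr0) hj
  have h2 := pass_dist D hc hz hj
  have hC := D.hC
  have h3 : 0 ≤ D.L ^ j * ‖z - c‖ := by
    have := D.hL
    positivity
  have h4 : 0 ≤ D.dd (D.f^[j] c) := dd_nonneg D _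
  calc ‖D.f^[j] z - D.f^[j] c‖ ≤ (D.L ^ j * ‖z - c‖) * 1 := by rw [mul_one]; exact h2
    _ ≤ (D.L ^ j * ‖z - c‖) * (D.C * D.dd (D.f^[j] c)) := mul_le_mul_of_nonneg_left h1 h3
    _ = (D.C * D.L ^ j * ‖z - c‖) * D.dd (D.f^[j] c) := by ring
    _ ≤ η * D.dd (D.f^[j] c) := mul_le_mul_of_nonneg_right h h4

/-- the passage near the critical point -/
private theorem trk1_u (D : Ps) {c' u : ℂ} (hc' : c' ∈ D.Cr) (hu : u ∈ ball c' D.r0)
    (hs : 0 < ‖u - c'‖) :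
    (∀ a < D.τ c', D.f^[a] u ∉ D.S) ∧
    (∀ a < D.τ c', ‖deriv (D.f^[a]) u‖ / D.zt (D.f^[a] u) ≤ D.C / ‖u - c'‖) := by
  have hC0 : 0 < D.C := by linarith [D.hC]
  have hth : ∀ a ≤ D.τ c', D.f^[a] u ∈ thickening D.δ D.J := fun a ha =>
    thickening_mono (by linarith [D.hδ]) _ (D.p4 c' hc' u hu a ha)
  have h1 : deriv (D.f^[D.τ c']) u ≠ 0 := by
    intro h
    have h2 := (D.p2 c' hc' u hu).2
    rw [h, norm_zero, mul_zero] at h2
    have : 0 < ‖u - c'‖ ^ (D.M c' - 1) := by positivity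
    linarith
  have h2 : ∀ a ≤ D.τ c', deriv (D.f^[a]) u ≠ 0 := by
    intro a ha h
    apply h1
    obtain ⟨b, hb⟩ := Nat.exists_eq_add_of_le ha
    rw [hb, it_add D, h, mul_zero]
    intro i hi
    exact D.hU (hth i (by omega))
  have h3 : ∀ a < D.τ c', 0 < D.zt (D.f^[a] u) := by
    intro a ha
    have h4 := D.p3 c' hc' u hu a ha
    have h5 : 0 < ‖deriv (D.f^[a]) u‖ * ‖u - c'‖ := mul_pos (norm_pos_iff.2 (h2 a ha.le)) hs
    have h6 : 0 < D.C * D.zt (D.f^[a] u) := h5.trans_le h4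
    exact (mul_pos_iff_of_pos_left hC0).1 h6
  refine ⟨fun a ha h => ?_, fun a ha => ?_⟩
  · have h4 := h3 a ha
    rw [zt_zero D h] at h4
    exact lt_irrefl _ h4
  · rw [div_le_div_iff₀ (h3 a ha) hs]
    exact D.p3 c' hc' u hu a ha

theorem trk1 (D : Ps) {η : ℝ} (hη : 0 < η) : ∃ K0 z0 : ℝ, 1 ≤ K0 ∧ 0 < z0 ∧ z0 ≤ D.r0 ∧
    ∀ K : ℝ, K0 ≤ K →
    ∃ (A : ℝ) (J : ℕ), 1 ≤ A ∧ ∀ (lam z : ℝ), 0 < lam → lam ≤ 1 → 0 < z → z ≤ z0 →
    ∀ c ∈ D.Ce, ∀ j ≥ J, ∀ w ∈ An D c j, 1 ≤ sn D K c j ∧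
      (∀ i ≤ sn D K c j, D.f^[i] w ∈ thickening (D.δ / 4) D.J ∧ D.q ^ i ≤ A * ‖deriv (D.f^[i]) w‖) ∧
      (∀ i < sn D K c j, D.f^[i] w ∉ D.S ∧ Nj D η (D.f^[i] w) ∧
        1 ≤ A * ((i : ℝ) + 1) ^ D.N6 * D.dd (D.f^[i] w)) ∧
      (∑ i ∈ Finset.range (sn D K c j), ‖deriv (D.f^[i]) w‖ / D.zt (D.f^[i] w) ≤ A * 2 ^ j) ∧
      (z ≤ ‖D.f^[sn D K c j] w - nc D K c j‖ ∨ nc D K c j ∉ D.Ce →
        z * 2 ^ j ≤ A * (((sn D K c j : ℝ) + 1) ^ D.N6 * Kn K (sn D K c j)) *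
          ‖deriv (D.f^[sn D K c j - 1]) w‖) ∧
      (nc D K c j ∈ D.Ce → ‖D.f^[sn D K c j] w - nc D K c j‖ < z →
        lam * ((1 / 2) ^ j * D.DD c (sn D K c j)) ≤ ‖D.f^[sn D K c j] w - nc D K c j‖ →
        ∃ (k j' : ℕ), k = sn D K c j + D.τ (nc D K c j) ∧ D.f^[k] w ∈ An D (nc D K c j) j' ∧
          (∀ i ≤ k, D.f^[i] w ∈ thickening (D.δ / 4) D.J ∧ Nj D η (D.f^[i] w)) ∧
          1 ≤ A * D.dd (D.f^[k] w) ∧ (∀ i < k, D.f^[i] w ∉ D.S) ∧
          (∑ i ∈ Finset.range k, ‖deriv (D.f^[i]) w‖ / D.zt (D.f^[i] w) ≤ A / lam * 2 ^ j) ∧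
          (1 / 2) ^ j' * (2 : ℝ) ^ j ≤ A * Kn K (sn D K c j) * ‖deriv (D.f^[k]) w‖ ∧
          lam * ‖deriv (D.f^[k]) w‖ ≤ A * ((1 / 2) ^ j' * (2 : ℝ) ^ j) ∧
          lam ^ D.M (nc D K c j) * D.q ^ (sn D K c j) * (1 / 2) ^ j ≤
            A * (Kn K (sn D K c j)) ^ D.M (nc D K c j) * (1 / 2) ^ j' ∧
          ∀ i, sn D K c j ≤ i → i ≤ k → ‖deriv (D.f^[k]) w‖ ≤ A * ‖deriv (D.f^[i]) w‖) := by
  obtain ⟨K0, hK01, HK⟩ := stg_na D
  have hC := D.hC
  have hC0 : 0 < D.C := by linarith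
  have hL := D.hL
  have hq := D.hq
  have hr0 := D.hr0
  set τm : ℕ := ∑ c ∈ D.Cr, D.τ c with hτm
  have hτle : ∀ c ∈ D.Cr, D.τ c ≤ τm := fun c hc =>
    Finset.single_le_sum (f := fun c => D.τ c) (fun _ _ => Nat.zero_le _) hc
  obtain ⟨Z, hZ, HZ⟩ := zt_dd D
  have hLm' : (1 : ℝ) ≤ D.L ^ τm := one_le_pow₀ hL
  obtain ⟨K2, hK2⟩ : ∃ K2 : ℝ, K2 = 9 / 8 * Z * (1 / η + 2) := ⟨_, rfl⟩
  have hz1e : 0 < 1 / (4 * D.C) := by positivity
  have hz2e : 0 < η / (D.C * D.L ^ τm) := by positivity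
  refine ⟨max K0 K2, min (min D.r0 (1 / (4 * D.C))) (η / (D.C * D.L ^ τm)),
    hK01.trans (le_max_left _ _), lt_min (lt_min hr0 hz1e) hz2e,
    (min_le_left _ _).trans (min_le_left _ _), fun K hKK0 => ?_⟩
  have hKK : K0 ≤ K := (le_max_left _ _).trans hKK0
  have hKK2 : K2 ≤ K := (le_max_right _ _).trans hKK0
  have hK1 : 1 ≤ K := hK01.trans hKK
  obtain ⟨J, c1, C1, -, -, HJ⟩ := sn_spec D hK1
  have hLm : (1 : ℝ) ≤ D.L ^ τm := one_le_pow₀ hL
  have hCC : D.C ≤ D.C ^ 2 := by nlinarith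
  have hτm0 : (0 : ℝ) ≤ τm := Nat.cast_nonneg _
  obtain ⟨A, hA⟩ : ∃ A : ℝ, A = 5 + 7 * D.C ^ 2 + 2 * D.C * τm + D.L ^ τm +
    4 * D.C * D.L := ⟨_, rfl⟩
  have hp0 : 0 ≤ 2 * D.C * τm := by positivity
  have hp1 : 4 * D.C ≤ 4 * D.C * D.L := le_mul_of_one_le_right (by linarith) hL
  have hC2 : 0 ≤ D.C ^ 2 := by positivity
  have hA5 : 5 + 2 * D.C * τm ≤ A := by rw [hA]; linarith
  have hA7 : 7 * D.C ^ 2 ≤ A := by rw [hA]; linarith
  have hAL : D.L ^ τm ≤ A := by rw [hA]; linarith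
  have hACL : 4 * D.C * D.L ≤ A := by
    rw [hA]
    have : (0 : ℝ) ≤ D.L ^ τm := by positivity
    linarith
  have hAL4 : 4 * D.L ≤ A := by
    refine le_trans ?_ hACL
    nlinarith
  have hAC : 2 * D.C ≤ A := by linarith
  have hA0 : 0 < A := by linarith
  refine ⟨A, J, by linarith, fun lam z hlam hlam1 hz hzz c hc j hj w hw => ?_⟩
  obtain ⟨hS, hn1, -, -⟩ := HJ c hc j hj
  obtain ⟨c', hc'def⟩ : ∃ c', c' = nc D K c j := ⟨_, rfl⟩
  rw [← hc'def]
  have hc' : c' ∈ D.S := by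
    rw [hc'def]
    exact nr_mem D _
  have hee : ‖D.f^[sn D K c j] (D.vv c) - c'‖ = D.ee c (sn D K c j) := by
    rw [hc'def]
    exact (nr_eq D _).symm
  generalize sn D K c j = n at *
  clear hc'def
  have ht0 : (0 : ℝ) < (1 / 2) ^ j := by positivity
  have ht2 : (1 / 2 : ℝ) ^ j * 2 ^ j = 1 := by
    rw [← mul_pow]
    norm_num
  obtain ⟨t, ht⟩ : ∃ t : ℝ, t = (1 / 2) ^ j := ⟨_, rfl⟩
  obtain ⟨T, hT⟩ : ∃ T : ℝ, T = 2 ^ j := ⟨_, rfl⟩
  have hT0 : 0 < T := by rw [hT]; positivity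
  obtain ⟨hw1, hw2⟩ := hw
  have hw3 : (1 / 2 : ℝ) ^ (j + 1) = t / 2 := by rw [ht, pow_succ]; ring
  rw [hw3] at hw1
  rw [← ht] at hS ht0 ht2 hw2 ⊢
  rw [← hT] at ht2 ⊢
  have hwb : w ∈ ball (D.vv c) (2 * t) := by
    rw [mem_ball, dist_eq_norm]
    linarith
  have H := HK K hKK c hc t ht0 n hn1 hS w hwb
  have hJp : ∀ i, D.f^[i] (D.vv c) ∈ D.J := fun i => it_J D (it_J D (D.hSJ c (ce_S D hc)) (D.τ c)) i
  have hDD0 : ∀ i, 0 ≤ D.DD c i := fun i => norm_nonneg _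
  have hDDq : ∀ i, D.q ^ i ≤ D.C * D.DD c i := fun i => D.ce1 c hc i
  have hDDp : ∀ i, 0 < D.DD c i := by
    intro i
    have h1 : 0 < D.q ^ i := by positivity
    exact (mul_pos_iff_of_pos_left hC0).1 (h1.trans_le (hDDq i))
  have hlo : ∀ i ≤ n, 7 / 8 * D.DD c i ≤ ‖deriv (D.f^[i]) w‖ := by
    intro i hi
    have h1 := (H i hi).2.1
    have h2 : D.DD c i ≤ ‖deriv (D.f^[i]) w‖ + ‖deriv (D.f^[i]) w - deriv (D.f^[i]) (D.vv c)‖ := by
      have h3 := norm_sub_norm_le (deriv (D.f^[i]) (D.vv c)) (deriv (D.f^[i]) w)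
      rw [norm_sub_rev] at h3
      unfold Ps.DD
      linarith
    linarith
  have hup : ∀ i ≤ n, ‖deriv (D.f^[i]) w‖ ≤ 9 / 8 * D.DD c i := by
    intro i hi
    have h1 := (H i hi).2.1
    have h2 : ‖deriv (D.f^[i]) w‖ ≤ D.DD c i + ‖deriv (D.f^[i]) w - deriv (D.f^[i]) (D.vv c)‖ := by
      have h3 := norm_sub_norm_le (deriv (D.f^[i]) w) (deriv (D.f^[i]) (D.vv c))
      unfold Ps.DD
      linarith
    linarith
  have heep : ∀ i, 0 < D.ee c i := by
    intro i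
    apply zt_pos
    unfold Ps.vv
    rw [← Function.iterate_add_apply]
    exact D.hτe c hc _ (Nat.le_add_left _ _)
  have hncr : ∀ i < n, D.f^[i] w ∉ D.S := by
    intro i hi h
    have h1 := ((H i hi.le).2.2.2 hi).1
    rw [zt_zero D h] at h1
    linarith [heep i]
  have hsum : ∑ i ∈ Finset.range n, ‖deriv (D.f^[i]) w‖ / D.zt (D.f^[i] w) ≤ 9 / 2 * T := by
    have h1 : ∀ i ∈ Finset.range n, ‖deriv (D.f^[i]) w‖ / D.zt (D.f^[i] w) ≤
        9 / 4 * (D.DD c i / D.ee c i) := by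
      intro i hi
      rw [Finset.mem_range] at hi
      have h2 := ((H i hi.le).2.2.2 hi).1
      have h3 := heep i
      have h4 := hup i hi.le
      calc ‖deriv (D.f^[i]) w‖ / D.zt (D.f^[i] w) ≤ (9 / 8 * D.DD c i) / (D.ee c i / 2) :=
            div_le_div₀ (by have := hDD0 i; positivity) h4 (by positivity) h2
        _ = 9 / 4 * (D.DD c i / D.ee c i) := by field_simp; ring
    have h2 := stg_sum D hK1 hc ht0 hS
    have h3 : (2 : ℝ) / K ≤ 2 := div_le_self (by norm_num) hK1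
    have h4 : ∑ i ∈ Finset.range n, D.DD c i / D.ee c i ≤ 2 * T := by
      have h5 : t * ∑ i ∈ Finset.range n, D.DD c i / D.ee c i ≤ t * (2 * T) := by
        calc _ ≤ 2 / K := h2
          _ ≤ 2 := h3
          _ = 2 * (t * T) := by rw [ht2, mul_one]
          _ = t * (2 * T) := by ring
      exact le_of_mul_le_mul_left h5 ht0
    calc _ ≤ ∑ i ∈ Finset.range n, 9 / 4 * (D.DD c i / D.ee c i) := Finset.sum_le_sum h1
      _ = 9 / 4 * ∑ i ∈ Finset.range n, D.DD c i / D.ee c i := by rw [Finset.mul_sum]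
      _ ≤ 9 / 4 * (2 * T) := by linarith
      _ = 9 / 2 * T := by ring
  have hKb := trk1_Kn hK1 n
  obtain ⟨Kb, hKbd⟩ : ∃ Kb, Kb = Kn K n := ⟨_, rfl⟩
  obtain ⟨d, hd⟩ : ∃ d, d = D.DD c n := ⟨_, rfl⟩
  have hdp : 0 < d := hd ▸ hDDp n
  have hdlo : 7 / 8 * d ≤ ‖deriv (D.f^[n]) w‖ := hd ▸ hlo n le_rfl
  have hdup : ‖deriv (D.f^[n]) w‖ ≤ 9 / 8 * d := hd ▸ hup n le_rfl
  rw [← hKbd] at hKb ⊢
  rw [← hd]
  have hsu : ‖D.f^[n] w - c'‖ ≤ 3 * (Kb * (t * d)) := by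
    have h1 := (H n le_rfl).2.2.1
    have h2 := hS.hit
    rw [← hee, ← hKbd, ← hd] at h2
    rw [← hd] at h1
    have h3 : ‖deriv (D.f^[n]) (D.vv c) * (w - D.vv c)‖ ≤ d * t := by
      rw [norm_mul]
      have : ‖deriv (D.f^[n]) (D.vv c)‖ = d := by rw [hd]; rfl
      rw [this]
      exact mul_le_mul_of_nonneg_left hw2 hdp.le
    have h4 : 1 / 8 * d * ‖w - D.vv c‖ ≤ 1 / 8 * d * t :=
      mul_le_mul_of_nonneg_left hw2 (by positivity)
    have h5 : D.f^[n] w - c' = (D.f^[n] w - D.f^[n] (D.vv c) - deriv (D.f^[n]) (D.vv c) *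
        (w - D.vv c)) + deriv (D.f^[n]) (D.vv c) * (w - D.vv c) + (D.f^[n] (D.vv c) - c') := by
      ring
    have h6 := norm_add₃_le (a := D.f^[n] w - D.f^[n] (D.vv c) - deriv (D.f^[n]) (D.vv c) *
        (w - D.vv c)) (b := deriv (D.f^[n]) (D.vv c) * (w - D.vv c))
        (c := D.f^[n] (D.vv c) - c')
    rw [← h5] at h6
    have h7 : t * d ≤ Kb * (t * d) := le_mul_of_one_le_left (by positivity) hKb
    have h8 : 1 / 8 * d * ‖w - D.vv c‖ ≤ 1 / 8 * (t * d) := by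
      rw [mul_comm t d, ← mul_assoc]
      exact h4
    have h9 : d * t = t * d := mul_comm _ _
    rw [h9] at h3
    have h10 := h1.trans h8
    have h11 : 0 ≤ t * d := by positivity
    linarith
  -- distance from the orbit of the terminal value
  have hdist : ∀ i < n, ‖D.f^[i] w - D.f^[i] (D.vv c)‖ ≤
      min η (1 / 2) * D.dd (D.f^[i] (D.vv c)) := by
    intro i hi
    have h1 := (H i hi.le).2.2.1
    have h3 : ‖deriv (D.f^[i]) (D.vv c) * (w - D.vv c)‖ ≤ D.DD c i * t := by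
      rw [norm_mul]
      exact mul_le_mul_of_nonneg_left hw2 (hDD0 i)
    have h4 : 1 / 8 * D.DD c i * ‖w - D.vv c‖ ≤ 1 / 8 * D.DD c i * t :=
      mul_le_mul_of_nonneg_left hw2 (by have := hDD0 i; positivity)
    have h5 : D.f^[i] w - D.f^[i] (D.vv c) = (D.f^[i] w - D.f^[i] (D.vv c) -
        deriv (D.f^[i]) (D.vv c) * (w - D.vv c)) + deriv (D.f^[i]) (D.vv c) * (w - D.vv c) := by
      ring
    have h6 : ‖D.f^[i] w - D.f^[i] (D.vv c)‖ ≤ 9 / 8 * (t * D.DD c i) := by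
      rw [h5]
      refine (norm_add_le _ _).trans ?_
      have h7 : D.DD c i * t = t * D.DD c i := mul_comm _ _
      linarith
    have h8 := hS.lt i hi
    have h9 : K * (t * D.DD c i) ≤ D.ee c i := by
      refine le_trans (mul_le_mul_of_nonneg_right ?_ (by have := hDD0 i; positivity)) h8
      unfold Kn
      have h10 : (1 : ℝ) ≤ ((i : ℝ) + 1) ^ 2 := one_le_pow₀ (by
        have : (0 : ℝ) ≤ i := Nat.cast_nonneg _
        linarith)
      exact le_mul_of_one_le_right (by linarith) h10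
    have h11 : D.ee c i ≤ Z * D.dd (D.f^[i] (D.vv c)) := HZ _ (J_th D (hJp i) D.hδ)
    have hdd0 := dd_nonneg D (D.f^[i] (D.vv c))
    have hmn : 0 < min η (1 / 2) := lt_min hη (by norm_num)
    have hK2' : 9 / 8 * Z ≤ K * min η (1 / 2) := by
      have h12 : 1 ≤ (1 / η + 2) * min η (1 / 2) := by
        rcases min_choice η (1 / 2) with h | h
        · rw [h]
          have h13 : 1 / η * η = 1 := by field_simp
          linarith [mul_nonneg (by norm_num : (0 : ℝ) ≤ 2) hη.le, add_mul (1 / η) 2 η]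
        · rw [h]
          have : 0 < 1 / η := by positivity
          linarith
      calc 9 / 8 * Z = 9 / 8 * Z * 1 := by ring
        _ ≤ 9 / 8 * Z * ((1 / η + 2) * min η (1 / 2)) :=
          mul_le_mul_of_nonneg_left h12 (by linarith)
        _ = K2 * min η (1 / 2) := by rw [hK2]; ring
        _ ≤ K * min η (1 / 2) := mul_le_mul_of_nonneg_right hKK2 hmn.le
    have hKp : 0 < K := by linarith
    refine le_of_mul_le_mul_left ?_ hKp
    calc K * ‖D.f^[i] w - D.f^[i] (D.vv c)‖ ≤ K * (9 / 8 * (t * D.DD c i)) :=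
          mul_le_mul_of_nonneg_left h6 hKp.le
      _ = 9 / 8 * (K * (t * D.DD c i)) := by ring
      _ ≤ 9 / 8 * (Z * D.dd (D.f^[i] (D.vv c))) := by linarith
      _ = (9 / 8 * Z) * D.dd (D.f^[i] (D.vv c)) := by ring
      _ ≤ (K * min η (1 / 2)) * D.dd (D.f^[i] (D.vv c)) := mul_le_mul_of_nonneg_right hK2' hdd0
      _ = K * (min η (1 / 2) * D.dd (D.f^[i] (D.vv c))) := by ring
  have hnj : ∀ i < n, Nj D η (D.f^[i] w) := by
    intro i hi
    refine ⟨D.f^[i] (D.vv c), hJp i, ?_, (hdist i hi).trans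
      (mul_le_mul_of_nonneg_right (min_le_left _ _) (dd_nonneg D _))⟩
    unfold Ps.vv
    rw [← Function.iterate_add_apply]
    exact (D.hτp c hc _).1
  have hddw : ∀ i < n, 1 ≤ 2 * D.C * ((i : ℝ) + 1) ^ D.N6 * D.dd (D.f^[i] w) := by
    intro i hi
    have h1 := hdist i hi
    have h2 := dd_ce6 D hc i
    have h3 := (abs_le.1 (dd_lip D (D.f^[i] w) (D.f^[i] (D.vv c)))).1
    have h4 : min η (1 / 2) * D.dd (D.f^[i] (D.vv c)) ≤ 1 / 2 * D.dd (D.f^[i] (D.vv c)) :=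
      mul_le_mul_of_nonneg_right (min_le_right _ _) (dd_nonneg D _)
    have h5 : D.dd (D.f^[i] (D.vv c)) ≤ 2 * D.dd (D.f^[i] w) := by linarith
    have h6 : (0 : ℝ) ≤ D.C * ((i : ℝ) + 1) ^ D.N6 := by positivity
    have h7 := mul_le_mul_of_nonneg_left h5 h6
    linarith
  refine ⟨hn1, fun i hi => ⟨(H i hi).1, ?_⟩, fun i hi => ⟨hncr i hi, hnj i hi, ?_⟩, ?_, ?_, ?_⟩
  · have h1 := hDDq i
    have h2 := hlo i hi
    have h3 := norm_nonneg (deriv (D.f^[i]) w)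
    have h4 : D.C * D.DD c i ≤ 2 * D.C * ‖deriv (D.f^[i]) w‖ := by
      have h6 : D.DD c i ≤ 2 * ‖deriv (D.f^[i]) w‖ := by linarith
      calc D.C * D.DD c i ≤ D.C * (2 * ‖deriv (D.f^[i]) w‖) :=
            mul_le_mul_of_nonneg_left h6 hC0.le
        _ = _ := by ring
    have h5 : 2 * D.C * ‖deriv (D.f^[i]) w‖ ≤ A * ‖deriv (D.f^[i]) w‖ :=
      mul_le_mul_of_nonneg_right (by linarith) h3
    linarith
  · refine (hddw i hi).trans (mul_le_mul_of_nonneg_right ?_ (dd_nonneg D _))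
    exact mul_le_mul_of_nonneg_right hAC (by positivity)
  · refine hsum.trans (mul_le_mul_of_nonneg_right (by linarith) hT0.le)
  · intro hzs
    have hz1 : z ≤ 1 := by
      have h1 := hzz.trans ((min_le_left _ _).trans (min_le_left _ _))
      have h2 := D.hr1
      have h3 := D.hδ1
      linarith
    have hN1 : (1 : ℝ) ≤ ((n : ℝ) + 1) ^ D.N6 := one_le_pow₀ (by
      have : (0 : ℝ) ≤ n := Nat.cast_nonneg _
      linarith)
    obtain ⟨P, hP⟩ : ∃ P : ℝ, P = ((n : ℝ) + 1) ^ D.N6 * Kb := ⟨_, rfl⟩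
    have hPK : Kb ≤ P := by
      rw [hP]
      exact le_mul_of_one_le_left (by linarith) hN1
    have hzT : z * T ≤ 3 * D.C * (P * d) := by
      rcases hzs with hzs | hzs
      · have h1 : z ≤ 3 * (Kb * (t * d)) := hzs.trans hsu
        have h2 : z * T ≤ 3 * (Kb * (t * d)) * T := mul_le_mul_of_nonneg_right h1 hT0.le
        have h3 : 3 * (Kb * (t * d)) * T = 3 * (Kb * d) * (t * T) := by ring
        rw [h3, ht2, mul_one] at h2
        have h4 : Kb * d ≤ P * d := mul_le_mul_of_nonneg_right hPK hdp.le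
        have h5 : 3 * (P * d) ≤ D.C * (3 * (P * d)) := by
          have : 0 ≤ P := by linarith
          exact le_mul_of_one_le_left (by positivity) hC
        linarith
      · have h1 := D.ce6 c hc c' hc' hzs n
        change 1 ≤ D.C * ((n : ℝ) + 1) ^ D.N6 * ‖D.f^[n] (D.vv c) - c'‖ at h1
        rw [hee] at h1
        have h2 := hS.hit
        rw [← hKbd, ← hd] at h2
        have h3 : D.C * ((n : ℝ) + 1) ^ D.N6 * D.ee c n ≤
            D.C * ((n : ℝ) + 1) ^ D.N6 * (Kb * (t * d)) :=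
          mul_le_mul_of_nonneg_left h2.le (by positivity)
        have h4 : z * T ≤ 1 * T := mul_le_mul_of_nonneg_right hz1 hT0.le
        have h5 := mul_le_mul_of_nonneg_right (h1.trans h3) hT0.le
        have h6 : D.C * ((n : ℝ) + 1) ^ D.N6 * (Kb * (t * d)) * T =
            D.C * (P * d) * (t * T) := by
          rw [hP]
          ring
        rw [h6, ht2, mul_one] at h5
        have h7 : 0 ≤ D.C * (P * d) := by
          have : 0 ≤ P := by linarith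
          positivity
        linarith
    have hdL : d ≤ D.L * D.DD c (n - 1) := by
      obtain ⟨n', hn'⟩ : ∃ n', n = n' + 1 := ⟨n - 1, by omega⟩
      rw [hd, hn', Nat.add_sub_cancel]
      show ‖deriv (D.f^[n' + 1]) (D.vv c)‖ ≤ D.L * ‖deriv (D.f^[n']) (D.vv c)‖
      rw [it_succ D fun i _ => D.hU (J_th D (hJp i) D.hδ), norm_mul]
      exact mul_le_mul_of_nonneg_right (D.hLf _ (J_th D (hJp n') D.hδ)) (norm_nonneg _)
    have hlo1 := hlo (n - 1) (Nat.sub_le _ _)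
    have hP0 : 0 ≤ P := by linarith
    have h8 : d ≤ D.L * (8 / 7 * ‖deriv (D.f^[n - 1]) w‖) :=
      hdL.trans (mul_le_mul_of_nonneg_left (by linarith) (by linarith))
    have h9 : 3 * D.C * (P * d) ≤ 3 * D.C * (P * (D.L * (8 / 7 * ‖deriv (D.f^[n - 1]) w‖))) := by
      gcongr
    have h10 : 0 ≤ P * ‖deriv (D.f^[n - 1]) w‖ := by positivity
    have h11 : 4 * D.C * D.L * (P * ‖deriv (D.f^[n - 1]) w‖) ≤
        A * (P * ‖deriv (D.f^[n - 1]) w‖) := mul_le_mul_of_nonneg_right hACL h10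
    have h12 : 3 * D.C * (P * (D.L * (8 / 7 * ‖deriv (D.f^[n - 1]) w‖))) =
        24 / 7 * (D.C * D.L * (P * ‖deriv (D.f^[n - 1]) w‖)) := by ring
    have h13 : 0 ≤ D.C * D.L * (P * ‖deriv (D.f^[n - 1]) w‖) := by positivity
    rw [← hP]
    calc z * T ≤ 24 / 7 * (D.C * D.L * (P * ‖deriv (D.f^[n - 1]) w‖)) := by
          rw [← h12]
          exact hzT.trans h9
      _ ≤ 4 * D.C * D.L * (P * ‖deriv (D.f^[n - 1]) w‖) := by linarith
      _ ≤ A * (P * ‖deriv (D.f^[n - 1]) w‖) := h11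
      _ = A * P * ‖deriv (D.f^[n - 1]) w‖ := by ring
  · intro hcE hsz hsl
    have hcC : c' ∈ D.Cr := ce_Cr D hcE
    obtain ⟨u, hu⟩ : ∃ u, u = D.f^[n] w := ⟨_, rfl⟩
    obtain ⟨s, hs⟩ : ∃ s : ℝ, s = ‖u - c'‖ := ⟨_, rfl⟩
    rw [← hu, ← hs] at hsz hsl hsu
    have hs0 : 0 < s := lt_of_lt_of_le (by positivity) hsl
    have hub : u ∈ ball c' D.r0 := by
      rw [mem_ball, dist_eq_norm, ← hs]
      exact (hsz.trans_le hzz).trans_le ((min_le_left _ _).trans (min_le_left _ _))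
    obtain ⟨hcu, hdu⟩ := trk1_u D hcC hub (hs ▸ hs0)
    rw [← hs] at hdu
    have hμ : 2 ≤ D.M c' := M_two D hcC
    have hτc : D.τ c' ≤ τm := hτle c' hcC
    obtain ⟨hp1a, hp1b⟩ := D.p1 c' hcC u hub
    obtain ⟨hp2a, hp2b⟩ := D.p2 c' hcC u hub
    rw [← hs] at hp1a hp1b hp2a hp2b
    obtain ⟨x, hx⟩ : ∃ x : ℝ, x = ‖D.f^[D.τ c'] u - D.f^[D.τ c'] c'‖ := ⟨_, rfl⟩
    rw [← hx] at hp1a hp1b
    have hsμ : 0 < s ^ D.M c' := by positivity
    have hx0 : 0 < x := by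
      have h1 : 0 < D.C * x := hsμ.trans_le hp1b
      exact (mul_pos_iff_of_pos_left hC0).1 h1
    have hs1 : s ≤ 1 / (4 * D.C) :=
      (hsz.le.trans hzz).trans ((min_le_left _ _).trans (min_le_right _ _))
    have hs2 : s ≤ η / (D.C * D.L ^ τm) := (hsz.le.trans hzz).trans (min_le_right _ _)
    have hs1' : s ≤ 1 := hs1.trans (by
      rw [div_le_one (by positivity)]
      linarith)
    have hx1 : x ≤ 1 := by
      have h1 : s ^ D.M c' ≤ s := by
        calc s ^ D.M c' ≤ s ^ 1 := pow_le_pow_of_le_one hs0.le hs1' (by omega)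
          _ = s := pow_one s
      have h2 : D.C * s ≤ 1 / 4 := by
        have h3 := mul_le_mul_of_nonneg_left hs1 hC0.le
        have h4 : D.C * (1 / (4 * D.C)) = 1 / 4 := by field_simp
        linarith
      have h3 : D.C * s ^ D.M c' ≤ D.C * s := mul_le_mul_of_nonneg_left h1 hC0.le
      linarith
    obtain ⟨j', hj1, hj2⟩ := exists_nat_pow_near_of_lt_one hx0 hx1
      (by norm_num : (0 : ℝ) < 1 / 2) (by norm_num : (1 / 2 : ℝ) < 1)
    have hfk : ∀ a, D.f^[n + a] w = D.f^[a] u := by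
      intro a
      rw [add_comm, Function.iterate_add_apply, hu]
    have hth : ∀ i ≤ n + D.τ c', D.f^[i] w ∈ thickening (D.δ / 4) D.J := by
      intro i hi
      rcases Nat.lt_or_ge i n with h | h
      · exact (H i h.le).1
      · obtain ⟨a, rfl⟩ := Nat.exists_eq_add_of_le h
        rw [hfk]
        exact D.p4 c' hcC u hub a (by omega)
    have hG : ∀ i ≤ n + D.τ c', D.f^[i] w ∈ thickening D.δ D.J := fun i hi =>
      thickening_mono (by linarith [D.hδ]) _ (hth i hi)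
    have hder : ∀ a ≤ D.τ c', ‖deriv (D.f^[n + a]) w‖ =
        ‖deriv (D.f^[a]) u‖ * ‖deriv (D.f^[n]) w‖ := by
      intro a ha
      rw [it_add D (fun i hi => D.hU (hG i (by omega))), norm_mul, hu]
    obtain ⟨Λ, hΛ⟩ : ∃ Λ : ℝ, Λ = ‖deriv (D.f^[n + D.τ c']) w‖ := ⟨_, rfl⟩
    obtain ⟨p, hp⟩ : ∃ p : ℝ, p = (1 / 2) ^ j' := ⟨_, rfl⟩
    have hp0' : 0 < p := by rw [hp]; positivity
    have hj1' : p < 2 * x := by
      rw [pow_succ] at hj1
      rw [hp]
      linarith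
    rw [← hp] at hj2
    have hΛe : Λ = ‖deriv (D.f^[D.τ c']) u‖ * ‖deriv (D.f^[n]) w‖ := by
      rw [hΛ, hder _ le_rfl]
    obtain ⟨Q, hQ⟩ : ∃ Q : ℝ, Q = s ^ (D.M c' - 1) := ⟨_, rfl⟩
    have hQ0 : 0 < Q := by rw [hQ]; positivity
    have hQs : s ^ D.M c' = Q * s := by
      rw [hQ, ← pow_succ]
      congr 1
      omega
    rw [← hQ] at hp2a hp2b
    rw [hQs] at hp1a hp1b
    have hdn0 := norm_nonneg (deriv (D.f^[n]) w)
    have hdu0 := norm_nonneg (deriv (D.f^[D.τ c']) u)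
    have hw' : D.f^[n + D.τ c'] w = D.f^[D.τ c'] u := hfk _
    have hnj' : ∀ i ≤ n + D.τ c', Nj D η (D.f^[i] w) := by
      intro i hi
      rcases Nat.lt_or_ge i n with h | h
      · exact hnj i h
      · obtain ⟨a, rfl⟩ := Nat.exists_eq_add_of_le h
        rw [hfk]
        refine nj_pass D hcE hub (by omega) ?_
        rw [← hs]
        have h1 : D.L ^ a ≤ D.L ^ τm := pow_le_pow_right₀ hL (by omega)
        rw [le_div_iff₀ (by positivity)] at hs2
        have h2 : D.C * D.L ^ a * s ≤ D.C * D.L ^ τm * s := by gcongr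
        linarith
    have hddk : 1 ≤ A * D.dd (D.f^[n + D.τ c'] w) := by
      rw [hfk]
      refine (dd_pass D hcE hub le_rfl).trans (mul_le_mul_of_nonneg_right ?_ (dd_nonneg D _))
      linarith
    refine ⟨n + D.τ c', j', rfl, ?_, fun i hi => ⟨hth i hi, hnj' i hi⟩, hddk, ?_, ?_, ?_, ?_, ?_, ?_⟩
    · refine ⟨?_, ?_⟩
      · rw [hw']
        exact hx ▸ hj1
      · rw [hw', ← hp]
        exact hx ▸ hj2
    · intro i hi
      rcases Nat.lt_or_ge i n with h | h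
      · exact hncr i h
      · obtain ⟨a, rfl⟩ := Nat.exists_eq_add_of_le h
        rw [hfk]
        exact hcu a (by omega)
    · rw [Finset.sum_range_add]
      have h1 : ∑ a ∈ Finset.range (D.τ c'), ‖deriv (D.f^[n + a]) w‖ / D.zt (D.f^[n + a] w) ≤
          (D.τ c' : ℝ) * (2 * D.C / lam * T) := by
        have h2 : ∀ a ∈ Finset.range (D.τ c'), ‖deriv (D.f^[n + a]) w‖ /
            D.zt (D.f^[n + a] w) ≤ 2 * D.C / lam * T := by
          intro a ha
          rw [Finset.mem_range] at ha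
          rw [hder a ha.le, hfk]
          have h3 := hdu a ha
          have h4 : ‖deriv (D.f^[a]) u‖ * ‖deriv (D.f^[n]) w‖ / D.zt (D.f^[a] u) =
              ‖deriv (D.f^[a]) u‖ / D.zt (D.f^[a] u) * ‖deriv (D.f^[n]) w‖ := by ring
          rw [h4]
          have h5 : D.C / s * (9 / 8 * d) ≤ 2 * D.C / lam * T := by
            have e1 : D.C / s * (9 / 8 * d) = (D.C * (9 / 8 * d)) / s := by ring
            have e2 : 2 * D.C / lam * T = (2 * D.C * T) / lam := by ring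
            rw [e1, e2, div_le_div_iff₀ hs0 hlam]
            have h6 : lam * d ≤ s * T := by
              have h7 := mul_le_mul_of_nonneg_right hsl hT0.le
              have h8 : lam * (t * d) * T = lam * d * (t * T) := by ring
              rw [h8, ht2, mul_one] at h7
              exact h7
            have h9 : D.C * (lam * d) ≤ D.C * (s * T) := mul_le_mul_of_nonneg_left h6 hC0.le
            have h10 : 0 ≤ D.C * (s * T) := by positivity
            calc D.C * (9 / 8 * d) * lam = 9 / 8 * (D.C * (lam * d)) := by ring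
              _ ≤ 9 / 8 * (D.C * (s * T)) := by linarith
              _ ≤ 2 * (D.C * (s * T)) := by linarith
              _ = 2 * D.C * T * s := by ring
          have hCs : 0 ≤ D.C / s := by positivity
          exact (mul_le_mul h3 hdup hdn0 hCs).trans h5
        calc _ ≤ ∑ _a ∈ Finset.range (D.τ c'), 2 * D.C / lam * T := Finset.sum_le_sum h2
          _ = _ := by rw [Finset.sum_const, Finset.card_range, nsmul_eq_mul]
      have h2 : (D.τ c' : ℝ) * (2 * D.C / lam * T) ≤ (τm : ℝ) * (2 * D.C / lam * T) :=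
        mul_le_mul_of_nonneg_right (by exact_mod_cast hτc) (by positivity)
      have h3 : (9 / 2 : ℝ) * T ≤ 5 / lam * T := by
        apply mul_le_mul_of_nonneg_right _ hT0.le
        rw [le_div_iff₀ hlam]
        linarith
      have h4 : 5 / lam * T + (τm : ℝ) * (2 * D.C / lam * T) =
          (5 + 2 * D.C * τm) / lam * T := by ring
      have h5 : (5 + 2 * D.C * τm) / lam * T ≤ A / lam * T := by gcongr
      linarith
    · rw [← hp, ← hΛ, hΛe]
      -- p * T ≤ A * Kb * Λ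
      have h1 : p ≤ 2 * D.C * (Q * s) := by
        rw [mul_assoc]
        linarith
      have h2 : s * T ≤ 3 * (Kb * d) := by
        have h3 := mul_le_mul_of_nonneg_right hsu hT0.le
        have h4 : 3 * (Kb * (t * d)) * T = 3 * (Kb * d) * (t * T) := by ring
        rw [h4, ht2, mul_one] at h3
        exact h3
      have h5 : Kb * d ≤ Kb * (8 / 7 * ‖deriv (D.f^[n]) w‖) :=
        mul_le_mul_of_nonneg_left (by linarith) (by linarith)
      have h6 : p * T ≤ 2 * D.C * Q * (3 * (Kb * (8 / 7 * ‖deriv (D.f^[n]) w‖))) := by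
        calc p * T ≤ 2 * D.C * (Q * s) * T := mul_le_mul_of_nonneg_right h1 hT0.le
          _ = 2 * D.C * Q * (s * T) := by ring
          _ ≤ 2 * D.C * Q * (3 * (Kb * (8 / 7 * ‖deriv (D.f^[n]) w‖))) :=
              mul_le_mul_of_nonneg_left (by linarith) (by positivity)
      have h7 : 2 * D.C * Q * (3 * (Kb * (8 / 7 * ‖deriv (D.f^[n]) w‖))) ≤
          7 * D.C * Q * (Kb * ‖deriv (D.f^[n]) w‖) := by
        have h8 : 0 ≤ D.C * Q * (Kb * ‖deriv (D.f^[n]) w‖) := by positivity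
        have h9 : 2 * D.C * Q * (3 * (Kb * (8 / 7 * ‖deriv (D.f^[n]) w‖))) =
            48 / 7 * (D.C * Q * (Kb * ‖deriv (D.f^[n]) w‖)) := by ring
        have h10 : 7 * D.C * Q * (Kb * ‖deriv (D.f^[n]) w‖) =
            7 * (D.C * Q * (Kb * ‖deriv (D.f^[n]) w‖)) := by ring
        rw [h9, h10]
        linarith
      have h8 : 7 * D.C * Q * (Kb * ‖deriv (D.f^[n]) w‖) ≤
          7 * D.C * (D.C * ‖deriv (D.f^[D.τ c']) u‖) * (Kb * ‖deriv (D.f^[n]) w‖) := by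
        apply mul_le_mul_of_nonneg_right _ (by positivity)
        exact mul_le_mul_of_nonneg_left hp2b (by positivity)
      have h9 : 7 * D.C * (D.C * ‖deriv (D.f^[D.τ c']) u‖) * (Kb * ‖deriv (D.f^[n]) w‖) =
          7 * D.C ^ 2 * (Kb * (‖deriv (D.f^[D.τ c']) u‖ * ‖deriv (D.f^[n]) w‖)) := by ring
      have h10 : 7 * D.C ^ 2 * (Kb * (‖deriv (D.f^[D.τ c']) u‖ * ‖deriv (D.f^[n]) w‖)) ≤
          A * (Kb * (‖deriv (D.f^[D.τ c']) u‖ * ‖deriv (D.f^[n]) w‖)) :=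
        mul_le_mul_of_nonneg_right hA7 (by positivity)
      rw [mul_assoc]
      linarith
    · rw [← hp, ← hΛ, hΛe]
      -- lam * Λ ≤ A * (p * T)
      have h1 : lam * d ≤ s * T := by
        have h7 := mul_le_mul_of_nonneg_right hsl hT0.le
        have h8 : lam * (t * d) * T = lam * d * (t * T) := by ring
        rw [h8, ht2, mul_one] at h7
        exact h7
      have h2 : lam * (‖deriv (D.f^[D.τ c']) u‖ * ‖deriv (D.f^[n]) w‖) ≤
          lam * ((D.C * Q) * (9 / 8 * d)) := by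
        apply mul_le_mul_of_nonneg_left _ hlam.le
        exact mul_le_mul hp2a hdup hdn0 (by positivity)
      have h3 : lam * ((D.C * Q) * (9 / 8 * d)) = 9 / 8 * (D.C * Q) * (lam * d) := by ring
      have h4 : 9 / 8 * (D.C * Q) * (lam * d) ≤ 9 / 8 * (D.C * Q) * (s * T) :=
        mul_le_mul_of_nonneg_left h1 (by positivity)
      have h5 : 9 / 8 * (D.C * Q) * (s * T) = 9 / 8 * D.C * (Q * s) * T := by ring
      have h6 : 9 / 8 * D.C * (Q * s) * T ≤ 9 / 8 * D.C * (D.C * p) * T := by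
        apply mul_le_mul_of_nonneg_right _ hT0.le
        apply mul_le_mul_of_nonneg_left _ (by positivity)
        exact hp1b.trans (mul_le_mul_of_nonneg_left hj2 hC0.le)
      have h7 : 9 / 8 * D.C * (D.C * p) * T = 9 / 8 * D.C ^ 2 * (p * T) := by ring
      have h8 : 9 / 8 * D.C ^ 2 * (p * T) ≤ A * (p * T) := by
        apply mul_le_mul_of_nonneg_right _ (by positivity)
        linarith
      linarith
    · rw [← hp]
      have h1 := stg_hit D hK1 hc hc' ht0 hS hee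
      rw [← hKbd, ← hd] at h1
      have h2 : (lam * (t * d)) ^ D.M c' ≤ D.C * p := by
        calc (lam * (t * d)) ^ D.M c' ≤ s ^ D.M c' := pow_le_pow_left₀ (by positivity) hsl _
          _ = Q * s := hQs
          _ ≤ D.C * x := hp1b
          _ ≤ D.C * p := mul_le_mul_of_nonneg_left hj2 hC0.le
      have h3 : lam ^ D.M c' * D.q ^ n * t ≤ lam ^ D.M c' * (D.C * (Kb * (t * d)) ^ D.M c') := by
        rw [mul_assoc]
        apply mul_le_mul_of_nonneg_left _ (by positivity)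
        rw [mul_comm]
        exact h1
      have h4 : lam ^ D.M c' * (D.C * (Kb * (t * d)) ^ D.M c') =
          D.C * Kb ^ D.M c' * (lam * (t * d)) ^ D.M c' := by
        rw [mul_pow Kb, mul_pow lam]
        ring
      have hKb0 : 0 < Kb := by linarith
      have h5 : D.C * Kb ^ D.M c' * (lam * (t * d)) ^ D.M c' ≤
          D.C * Kb ^ D.M c' * (D.C * p) := mul_le_mul_of_nonneg_left h2 (by positivity)
      have h6 : D.C * Kb ^ D.M c' * (D.C * p) = D.C ^ 2 * (Kb ^ D.M c' * p) := by ring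
      have h7 : D.C ^ 2 * (Kb ^ D.M c' * p) ≤ A * (Kb ^ D.M c' * p) := by
        apply mul_le_mul_of_nonneg_right _ (by positivity)
        linarith
      rw [mul_assoc A]
      linarith
    · intro i hi1 hi2
      obtain ⟨b, hb⟩ := Nat.exists_eq_add_of_le hi2
      rw [hb, it_add D (fun i' hi' => D.hU (hG i' (by omega))), norm_mul]
      apply mul_le_mul_of_nonneg_right _ (norm_nonneg _)
      have h1 : ‖deriv (D.f^[b]) (D.f^[i] w)‖ ≤ D.L ^ b := by
        apply it_bd D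
        intro i' hi'
        rw [← Function.iterate_add_apply]
        exact hG _ (by omega)
      refine (h1.trans ?_).trans hAL
      exact pow_le_pow_right₀ hL (by omega)

end Pool.Agent.H44.DP
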